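import Pool.Agent.H66.M7.Germ
import Pool.Agent.H83.Lo.Moments

/-!
# One step: relation between the coefficients of two nested domains
-/

namespace Pool.Agent.H66.M7

open Complex Metric Asymptotics Filter Topology Set
open scoped ComplexConjugate
open Pool.Agent.H83.Lo

theorem nhdsWithin_UH_neBot : (𝓝[UH] (0 : ℂ)).NeBot := by
  rw [← mem_closure_iff_nhdsWithin_neBot, Metric.mem_closure_iff]
  intro ε hε
  refine ⟨((ε / 2 : ℝ) : ℂ) * I, ?_, ?_⟩
  · rw [mem_UH]; simp; positivity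
  · rw [dist_eq_norm, zero_sub, norm_neg, norm_mul, Complex.norm_I, mul_one, Complex.norm_real,
      Real.norm_eq_abs, abs_of_pos (by positivity)]
    linarith

theorem nhdsWithin_UH_le : 𝓝[UH] (0 : ℂ) ≤ 𝓝[≠] 0 := by
  refine nhdsWithin_mono _ fun z hz => ?_
  rw [mem_UH] at hz
  intro h0
  rw [mem_singleton_iff] at h0
  rw [h0] at hz
  simp at hz

/-- composition with an expansion without constant term -/
theorem E5.comp {F : Filter ℂ} (hF : F ≤ 𝓝 0) {Q η : ℂ → ℂ} {q0 q1 q2 q3 q4 e1 e2 e3 e4 : ℂ}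
    (hQ : E5 (𝓝 0) Q q0 q1 q2 q3 q4) (hη : E5 F η 0 e1 e2 e3 e4) :
    E5 F (fun z => Q (η z)) q0 (q1 * e1) (q1 * e2 + q2 * e1 ^ 2)
      (q1 * e3 + q2 * (2 * e1 * e2) + q3 * e1 ^ 3)
      (q1 * e4 + q2 * (2 * e1 * e3 + e2 ^ 2) + q3 * (3 * e1 ^ 2 * e2) + q4 * e1 ^ 4) := by
  have hz1 : (fun z : ℂ => z ^ 5) =O[F] fun z => z := by
    have h0 : (fun z : ℂ => z ^ 4) =O[F] fun _ => (1 : ℂ) :=
      (((continuous_pow 4).tendsto (0 : ℂ)).isBigO_one ℂ).mono hF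
    have h1 := h0.mul (isBigO_refl (fun z : ℂ => z) F)
    refine (h1.congr_left fun z => by ring).trans ?_
    simp only [one_mul]
    exact isBigO_refl _ _
  have hη1 : η =O[F] fun z => z := by
    have h1 : (fun z : ℂ => 0 + e1 * z + e2 * z ^ 2 + e3 * z ^ 3 + e4 * z ^ 4) =O[F]
        fun z => z := by
      have hc : Continuous fun z : ℂ => e1 + e2 * z + e3 * z ^ 2 + e4 * z ^ 3 := by fun_prop
      have h2 := (isBigO_refl (fun z : ℂ => z) F).mul (((hc.tendsto 0).isBigO_one ℂ).mono hF)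
      refine (h2.congr_left fun z => by ring).trans ?_
      simp only [mul_one]
      exact isBigO_refl _ _
    refine ((IsBigO.trans hη hz1).add h1).congr_left fun z => by ring
  have hη0 : Tendsto η F (𝓝 0) := hη1.trans_tendsto hF
  have h2 : (fun z => Q (η z) - (q0 + q1 * η z + q2 * η z ^ 2 + q3 * η z ^ 3 + q4 * η z ^ 4))
      =O[F] fun z => z ^ 5 :=
    (IsBigO.comp_tendsto hQ hη0).trans (hη1.pow 5)
  have m2 := hη.mul hF hη
  have m3 := m2.mul hF hη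
  have m4 := m3.mul hF hη
  have hc : ∀ q : ℂ, E5 F (fun _ => q) q 0 0 0 0 := fun q =>
    (E5_poly F q 0 0 0 0).congr (Eventually.of_forall fun z => by simp)
  have s := ((((hc q0).add ((hc q1).mul hF hη)).add ((hc q2).mul hF m2)).add
    ((hc q3).mul hF m3)).add ((hc q4).mul hF m4)
  have s2 := IsBigO.add h2 s
  unfold E5
  refine s2.congr_left fun z => ?_
  ring

theorem tc_one (f : ℂ → ℂ) : tc f 1 = deriv f 0 := by simp [tc, iteratedDeriv_one]

section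

variable {l a0 l' a0' : ℝ} {A A' : ℂ → ℂ}

/-- expansion of `1 / ψ'` -/
theorem eta_exp (hA' : Germ l' a0' A') (hl' : 0 < l') :
    E5 (𝓝[UH] (0 : ℂ)) (fun z => (-1 / z + A' z)⁻¹) 0 (-1) 0 (-(rc A' 1 : ℂ)) (-(rc A' 2 : ℂ)) := by
  have hF := nhdsWithin_UH_le
  have hF0 : 𝓝[UH] (0 : ℂ) ≤ 𝓝 0 := hF.trans nhdsWithin_le_nhds
  have hAa : AnalyticAt ℂ A' 0 := hA'.diff.analyticAt (isOpen_ball.mem_nhds (mem_ball_self hl'))
  have hD : AnalyticAt ℂ (fun z => 1 - z * A' z) 0 :=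
    analyticAt_const.sub (analyticAt_id.mul hAa)
  have hD0 : (fun z : ℂ => 1 - z * A' z) 0 ≠ 0 := by simp
  have hη : AnalyticAt ℂ (fun z => -z / (1 - z * A' z)) 0 := (analyticAt_id.neg).div hD hD0
  have eη := (E5_of_analytic hη).mono hF0
  have eA := (E5_of_analytic hAa).mono hF0
  have ez : E5 (𝓝[UH] (0 : ℂ)) (fun z => z) 0 1 0 0 0 :=
    (E5_poly _ 0 1 0 0 0).congr (Eventually.of_forall fun z => by simp)
  have enz : E5 (𝓝[UH] (0 : ℂ)) (fun z => -z) 0 (-1) 0 0 0 :=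
    (E5_poly _ 0 (-1) 0 0 0).congr (Eventually.of_forall fun z => by simp)
  have e1 : E5 (𝓝[UH] (0 : ℂ)) (fun _ => 1) 1 0 0 0 0 :=
    (E5_poly _ 1 0 0 0 0).congr (Eventually.of_forall fun z => by simp)
  have eP := eη.mul hF0 (e1.sub (ez.mul hF0 eA))
  have hne : ∀ᶠ z in 𝓝[UH] (0 : ℂ), 1 - z * A' z ≠ 0 :=
    hF0 (hD.continuousAt.eventually_ne hD0)
  have heq : (fun z => -z / (1 - z * A' z) * (1 - z * A' z)) =ᶠ[𝓝[UH] (0 : ℂ)] fun z => -z := by
    filter_upwards [hne] with z hz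
    field_simp
  have := nhdsWithin_UH_neBot
  obtain ⟨u0, u1, u2, u3, u4⟩ := E5.unique hF (eP.congr heq) enz
  have hA0 : tc A' 0 = 0 := by rw [tc_zero, hA'.zero]
  have hA1 : tc A' 1 = (rc A' 1 : ℂ) := tc_real hl' hA'.conj' 1
  have hA2 : tc A' 2 = (rc A' 2 : ℂ) := tc_real hl' hA'.conj' 2
  have t0 : tc (fun z => -z / (1 - z * A' z)) 0 = 0 := by rw [tc_zero]; simp
  simp only [t0, hA0, hA1, hA2] at u1 u2 u3 u4
  have t1 : tc (fun z => -z / (1 - z * A' z)) 1 = -1 := by linear_combination u1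
  rw [t1] at u2 u3 u4
  have t2 : tc (fun z => -z / (1 - z * A' z)) 2 = 0 := by linear_combination u2
  rw [t2] at u3 u4
  have t3 : tc (fun z => -z / (1 - z * A' z)) 3 = -(rc A' 1 : ℂ) := by linear_combination u3
  rw [t3] at u4
  have t4 : tc (fun z => -z / (1 - z * A' z)) 4 = -(rc A' 2 : ℂ) := by linear_combination u4
  rw [t0, t1, t2, t3, t4] at eη
  refine eη.congr ?_
  filter_upwards [hne, hF self_mem_nhdsWithin] with z hz hz0
  have hz0' : z ≠ 0 := hz0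
  have h3 : -1 / z + A' z = -(1 - z * A' z) / z := by field_simp; ring
  rw [h3, inv_div, neg_div, div_neg]

/-- `1/z → ∞` in the upper half plane, in the form used here -/
theorem eventually_large (hA' : Germ l' a0' A') (hl' : 0 < l') (R : ℝ) :
    ∀ᶠ z in 𝓝[UH] (0 : ℂ), R < ‖-1 / z + A' z‖ := by
  have hF := nhdsWithin_UH_le
  have hF0 : 𝓝[UH] (0 : ℂ) ≤ 𝓝 0 := hF.trans nhdsWithin_le_nhds
  have h1 : Tendsto (fun z : ℂ => ‖z⁻¹‖) (𝓝[≠] 0) atTop := by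
    have := tendsto_norm_cobounded_atTop.comp (tendsto_inv₀_nhdsNE_zero (α := ℂ))
    exact this
  have h2 := (h1.mono_left hF).eventually_gt_atTop (|R| + a0' + 1)
  have h3 : ∀ᶠ z in 𝓝[UH] (0 : ℂ), z ∈ ball (0 : ℂ) l' :=
    hF0 (isOpen_ball.mem_nhds (mem_ball_self hl'))
  filter_upwards [h2, h3] with z hz hzb
  have h4 := hA'.bound z hzb
  have h5 : ‖z⁻¹‖ ≤ ‖-1 / z + A' z‖ + ‖A' z‖ := by
    have e : z⁻¹ = -((-1 / z + A' z) - A' z) := by rw [add_sub_cancel_right]; ring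
    rw [e, norm_neg]
    exact norm_sub_le _ _
  have := le_abs_self R
  linarith

/-- Coefficients of the inverse map at infinity. -/
theorem coef_eq {T Q : ℂ → ℂ} {c a2 a3 r : ℝ} (hr : 0 < r) (hco : Hyd.Coef T c a2 a3)
    (hQ : DifferentiableOn ℂ Q (ball 0 r)) (hQ0 : Q 0 = 0) (hQ1 : deriv Q 0 = c)
    (hT : ∀ᶠ w in atUH, T w = w - Q w⁻¹) : tc Q 2 = a2 ∧ tc Q 3 = a3 := by
  have hQa : AnalyticAt ℂ Q 0 := hQ.analyticAt (isOpen_ball.mem_nhds (mem_ball_self hr))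
  have eQ := E5_of_analytic hQa
  rw [tc_zero, hQ0, tc_one, hQ1] at eQ
  have hne : ∀ᶠ w : ℂ in atUH, w ≠ 0 := by
    filter_upwards [tendsto_norm_atUH.eventually_gt_atTop 0] with w hw
    exact norm_pos_iff.mp hw
  have h1 := IsBigO.comp_tendsto eQ tendsto_inv_atUH
  have h2 : Tendsto (fun w : ℂ => w ^ 3 * (Q w⁻¹ - c / w - tc Q 2 / w ^ 2)) atUH
      (𝓝 (tc Q 3)) := by
    have h3 : (fun w : ℂ => w ^ 3 * (Q w⁻¹ - (0 + c * w⁻¹ + tc Q 2 * w⁻¹ ^ 2 + tc Q 3 * w⁻¹ ^ 3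
        + tc Q 4 * w⁻¹ ^ 4))) =O[atUH] fun w => w⁻¹ ^ 2 := by
      have h4 := (isBigO_refl (fun w : ℂ => w ^ 3) atUH).mul h1
      refine h4.trans (IsBigO.of_bound 1 ?_)
      filter_upwards [hne] with w hw
      simp only [Function.comp_apply]
      rw [one_mul]
      refine le_of_eq ?_
      congr 1
      field_simp
    have h5 : Tendsto (fun w : ℂ => w⁻¹ ^ 2) atUH (𝓝 0) := by
      simpa using tendsto_inv_atUH.pow 2
    have h6 := h3.trans_tendsto h5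
    have h7 : Tendsto (fun w : ℂ => tc Q 3 + tc Q 4 * w⁻¹) atUH (𝓝 (tc Q 3 + tc Q 4 * 0)) :=
      tendsto_const_nhds.add (tendsto_inv_atUH.const_mul _)
    have h8 := h6.add h7
    rw [mul_zero, add_zero, zero_add] at h8
    refine h8.congr' ?_
    filter_upwards [hne] with w hw
    field_simp
    ring
  have h9 : Tendsto (fun w : ℂ => w ^ 3 * (Q w⁻¹ - c / w - a2 / w ^ 2)) atUH (𝓝 (a3 : ℂ)) := by
    refine hco.lim.congr' ?_
    filter_upwards [hT] with w hw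
    rw [hw]
    ring_nf
  have h10 := (h2.sub h9).mul tendsto_inv_atUH
  rw [mul_zero] at h10
  have h11 : Tendsto (fun _ : ℂ => (a2 : ℂ) - tc Q 2) atUH (𝓝 0) := by
    refine h10.congr' ?_
    filter_upwards [hne] with w hw
    field_simp
    ring
  have h12 : (a2 : ℂ) - tc Q 2 = 0 := tendsto_nhds_unique tendsto_const_nhds h11
  have h13 : tc Q 2 = a2 := by linear_combination -h12
  refine ⟨h13, ?_⟩
  rw [h13] at h2
  exact tendsto_nhds_unique h2 h9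

/-- **The step**: relation of the coefficients of two nested domains. -/
theorem step_coefs (hA : Germ l a0 A) (hl : 0 < l) (hA' : Germ l' a0' A') (hl' : 0 < l')
    {U : Set ℂ} {g T : ℂ → ℂ} {c a2 a3 : ℝ} (h : Hyd U g c) (hT : Hyd.Inv U g T c)
    (hco : Hyd.Coef T c a2 a3)
    (hrel : ∀ᶠ z in 𝓝[UH] (0 : ℂ), -1 / z + A' z ∈ UH ∧ T (-1 / z + A' z) = -1 / z + A z) :
    rc A 1 = rc A' 1 + c ∧ rc A 2 = rc A' 2 - a2 ∧ rc A 3 = rc A' 3 + c * rc A' 1 + a3 := by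
  obtain ⟨R, hR⟩ := h.far
  set r : ℝ := max R 0 + 1 with hr
  have hr0 : 0 < r := by positivity
  obtain ⟨Q, hQd, hQ0, hQ1, -, -, hQT⟩ := Hyd.Inv.expansion h hT hr0 (fun z hz hz2 => hR z (by
    have := le_max_left R 0
    linarith) hz2)
  have h7 : 0 < 1 / (7 * r) := by positivity
  obtain ⟨k2, k3⟩ := coef_eq h7 hco hQd hQ0 hQ1 (by
    rw [eventually_atUH]
    exact ⟨7 * r, fun w hw hw2 => hQT w hw2 hw⟩)
  have hF := nhdsWithin_UH_le
  have hF0 : 𝓝[UH] (0 : ℂ) ≤ 𝓝 0 := hF.trans nhdsWithin_le_nhds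
  have := nhdsWithin_UH_neBot
  have hQa : AnalyticAt ℂ Q 0 := hQd.analyticAt (isOpen_ball.mem_nhds (mem_ball_self h7))
  have hAa : AnalyticAt ℂ A 0 := hA.diff.analyticAt (isOpen_ball.mem_nhds (mem_ball_self hl))
  have hAa' : AnalyticAt ℂ A' 0 := hA'.diff.analyticAt (isOpen_ball.mem_nhds (mem_ball_self hl'))
  have eQ := E5_of_analytic hQa
  rw [tc_zero, hQ0, tc_one, hQ1, k2, k3] at eQ
  have eη := eta_exp hA' hl'
  have eC := E5.comp hF0 eQ eη
  have eA := (E5_of_analytic hAa).mono hF0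
  have eA' := (E5_of_analytic hAa').mono hF0
  have heq : (fun z => A' z - Q ((-1 / z + A' z)⁻¹)) =ᶠ[𝓝[UH] (0 : ℂ)] A := by
    filter_upwards [hrel, eventually_large hA' hl' (7 * r)] with z hz hz2
    have h1 := hQT _ hz.1 hz2
    rw [hz.2] at h1
    linear_combination -h1
  obtain ⟨u0, u1, u2, u3, u4⟩ := E5.unique hF ((eA'.sub eC).congr heq) eA
  have r1 : tc A 1 = (rc A 1 : ℂ) := tc_real hl hA.conj' 1
  have r2 : tc A 2 = (rc A 2 : ℂ) := tc_real hl hA.conj' 2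
  have r3 : tc A 3 = (rc A 3 : ℂ) := tc_real hl hA.conj' 3
  have s1 : tc A' 1 = (rc A' 1 : ℂ) := tc_real hl' hA'.conj' 1
  have s2 : tc A' 2 = (rc A' 2 : ℂ) := tc_real hl' hA'.conj' 2
  have s3 : tc A' 3 = (rc A' 3 : ℂ) := tc_real hl' hA'.conj' 3
  rw [r1, s1] at u1
  rw [r2, s2] at u2
  rw [r3, s3] at u3
  refine ⟨?_, ?_, ?_⟩
  · have : ((rc A 1 : ℝ) : ℂ) = ((rc A' 1 + c : ℝ) : ℂ) := by
      push_cast; linear_combination -u1
    exact_mod_cast this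
  · have : ((rc A 2 : ℝ) : ℂ) = ((rc A' 2 - a2 : ℝ) : ℂ) := by
      push_cast; linear_combination -u2
    exact_mod_cast this
  · have : ((rc A 3 : ℝ) : ℂ) = ((rc A' 3 + c * rc A' 1 + a3 : ℝ) : ℂ) := by
      push_cast; linear_combination -u3
    exact_mod_cast this

end

end Pool.Agent.H66.M7
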