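import Mathlib
import Pool.Agent.H76.M7.Jump
import Pool.Agent.H28.Q1.Refine
import Pool.Agent.Q1.M3.Count

set_option autoImplicit false
open Finset Topology
open Filter (Tendsto atTop)

/-!
# Module M7: the observable after a large step

The event that the next step is large does not depend on the labels near the window; the observable
needs an arm near the window.
-/

namespace Pool.Agent.H66.M7

open Pool.Agent.H75.Perc Pool.Agent.H75.TwoArm Pool.Agent.H75.Four Pool.Agent.H69.Q1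
open Pool.Agent.H49.Q1
open Pool.Agent.H99.NC
open Pool.Agent.H81.Q1 (pt DDomain Approx IsJordanDomain IsArcs)
open Pool.Agent.Q1.M3
open Pool.Agent.Q1.M5 (StPz)
open Pool.Agent.H82.Q1.M7
open Pool.Agent.H76.M7

/-- Independence of an event which does not depend on the labels of `U` and an event which depends on
the labels of `U` only. -/
lemma Pr_insens {E U : Finset (ℤ × ℤ)} {P Q : Finset (ℤ × ℤ) → Prop}
    (hP : ∀ ω ω', ω ⊆ E → ω' ⊆ E → (∀ e ∈ E, e ∉ U → (e ∈ ω' ↔ e ∈ ω)) → P ω → P ω')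
    (hQ : ∀ ω, ω ⊆ E → (Q (ω ∩ (E ∩ U)) ↔ Q ω)) :
    Pr E (fun ω => P ω ∧ Q ω) = Pr E P * Pr E Q := by
  have key : ∀ ω, ω ⊆ E → (P (ω ∩ (E \ U)) ↔ P ω) := by
    intro ω hω
    constructor
    · exact hP _ _ (inter_subset_left.trans hω) hω fun e he hU => by
        rw [mem_inter, mem_sdiff]; tauto
    · exact hP _ _ hω (inter_subset_left.trans hω) fun e he hU => by
        rw [mem_inter, mem_sdiff]; tauto
  have h1 := Pr_indep (E := E) (E1 := E \ U) (E2 := E ∩ U) sdiff_subset inter_subset_left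
    (disjoint_left.2 fun e h1 h2 => (mem_sdiff.1 h1).2 (mem_inter.1 h2).2) P Q
  have h2 : Pr (E \ U) P = Pr E P := by
    rw [← Pr_restrict (sdiff_subset (s := E) (t := U)) P]
    exact Pr_congr fun ω hω => key ω hω
  have h3 : Pr (E ∩ U) Q = Pr E Q := by
    rw [← Pr_restrict (inter_subset_left (s₁ := E) (s₂ := U)) Q]
    exact Pr_congr fun ω hω => hQ ω hω
  rw [← h2, ← h3]
  refine Eq.trans (Pr_congr fun ω hω => ?_) h1
  rw [key ω hω, hQ ω hω]

section step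

variable {X : DEnv}

/-- Locality of the size of a step. -/
lemma large_insens (R : Rules) {δ e0 : ℝ} (hδ : 0 < δ) {U : Finset (ℤ × ℤ)}
    (hodd : ∀ e ∈ X.E, (e.1 + e.2) % 2 = 1)
    (hU : ∀ e ∈ U, e ∈ X.E → e0 + 2 * δ ≤ dist (pt δ (eu e)) (pt δ (vx X.α)))
    {η η' : Finset (ℤ × ℤ)} (h : η ⊆ X.E) (h' : η' ⊆ X.E)
    (hag : ∀ e ∈ X.E, e ∉ U → (e ∈ η' ↔ e ∈ η))
    (hL : ∃ t ≤ R.tm 1 X η, e0 < dist (pt δ (vx (X.cor η t))) (pt δ (vx X.α))) :
    ∃ t ≤ R.tm 1 X η', e0 < dist (pt δ (vx (X.cor η' t))) (pt δ (vx X.α)) := by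
  classical
  have htm : ∀ ζ, ζ ⊆ X.E → R.tm 1 X ζ = X.tau (R.Q X) ζ := by
    intro ζ hζ
    rw [R.tm_succ, R.tm_zero, add_zero, inter_eq_left.2 hζ]
  set t := Nat.find hL with ht
  obtain ⟨h1, h2⟩ := Nat.find_spec hL
  rw [← ht] at h1 h2
  have hmin : ∀ k < t, dist (pt δ (vx (X.cor η k))) (pt δ (vx X.α)) ≤ e0 := by
    intro k hk
    by_contra hc
    exact Nat.find_min hL hk ⟨hk.le.trans h1, not_le.1 hc⟩
  have hcor : ∀ k ≤ t, X.cor η' k = X.cor η k := by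
    refine X.cor_congr h h' fun k hk hE => hag _ hE fun hu => ?_
    have h3 := hU _ hu hE
    have h4 := hmin k hk
    have h5 := dist_of_star1 hδ ((mem_star1_iff (hodd _ hE)).2 (Or.inl rfl) :
      plab (X.cor η k) ∈ star1 (eu (plab (X.cor η k)))) (plab_star1 (X.cor η k))
    have h6 := dist_triangle (pt δ (eu (plab (X.cor η k)))) (pt δ (vx (X.cor η k)))
      (pt δ (vx X.α))
    linarith
  refine ⟨t, ?_, by rw [hcor t le_rfl]; exact h2⟩
  rw [htm η' h']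
  rw [htm η h] at h1
  by_contra hc
  push Not at hc
  have h3 := X.tau_spec (Q := R.Q X) h'
  have h4 := X.tau_min (Q := R.Q X) (lt_of_lt_of_le hc h1)
  rcases h3 with h3 | h3
  · exact h4.1 ((R.ad X _ _ _ fun i hi => hcor i (hi.trans hc.le)).1 h3)
  · rw [hcor _ hc.le] at h3; exact h4.2 h3

/-- The expectation of the observable after a step with a property of the step. -/
lemma ex_step (R : Rules) {L : Finset (ℤ × ℤ) → Prop}
    (hL : ∀ η η', η ⊆ X.E → η' ⊆ X.E → (∀ e ∈ X.exset (R.Q X) η, (e ∈ η' ↔ e ∈ η)) →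
      (L η' ↔ L η)) (f : Finset (ℤ × ℤ) → Prop) :
    EX X.E (fun η => ind (L η) * Pr (R.nenv X η).E (fun ζ => f (ζ ∪ (R.nenv X η).W))) =
      Pr X.E (fun η => L η ∧ f (η ∪ X.W)) := by
  classical
  rw [Pr_eq_EX]
  unfold EX
  rw [X.Ex_markov (fun _ => 1 / 2) (R.ad X) (fun η => ind (L η ∧ f (η ∪ X.W)))]
  refine Ex_congr fun ω hω => ?_
  have e : ω ∩ X.E = ω := inter_eq_left.2 hω
  set U := X.exset (R.Q X) ω with hU
  have hE : (R.nenv X ω).E = X.E \ U := by rw [R.nenv_E, e]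
  have hW : (R.nenv X ω).W = X.W ∪ (ω ∩ U) := by rw [R.nenv_W, e]
  rw [Pr_eq_EX, hE, hW]
  change ind (L ω) * Ex (fun _ => 1 / 2) (X.E \ U) _ = _
  rw [← Ex_smul]
  refine Ex_congr fun η hη => ?_
  have h' : η ∪ (ω ∩ U) ⊆ X.E := union_subset (hη.trans sdiff_subset)
    (inter_subset_left.trans hω)
  have hag : ∀ e ∈ U, (e ∈ η ∪ (ω ∩ U) ↔ e ∈ ω) := by
    intro e he
    rw [mem_union, mem_inter]
    constructor
    · rintro (h1 | h1)
      · exact absurd he (mem_sdiff.1 (hη h1)).2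
      · exact h1.1
    · intro h1; exact Or.inr ⟨h1, he⟩
  have h1 := hL ω (η ∪ (ω ∩ U)) hω h' hag
  have h2 : η ∪ (ω ∩ U) ∪ X.W = η ∪ (X.W ∪ (ω ∩ U)) := by
    rw [union_assoc, union_comm (ω ∩ U)]
  rw [h2]
  unfold ind
  by_cases h3 : L ω
  · rw [if_pos h3]
    by_cases h4 : f (η ∪ (X.W ∪ (ω ∩ U)))
    · rw [if_pos h4, if_pos ⟨h1.2 h3, h4⟩, one_mul]
    · rw [if_neg h4, if_neg (fun h5 : L (η ∪ (ω ∩ U)) ∧ f (η ∪ (X.W ∪ (ω ∩ U))) => h4 h5.2),
        mul_zero]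
  · rw [if_neg h3, if_neg (fun h5 : L (η ∪ (ω ∩ U)) ∧ f (η ∪ (X.W ∪ (ω ∩ U))) => h3 (h1.1 h5.1)),
      zero_mul]

/-- The size of the step is determined by the explored labels. -/
lemma large_local (R : Rules) {δ e0 : ℝ} {η η' : Finset (ℤ × ℤ)} (h : η ⊆ X.E) (h' : η' ⊆ X.E)
    (hag : ∀ e ∈ X.exset (R.Q X) η, (e ∈ η' ↔ e ∈ η)) :
    (∃ t ≤ R.tm 1 X η', e0 < dist (pt δ (vx (X.cor η' t))) (pt δ (vx X.α))) ↔
      ∃ t ≤ R.tm 1 X η, e0 < dist (pt δ (vx (X.cor η t))) (pt δ (vx X.α)) := by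
  obtain ⟨h1, h2, -⟩ := X.local_exset (R.ad X) h h' hag
  have e1 : R.tm 1 X η = X.tau (R.Q X) η := by
    rw [R.tm_succ, R.tm_zero, add_zero, inter_eq_left.2 h]
  have e2 : R.tm 1 X η' = X.tau (R.Q X) η := by
    rw [R.tm_succ, R.tm_zero, add_zero, inter_eq_left.2 h', h1]
  rw [e1, e2]
  constructor
  · rintro ⟨t, ht, h3⟩; exact ⟨t, ht, by rw [← h2 t ht]; exact h3⟩
  · rintro ⟨t, ht, h3⟩; exact ⟨t, ht, by rw [h2 t ht]; exact h3⟩

end step

section bad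

variable {D : Set ℂ} {a b : ℂ} {A₁ A₂ : Set ℂ} {A : Approx D a b A₁ A₂} {r0 : ℝ} {B : Base A r0}
  (w : Win B)

/-- If the path is far from the barrier, then so are the explored labels. -/
lemma fresh_of_far {n : ℕ} {ρ : ℝ} {k0 j : ℕ} {ω : Finset (ℤ × ℤ)} (hω : ω ⊆ (X0 A n).E)
    (hF : FarS B n ρ k0 j ω) : FreshS B n (ρ - A.δ n) (B.X k0 n j ω) := by
  intro e he hne z hz
  have h1 : (B.X k0 n j ω).E = (X0 A n).E \ Rules.metE (X0 A n) ω (B.T k0 n j ω) :=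
    Rules.st_E _ hω j
  rw [h1, mem_sdiff, not_and, not_not] at hne
  obtain ⟨-, k, hk, hke⟩ := Rules.mem_metE.1 (hne he)
  have h2 := hF k hk.le z hz
  have ho : (e.1 + e.2) % 2 = 1 := Pool.Agent.H28.Q1.odd_toDEnv _ e he
  have h3 := dist_of_star1 (A.pos n) ((mem_star1_iff ho).2 (Or.inl rfl) : e ∈ star1 (eu e))
    (by rw [← hke]; exact plab_star1 _ : e ∈ star1 (vx ((X0 A n).cor ω k)))
  have h4 := dist_triangle (pt (A.δ n) (vx ((X0 A n).cor ω k))) (pt (A.δ n) (eu e)) z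
  rw [dist_comm] at h3
  linarith

/-- The event of the observable requires an arm at the window point. -/
lemma ev_arm {n : ℕ} {l' ρ : ℝ} (hW : WinN w n l') {i r : ℤ} (hi : 0 < i) (hr0 : 0 ≤ r)
    (hr : (r + 2) * A.δ n < i * mesh (w.k1 + 1))
    (hr' : i * mesh (w.k1 + 1) + (r + 2) * A.δ n ≤ l') (hρ : (2 * r + 2) * A.δ n < ρ)
    {X : DEnv} (hX : FreshS B n ρ X) {η : Finset (ℤ × ℤ)} (hη : η ⊆ X.E)
    (h : w.ev n i (η ∪ X.W)) : AS (Sd w.k (w.x n i)) r η := by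
  have hδ := A.pos n
  have hr0' : (0 : ℝ) ≤ r := by exact_mod_cast hr0
  have g4 : i * mesh (w.k1 + 1) + 2 * A.δ n ≤ l' := by nlinarith
  set T := w.Tw n ∪ ((X0 A n).W ∩ star (B.N n)) with hT
  have e : ((η ∪ X.W) \ star (B.N n)) ∪ w.Z n =
      (η ∩ (X.E \ star (B.N n)) ∪ (X.W \ star (B.N n) ∪ T)) ∪ kap (B.N n) := by
    unfold Win.Z
    ext e
    have := @hη e
    simp only [hT, mem_union, mem_inter, mem_sdiff]
    tauto
  unfold Win.ev at h
  rw [e, co_kap hW.con (t_mem w hW hi g4)] at h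
  have h1 : CJ ((X.W \ star (B.N n)) ∪ T) (fun v => v ∈ B.N n) ((Sd w.k (w.x n i)).g (0, 0))
      (η ∩ (X.E \ star (B.N n))) := by
    rw [Sd_g]; exact h
  have h2 := CJ.arm hr0 (thin_state w hW hi hr hr' hρ hX) (fun v hv => VI_notin w hW hi hr' hv)
    inter_subset_right h1
  exact AS_inc _ _ _ _ inter_subset_left h2

/-- **[BAD]** -/
theorem stBad {pz : ℝ → ℝ} (hpz : StPz pz) (hDo : IsOpen D) (hA : A₁ ⊆ frontier D)
    (hne : A₁.Nonempty) (hb : b ∉ D) : StBad B w pz := by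
  intro ρ hρ i hi hil
  have hmp := mesh_pos (w.k1 + 1)
  have hi1 : (1 : ℝ) ≤ i := by exact_mod_cast hi
  have him : 0 < i * mesh (w.k1 + 1) := by positivity
  set l' := (i * mesh (w.k1 + 1) + w.l) / 2 with hl'
  have hl1 : l' < w.l := by rw [hl']; linarith
  have hl2 : i * mesh (w.k1 + 1) < l' := by rw [hl']; linarith
  set c := min (min (i * mesh (w.k1 + 1) / 2) ((l' - i * mesh (w.k1 + 1)) / 2)) (ρ / 16) with hc
  have c0 : 0 < c := lt_min (lt_min (by positivity) (by linarith)) (by positivity)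
  have c1 : c ≤ i * mesh (w.k1 + 1) / 2 := (min_le_left _ _).trans (min_le_left _ _)
  have c2 : c ≤ (l' - i * mesh (w.k1 + 1)) / 2 := (min_le_left _ _).trans (min_le_right _ _)
  have c3 : c ≤ ρ / 16 := min_le_right _ _
  obtain ⟨C, R0, hC, hU⟩ := ph_pz hpz (c := c / 2) (by positivity)
  refine ⟨C, ρ / 4, by positivity, ?_⟩
  intro e0 he0 he1
  have e1 : ∀ᶠ n in atTop, A.δ n < c / 4 := A.lim.eventually_lt_const (by positivity)
  filter_upwards [winN_eventually w hDo hA hne hb hl1, exists_rad c0 A, e1,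
    (tendsto_inv A).eventually_ge_atTop R0] with n hW hr hδc hR0
  intro k0 j ω hω hF
  obtain ⟨r, hr1, hr2, hr3⟩ := hr
  have hδ := A.pos n
  have g1 : (r + 2) * A.δ n < i * mesh (w.k1 + 1) := by linarith
  have g2 : i * mesh (w.k1 + 1) + (r + 2) * A.δ n ≤ l' := by linarith
  have g3 : (2 * r + 2) * A.δ n < ρ - A.δ n := by linarith
  have g4 : i * mesh (w.k1 + 1) + 2 * A.δ n ≤ l' := by linarith
  obtain ⟨hpos, hph⟩ := hU _ hR0
  rw [div_le_iff₀ hpos]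
  set X := B.X k0 n j ω with hX
  have hXE : X.E ⊆ (X0 A n).E := B.X_E hω j
  have hodd : ∀ e ∈ X.E, (e.1 + e.2) % 2 = 1 := fun e he =>
    Pool.Agent.H28.Q1.odd_toDEnv _ e (hXE he)
  have hFX := fresh_of_far hω hF
  have h1 : EX X.E (fun η => ind (Large B k0 n e0 X η) * w.h n i ((B.rules k0 n).nenv X η)) =
      Pr X.E (fun η => Large B k0 n e0 X η ∧ w.ev n i (η ∪ X.W)) :=
    ex_step (B.rules k0 n) (fun η η' h h' hag => large_local (B.rules k0 n) h h' hag)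
      (fun S => w.ev n i S)
  have h2 : Pr X.E (fun η => Large B k0 n e0 X η ∧ w.ev n i (η ∪ X.W)) ≤
      Pr X.E (fun η => Large B k0 n e0 X η ∧ AS (Sd w.k (w.x n i)) r η) :=
    Pr_mono fun η hη h => ⟨h.1, ev_arm w hW hi (by omega) g1 g2 g3 hFX hη h.2⟩
  have h3 : Pr X.E (fun η => Large B k0 n e0 X η ∧ AS (Sd w.k (w.x n i)) r η) =
      Pr X.E (Large B k0 n e0 X) * Pr X.E (AS (Sd w.k (w.x n i)) r) := by
    refine Pr_insens (U := HB (Sd w.k (w.x n i)) r) ?_ ?_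
    · intro η η' h h' hag hL
      refine large_insens (B.rules k0 n) hδ hodd (U := HB (Sd w.k (w.x n i)) r) ?_ h h' hag hL
      intro e he _
      obtain ⟨-, ⟨hu1, hu2⟩, -⟩ := FB_dt (HB_sub_FB _ (by omega) he)
      have h4 := dist_t B w hi g2 hu1 hu2
      have h5 := hF (B.T k0 n j ω) le_rfl _ (t_Sbar B w hW hi g4)
      rw [← B.X_α hω j] at h5
      have h6 := dist_triangle (pt (A.δ n) (vx X.α)) (pt (A.δ n) (eu e)) (pt (A.δ n) (w.t n i))
      rw [dist_comm (pt (A.δ n) (eu e)) (pt (A.δ n) (vx X.α))]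
      linarith
    · intro η hη
      rw [← inter_assoc, inter_eq_left.2 hη]
      exact AS_inter _ _ _
  rw [h1]
  refine h2.trans (h3.trans_le ?_)
  have h4 : Pr X.E (AS (Sd w.k (w.x n i)) r) ≤ C * pz (A.δ n)⁻¹ :=
    (Pr_AS_le (by omega) _).trans (hph r hr3)
  have h5 : 0 ≤ Pr X.E (Large B k0 n e0 X) := Pr_nonneg _ _
  calc Pr X.E (Large B k0 n e0 X) * Pr X.E (AS (Sd w.k (w.x n i)) r)
      ≤ Pr X.E (Large B k0 n e0 X) * (C * pz (A.δ n)⁻¹) := mul_le_mul_of_nonneg_left h4 h5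
    _ = C * Pr X.E (Large B k0 n e0 X) * pz (A.δ n)⁻¹ := by ring

end bad

end Pool.Agent.H66.M7
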