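import Pool.Agent.H66.M7.Jump
import Pool.Agent.H37.Levy.Array12

/-!
# From observables to an array: definitions

A random chain of germs `A j` with driving values `W j`; the observables `Mt j i` at the points
`(i + 1) s` are martingales as long as the chain is in `b j`, and they are `ε`-close to
`kap (A j) (W j) ((i + 1) s)` as long as it is in `g j`.
-/

namespace Pool.Agent.H66.M7

open MeasureTheory ProbabilityTheory Set Filter Topology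
open H37.Levy

universe u

section defs

variable {Ω : Type u}

/-- capacity increment (of the half plane capacity `2 t`) -/
noncomputable def a1 (A : ℕ → Ω → ℂ → ℂ) (j : ℕ) (ω : Ω) : ℝ := rc (A j ω) 1 - rc (A (j + 1) ω) 1
/-- first moment -/
noncomputable def a2 (A : ℕ → Ω → ℂ → ℂ) (j : ℕ) (ω : Ω) : ℝ := rc (A (j + 1) ω) 2 - rc (A j ω) 2
/-- second moment -/
noncomputable def a3 (A : ℕ → Ω → ℂ → ℂ) (j : ℕ) (ω : Ω) : ℝ :=
  rc (A j ω) 3 - rc (A (j + 1) ω) 3 - a1 A j ω * rc (A (j + 1) ω) 1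
/-- centred first moment -/
noncomputable def m1 (A : ℕ → Ω → ℂ → ℂ) (W : ℕ → Ω → ℝ) (j : ℕ) (ω : Ω) : ℝ :=
  a2 A j ω - W j ω * a1 A j ω
/-- centred second moment -/
noncomputable def m2 (A : ℕ → Ω → ℂ → ℂ) (W : ℕ → Ω → ℝ) (j : ℕ) (ω : Ω) : ℝ :=
  a3 A j ω - 2 * W j ω * a2 A j ω + W j ω ^ 2 * a1 A j ω

/-- the rescaled driving function -/
noncomputable def dr (W : ℕ → Ω → ℝ) (al : Ω → ℝ) (j : ℕ) (ω : Ω) : ℝ := al ω * (W j ω - W 0 ω)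
/-- the rescaled capacity -/
noncomputable def cp (A : ℕ → Ω → ℂ → ℂ) (al : Ω → ℝ) (j : ℕ) (ω : Ω) : ℝ :=
  al ω ^ 2 * (rc (A 0 ω) 1 - rc (A j ω) 1) / 2

/-- the chain is not stopped at `j` -/
def On (A : ℕ → Ω → ℂ → ℂ) (W : ℕ → Ω → ℝ) (al : Ω → ℝ) (b : ℕ → Set Ω) (T0 M0 : ℝ) (j : ℕ) :
    Set Ω := {ω | ∀ i ≤ j, ω ∈ b i ∧ |dr W al i ω| ≤ M0 ∧ cp A al i ω ≤ T0}

/-- the step from `j` to `j + 1` is made -/
def Stp (A : ℕ → Ω → ℂ → ℂ) (W : ℕ → Ω → ℝ) (al : Ω → ℝ) (g b : ℕ → Set Ω) (T0 M0 : ℝ) (j : ℕ) :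
    Set Ω := On A W al b T0 M0 j ∩ g (j + 1)

/-- the stopped driving function -/
noncomputable def ws (A : ℕ → Ω → ℂ → ℂ) (W : ℕ → Ω → ℝ) (al : Ω → ℝ) (g b : ℕ → Set Ω)
    (T0 M0 : ℝ) (j : ℕ) (ω : Ω) : ℝ :=
  ∑ i ∈ Finset.range j, (Stp A W al g b T0 M0 i).indicator
    (fun ω => al ω * (W (i + 1) ω - W i ω)) ω

/-- the stopped capacity -/
noncomputable def ts (A : ℕ → Ω → ℂ → ℂ) (W : ℕ → Ω → ℝ) (al : Ω → ℝ) (g b : ℕ → Set Ω)
    (T0 M0 : ℝ) (j : ℕ) (ω : Ω) : ℝ :=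
  ∑ i ∈ Finset.range j, (Stp A W al g b T0 M0 i).indicator
    (fun ω => al ω ^ 2 * (rc (A i ω) 1 - rc (A (i + 1) ω) 1) / 2) ω

/-- the stopped second moments -/
noncomputable def qs (A : ℕ → Ω → ℂ → ℂ) (W : ℕ → Ω → ℝ) (al : Ω → ℝ) (g b : ℕ → Set Ω)
    (T0 M0 : ℝ) (j : ℕ) (ω : Ω) : ℝ :=
  (Stp A W al g b T0 M0 j).indicator (fun ω => al ω ^ 4 * m2 A W j ω) ω

end defs

/-- **Hypotheses on the chain.** `g j` : the state `j` is good, `b j` : the chain goes on. -/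
structure Chn {Ω : Type u} {m0 : MeasurableSpace Ω} (P : Measure Ω) (G : Filtration ℕ m0)
    (l a0 M al0 s ε : ℝ) (q : ℕ → ℝ) (J : ℕ) (A : ℕ → Ω → ℂ → ℂ) (W : ℕ → Ω → ℝ)
    (Mt : ℕ → ℕ → Ω → ℝ) (g b : ℕ → Set Ω) (al : Ω → ℝ) : Prop where
  eps0 : 0 ≤ ε
  al_nonneg : ∀ ω, 0 ≤ al ω
  al_le : ∀ ω, al ω ≤ al0
  mal : Measurable[G 0] al
  bg : ∀ j, b j ⊆ g j
  mg : ∀ j, MeasurableSet[G j] (g j)
  mb : ∀ j, MeasurableSet[G j] (b j)
  mW : ∀ j, Measurable[G j] (W j)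
  mr : ∀ j m, Measurable[G j] fun ω => rc (A j ω) m
  mkc : ∀ j m, Measurable[G j] fun ω => kc (A j ω) (W j ω) m
  mkap : ∀ j u, Measurable[G j] fun ω => kap (A j ω) (W j ω) u
  /-- good states have germs -/
  germ : ∀ j ≤ J, ∀ ω ∈ g j, Germ l a0 (A j ω)
  bdW : ∀ j ≤ J, ∀ ω ∈ g j, |W j ω| ≤ M
  iM : ∀ j ≤ J, ∀ i ≤ 4, Integrable (Mt j i) P
  /-- martingale property -/
  mart : ∀ j < J, ∀ i ≤ 4, ∀ Y : Ω → ℝ, Measurable[G j] Y → (∀ ω, |Y ω| ≤ 1) →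
    (∀ ω ∉ b j, Y ω = 0) → ∫ ω, Y ω * Mt (j + 1) i ω ∂P = ∫ ω, Y ω * Mt j i ω ∂P
  /-- value of the observables -/
  obs : ∀ j ≤ J, ∀ i ≤ 4, ∀ ω ∈ g j,
    |Mt j i ω - kap (A j ω) (W j ω) (((i : ℝ) + 1) * s)| ≤ ε
  /-- bad steps -/
  bad : ∀ j < J, ∀ i ≤ 4, ∫ ω in b j \ g (j + 1), |Mt (j + 1) i ω - Mt j i ω| ∂P ≤ q j
  /-- the domains decrease -/
  step : ∀ j < J, ∀ ω ∈ b j ∩ g (j + 1),
    0 ≤ a1 A j ω ∧ 0 ≤ m2 A W j ω ∧ m1 A W j ω ^ 2 ≤ a1 A j ω * m2 A W j ω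

section path

variable {Ω : Type u} {A : ℕ → Ω → ℂ → ℂ} {W : ℕ → Ω → ℝ} {al : Ω → ℝ} {g b : ℕ → Set Ω}
  {T0 M0 : ℝ}

theorem On_anti {i j : ℕ} (hij : i ≤ j) : On A W al b T0 M0 j ⊆ On A W al b T0 M0 i :=
  fun _ h k hk => h k (hk.trans hij)

theorem On_b {j : ℕ} {ω : Ω} (h : ω ∈ On A W al b T0 M0 j) : ω ∈ b j := (h j le_rfl).1

theorem On_succ {j : ℕ} : On A W al b T0 M0 (j + 1)
    = On A W al b T0 M0 j ∩ {ω | ω ∈ b (j + 1) ∧ |dr W al (j + 1) ω| ≤ M0 ∧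
      cp A al (j + 1) ω ≤ T0} := by
  ext ω
  constructor
  · intro h
    exact ⟨On_anti (Nat.le_succ j) h, h (j + 1) le_rfl⟩
  · rintro ⟨h1, h2⟩ i hi
    rcases Nat.le_succ_iff.1 hi with h3 | h3
    · exact h1 i h3
    · rw [h3]; exact h2

theorem On_sub_Stp (hbg : ∀ j, b j ⊆ g j) {i j : ℕ} (hij : i < j) :
    On A W al b T0 M0 j ⊆ Stp A W al g b T0 M0 i :=
  fun _ h => ⟨On_anti hij.le h, hbg _ (On_b (On_anti hij h))⟩

theorem Stp_anti (hbg : ∀ j, b j ⊆ g j) {i j : ℕ} (hij : i ≤ j) :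
    Stp A W al g b T0 M0 j ⊆ Stp A W al g b T0 M0 i := by
  rcases hij.lt_or_eq with h | h
  · exact fun _ h1 => On_sub_Stp hbg h h1.1
  · rw [h]

theorem ws_succ (j : ℕ) (ω : Ω) : ws A W al g b T0 M0 (j + 1) ω - ws A W al g b T0 M0 j ω
    = (Stp A W al g b T0 M0 j).indicator (fun ω => al ω * (W (j + 1) ω - W j ω)) ω := by
  unfold ws
  rw [Finset.sum_range_succ]
  ring

theorem ts_succ (j : ℕ) (ω : Ω) : ts A W al g b T0 M0 (j + 1) ω - ts A W al g b T0 M0 j ω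
    = (Stp A W al g b T0 M0 j).indicator
      (fun ω => al ω ^ 2 * (rc (A j ω) 1 - rc (A (j + 1) ω) 1) / 2) ω := by
  unfold ts
  rw [Finset.sum_range_succ]
  ring

/-- Values as long as all steps have been made. -/
theorem ws_eq {j : ℕ} {ω : Ω} (h : ∀ i < j, ω ∈ Stp A W al g b T0 M0 i) :
    ws A W al g b T0 M0 j ω = dr W al j ω ∧ ts A W al g b T0 M0 j ω = cp A al j ω := by
  induction j with
  | zero =>
    unfold ws ts dr cp
    simp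
  | succ j ih =>
    obtain ⟨h1, h2⟩ := ih fun i hi => h i (by omega)
    have h3 := ws_succ (A := A) (W := W) (al := al) (g := g) (b := b) (T0 := T0) (M0 := M0) j ω
    have h4 := ts_succ (A := A) (W := W) (al := al) (g := g) (b := b) (T0 := T0) (M0 := M0) j ω
    rw [Set.indicator_of_mem (h j (Nat.lt_succ_self j))] at h3 h4
    unfold dr cp at *
    constructor <;> linarith

theorem ws_of_On (hbg : ∀ j, b j ⊆ g j) {j : ℕ} {ω : Ω} (h : ω ∈ On A W al b T0 M0 j) :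
    ws A W al g b T0 M0 j ω = dr W al j ω ∧ ts A W al g b T0 M0 j ω = cp A al j ω :=
  ws_eq fun _ hi => On_sub_Stp hbg hi h

theorem ws_of_Stp (hbg : ∀ j, b j ⊆ g j) {j : ℕ} {ω : Ω} (h : ω ∈ Stp A W al g b T0 M0 j) :
    ws A W al g b T0 M0 (j + 1) ω = dr W al (j + 1) ω ∧
      ts A W al g b T0 M0 (j + 1) ω = cp A al (j + 1) ω :=
  ws_eq fun _ hi => Stp_anti hbg (Nat.lt_succ_iff.1 hi) h

/-- After the first step which is not made the sequences are constant. -/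
theorem ws_frozen (hbg : ∀ j, b j ⊆ g j) {j : ℕ} {ω : Ω} (h : ω ∉ Stp A W al g b T0 M0 j)
    {k : ℕ} (hk : j ≤ k) : ws A W al g b T0 M0 k ω = ws A W al g b T0 M0 j ω ∧
      ts A W al g b T0 M0 k ω = ts A W al g b T0 M0 j ω := by
  induction k, hk using Nat.le_induction with
  | base => exact ⟨rfl, rfl⟩
  | succ k hk ih =>
    have h3 := ws_succ (A := A) (W := W) (al := al) (g := g) (b := b) (T0 := T0) (M0 := M0) k ω
    have h4 := ts_succ (A := A) (W := W) (al := al) (g := g) (b := b) (T0 := T0) (M0 := M0) k ω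
    have h5 : ω ∉ Stp A W al g b T0 M0 k := fun h6 => h (Stp_anti hbg hk h6)
    rw [Set.indicator_of_notMem h5] at h3 h4
    obtain ⟨h6, h7⟩ := ih
    constructor <;> linarith

/-- The stopped sequence is stopped before `T0` and `M0`: the chain runs until `J`, or it was not
continued, or the new state was not good. -/
theorem BAD_cases (hbg : ∀ j, b j ⊆ g j) {J : ℕ} {ω : Ω}
    (h : ω ∈ BAD (ws A W al g b T0 M0) (ts A W al g b T0 M0) T0 M0 J) :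
    (∀ j < J, ω ∈ Stp A W al g b T0 M0 j) ∨
      ∃ j < J, (∀ i < j, ω ∈ Stp A W al g b T0 M0 i) ∧ (ω ∉ b j ∨ ω ∈ b j \ g (j + 1)) := by
  by_cases hall : ∀ j < J, ω ∈ Stp A W al g b T0 M0 j
  · exact Or.inl hall
  right
  push Not at hall
  classical
  obtain ⟨hj, hj'⟩ := Nat.find_spec hall
  set j := Nat.find hall with hjdef
  have hbefore : ∀ i < j, ω ∈ Stp A W al g b T0 M0 i := by
    intro i hi
    by_contra h1
    exact Nat.find_min hall hi ⟨hi.trans hj, h1⟩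
  refine ⟨j, hj, hbefore, ?_⟩
  by_contra h1
  push Not at h1
  obtain ⟨h2, h3⟩ := h1
  have h3' : ω ∈ g (j + 1) := by
    by_contra h6
    exact h3 ⟨h2, h6⟩
  obtain ⟨e1, e2⟩ := ws_eq hbefore
  obtain ⟨f1, f2⟩ := ws_frozen hbg hj' hj.le
  obtain ⟨h4, h5⟩ := h
  rw [f1, e1] at h5
  rw [f2, e2] at h4
  apply hj'
  refine ⟨?_, h3'⟩
  intro i hi
  rcases hi.lt_or_eq with h6 | h6
  · exact (hbefore i h6).1 i le_rfl
  · rw [h6]; exact ⟨h2, h5.le, h4.le⟩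

end path

end Pool.Agent.H66.M7
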