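import Pool.Agent.H66.M7.ArrayR

/-!
# From observables to an array
-/

namespace Pool.Agent.H66.M7

open MeasureTheory ProbabilityTheory Set Filter Topology
open H37.Levy

universe u

/-- monotonicity in the constants -/
theorem raw_mono {Ω : Type u} {m0 : MeasurableSpace Ω} {P : Measure Ω} {w t : ℕ → Ω → ℝ}
    {G : Filtration ℕ m0} {c T0 M0 C C' : ℝ} {a b a' b' : ℕ → ℝ} {J : ℕ}
    (h : Raw w t G P c T0 M0 C a b J) (hC : C ≤ C') (ha : ∀ j < J, a j ≤ a' j)
    (hb : ∀ j < J, b j ≤ b' j) : Raw w t G P c T0 M0 C' a' b' J where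
  c0 := h.c0
  T00 := h.T00
  M00 := h.M00
  C0 := h.C0.trans hC
  mw := h.mw
  mt := h.mt
  w0 := h.w0
  t0 := h.t0
  act := h.act
  dw j hj ω := (h.dw j hj ω).trans hC
  dt0 := h.dt0
  dt j hj ω := (h.dt j hj ω).trans hC
  e1 j hj Y hY hY1 := (h.e1 j hj Y hY hY1).trans (ha j hj)
  e2 j hj Y hY hY1 := (h.e2 j hj Y hY hY1).trans (hb j hj)

/-- scaled fourth order quantity -/
noncomputable def zs {Ω : Type u} (A : ℕ → Ω → ℂ → ℂ) (W : ℕ → Ω → ℝ) (al : Ω → ℝ)
    (g b : ℕ → Set Ω) (T0 M0 : ℝ) (j : ℕ) (ω : Ω) : ℝ :=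
  al ω ^ 4 * (Stp A W al g b T0 M0 j).indicator
    (fun ω => c4 (W j ω) (W (j + 1) ω - W j ω) (a1 A j ω) (a2 A j ω) (a3 A j ω)) ω

/-- **The driving function is nearly Brownian.** -/
theorem array {l a0 M al0 : ℝ} (hl : 0 < l) (ha : 0 ≤ a0) (hM : 0 ≤ M) (hal : 0 < al0) :
    ∃ K : ℝ, 0 < K ∧ ∀ η : ℝ, 0 < η → ∃ Cn : ℝ, 0 ≤ Cn ∧ ∃ s0 : ℝ, 0 < s0 ∧ s0 ≤ 1 ∧
      5 * s0 ≤ l / 4 ∧
      ∀ s : ℝ, 0 < s → s ≤ s0 → ∀ (Ω : Type u) (m0 : MeasurableSpace Ω) (P : Measure Ω)
        (_ : IsProbabilityMeasure P) (G : Filtration ℕ m0) (ε T0 M0 : ℝ) (q : ℕ → ℝ) (J : ℕ)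
        (A : ℕ → Ω → ℂ → ℂ) (W : ℕ → Ω → ℝ) (Mt : ℕ → ℕ → Ω → ℝ) (g b : ℕ → Set Ω)
        (al : Ω → ℝ), Chn P G l a0 M al0 s ε q J A W Mt g b al → 0 ≤ T0 → 0 ≤ M0 →
        Raw (ws A W al g b T0 M0) (ts A W al g b T0 M0) G P 6 T0 M0 K
          (fun j => K * dl Cn s ε η q j) (fun j => K * dl Cn s ε η q j) J ∧
        ∀ δ : ℝ, 0 ≤ δ → δ ≤ 1 / 2 →
          ∫ ω in (LARGE (ws A W al g b T0 M0) (ts A W al g b T0 M0) δ J)ᶜ,
              ∑ j ∈ Finset.range J, qs A W al g b T0 M0 j ω ∂P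
            ≤ 56 * δ * (T0 + 1) + K * (∑ j ∈ Finset.range J, dl Cn s ε η q j
              + P.real (LARGE (ws A W al g b T0 M0) (ts A W al g b T0 M0) δ J)) := by
  set B : ℝ := 2 * M + 2 * (a0 / l) + 2 * (a0 / l ^ 2)
    + (2 * (a0 / l ^ 3) + 2 * (a0 / l) * (a0 / l)) with hB
  obtain ⟨Dc, hDc, HDc⟩ := exists_c4_bound B
  set K1 : ℝ := al0 + al0 ^ 2 + al0 ^ 4 + 2 * M * al0 + al0 ^ 2 * (a0 / l) + al0 ^ 4 * Dc
    with hK1
  have n1 : 0 ≤ 2 * M * al0 := by positivity
  have n2 : 0 ≤ al0 ^ 2 * (a0 / l) := by positivity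
  have n3 : 0 ≤ al0 ^ 4 * Dc := by positivity
  have n4 : 0 < al0 ^ 2 := by positivity
  have n5 : 0 < al0 ^ 4 := by positivity
  have hK1p : 0 < K1 := by rw [hK1]; linarith
  refine ⟨30 * K1 + 4 * K1 ^ 2, by positivity, ?_⟩
  intro η hη
  obtain ⟨Cn, hCn, s0, hs0, hs01, hs0l, H⟩ := chn_step.{u} hl ha hM hη
  refine ⟨Cn, hCn, s0, hs0, hs01, hs0l, ?_⟩
  intro s hs hss Ω m0 P hP G ε T0 M0 q J A W Mt g b al h hT0 hM0
  have hal0 := h.al_nonneg
  have hal1 := h.al_le
  have hstep := H s hs hss Ω m0 P hP G al0 ε T0 M0 q J A W Mt g b al h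
  have hD0 : ∀ j < J, 0 ≤ dl Cn s ε η q j := fun j hj =>
    (abs_nonneg _).trans (hstep j hj (fun _ => 0) (measurable_const (a := (0 : ℝ)))
      (fun _ => by simp)).1
  set S : ℕ → Set Ω := fun j => Stp A W al g b T0 M0 j with hS
  set w := ws A W al g b T0 M0 with hw
  set t := ts A W al g b T0 M0 with ht
  have wst : ∀ j ω, w (j + 1) ω - w j ω
      = al ω ^ 1 * (S j).indicator (fun ω => W (j + 1) ω - W j ω) ω := by
    intro j ω
    rw [hw, ws_succ]
    by_cases hω : ω ∈ S j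
    · rw [Set.indicator_of_mem hω, Set.indicator_of_mem hω, pow_one]
    · rw [Set.indicator_of_notMem hω, Set.indicator_of_notMem hω, mul_zero]
  have tst : ∀ j ω, t (j + 1) ω - t j ω = al ω ^ 2 * (S j).indicator (a1 A j) ω / 2 := by
    intro j ω
    rw [ht, ts_succ]
    by_cases hω : ω ∈ S j
    · rw [Set.indicator_of_mem hω, Set.indicator_of_mem hω]; rfl
    · rw [Set.indicator_of_notMem hω, Set.indicator_of_notMem hω, mul_zero, zero_div]
  have hraw : Raw w t G P 6 T0 M0 K1 (fun j => K1 * dl Cn s ε η q j)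
      (fun j => K1 * dl Cn s ε η q j) J := by
    refine ⟨by norm_num, hT0, hM0, hK1p.le, fun j => (h.meas_ws T0 M0 j).stronglyMeasurable,
      fun j => (h.meas_ts T0 M0 j).stronglyMeasurable, ?_, ?_, ?_, ?_, ?_, ?_, ?_, ?_⟩
    · intro ω; rw [hw]; unfold ws; simp
    · intro ω; rw [ht]; unfold ts; simp
    · intro j hj ω hor
      by_cases hω : ω ∈ S j
      · have h1 := ws_of_On h.bg hω.1
        have h2 := hω.1 j le_rfl
        rw [hw, ht, h1.1, h1.2]
        exact ⟨h2.2.1, h2.2.2⟩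
      · exfalso
        have h1 := wst j ω
        have h2 := tst j ω
        rw [Set.indicator_of_notMem hω, mul_zero] at h1
        rw [Set.indicator_of_notMem hω, mul_zero, zero_div] at h2
        rcases hor with h3 | h3
        · exact h3 (by linarith)
        · exact h3 (by linarith)
    · intro j hj ω
      rw [wst, pow_one]
      by_cases hω : ω ∈ S j
      · rw [Set.indicator_of_mem hω, abs_mul, abs_of_nonneg (hal0 ω)]
        calc al ω * |W (j + 1) ω - W j ω| ≤ al0 * (2 * M) :=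
              mul_le_mul (hal1 ω) (h.dW_bd hj hω) (abs_nonneg _) hal.le
          _ ≤ K1 := by rw [hK1]; linarith
      · rw [Set.indicator_of_notMem hω, mul_zero, abs_zero]; exact hK1p.le
    · intro j hj ω
      rw [tst]
      by_cases hω : ω ∈ S j
      · rw [Set.indicator_of_mem hω]
        have := (h.step j hj ω ⟨On_b hω.1, hω.2⟩).1
        positivity
      · rw [Set.indicator_of_notMem hω, mul_zero, zero_div]
    · intro j hj ω
      rw [tst]
      by_cases hω : ω ∈ S j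
      · rw [Set.indicator_of_mem hω]
        have h1 := (h.step j hj ω ⟨On_b hω.1, hω.2⟩).1
        have h2 := (abs_le.1 (h.a1_bd hl hj hω)).2
        have h3 : al ω ^ 2 ≤ al0 ^ 2 := pow_le_pow_left₀ (hal0 ω) (hal1 ω) 2
        have h4 : al ω ^ 2 * a1 A j ω ≤ al0 ^ 2 * (2 * (a0 / l)) :=
          mul_le_mul h3 h2 h1 n4.le
        rw [hK1]
        linarith
      · rw [Set.indicator_of_notMem hω, mul_zero, zero_div]; exact hK1p.le
    · intro j hj Y hY hY1
      have h1 := test_al hal hal0 hal1 (h.mal' j) (fun Y hY hY1 => (hstep j hj Y hY hY1).1) 1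
        hY.measurable hY1
      simp only [wst]
      refine h1.trans (mul_le_mul_of_nonneg_right ?_ (hD0 j hj))
      rw [hK1, pow_one]; linarith
    · intro j hj Y hY hY1
      have h1 := test_al hal hal0 hal1 (h.mal' j) (fun Y hY hY1 => (hstep j hj Y hY hY1).2.1) 2
        hY.measurable hY1
      have h2 : ∀ ω, (w (j + 1) ω - w j ω) ^ 2 - 6 * (t (j + 1) ω - t j ω)
          = al ω ^ 2 * (S j).indicator (fun ω => (W (j + 1) ω - W j ω) ^ 2 - 3 * a1 A j ω) ω := by
        intro ω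
        rw [wst, tst]
        by_cases hω : ω ∈ S j
        · rw [Set.indicator_of_mem hω, Set.indicator_of_mem hω, Set.indicator_of_mem hω]; ring
        · rw [Set.indicator_of_notMem hω, Set.indicator_of_notMem hω,
            Set.indicator_of_notMem hω]; ring
      simp only [h2]
      refine h1.trans (mul_le_mul_of_nonneg_right ?_ (hD0 j hj))
      rw [hK1]; linarith
  have hKK : K1 ≤ 30 * K1 + 4 * K1 ^ 2 := by nlinarith
  refine ⟨raw_mono hraw hKK (fun j hj => mul_le_mul_of_nonneg_right hKK (hD0 j hj))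
    (fun j hj => mul_le_mul_of_nonneg_right hKK (hD0 j hj)), ?_⟩
  intro δ hδ0 hδ1
  have harr := hraw.trunc hδ0 (by linarith : δ ≤ 1)
  set L := LARGE w t δ J with hL
  -- the fourth order quantity
  set z : ℕ → Ω → ℝ := fun j => zs A W al g b T0 M0 j with hz
  have hzm : ∀ j, StronglyMeasurable (z j) := fun j => by
    have h1 : Measurable[G (j + 1)] fun ω =>
        c4 (W j ω) (W (j + 1) ω - W j ω) (a1 A j ω) (a2 A j ω) (a3 A j ω) := by
      have e1 := h.meas_W0 j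
      have e2 := h.meas_dW j
      have e3 := h.meas_a1 j
      have e4 := h.meas_a2 j
      have e5 := h.meas_a3 j
      unfold c4
      exact (((((e2.pow_const 4).const_mul _).sub (((e2.pow_const 2).const_mul _).mul e3)).sub
        ((e2.const_mul _).mul (e4.sub (e1.mul e3)))).add ((e3.pow_const 2).const_mul _)).sub
        (((e5.sub ((e1.const_mul 2).mul e4)).add ((e1.pow_const 2).mul e3)).const_mul _)
    exact ((((h.mal' (j + 1)).pow_const 4).mul (h1.indicator (h.meas_Stp T0 M0 j))).mono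
      (G.le _) le_rfl).stronglyMeasurable
  have hzb : ∀ j < J, ∀ ω, |z j ω| ≤ K1 := by
    intro j hj ω
    simp only [hz, zs]
    by_cases hω : ω ∈ S j
    · rw [Set.indicator_of_mem hω, abs_mul, abs_of_nonneg (pow_nonneg (hal0 ω) 4)]
      have m1 : 0 ≤ a0 / l := by positivity
      have m2 : 0 ≤ a0 / l ^ 2 := by positivity
      have m3 : 0 ≤ a0 / l ^ 3 := by positivity
      have m4 : 0 ≤ 2 * (a0 / l) * (a0 / l) := by positivity
      have h1 := HDc (W j ω) (W (j + 1) ω - W j ω) (a1 A j ω) (a2 A j ω) (a3 A j ω)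
        ((h.bdW j hj.le ω (h.Stp_g hω).1).trans (by rw [hB]; linarith))
        ((h.dW_bd hj hω).trans (by rw [hB]; linarith))
        ((h.a1_bd hl hj hω).trans (by rw [hB]; linarith))
        ((h.a2_bd hl hj hω).trans (by rw [hB]; linarith))
        ((h.a3_bd hl ha hj hω).trans (by rw [hB]; linarith))
      calc al ω ^ 4 * _ ≤ al0 ^ 4 * Dc :=
            mul_le_mul (pow_le_pow_left₀ (hal0 ω) (hal1 ω) 4) h1 (abs_nonneg _) n5.le
        _ ≤ K1 := by rw [hK1]; linarith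
    · rw [Set.indicator_of_notMem hω, mul_zero, abs_zero]; exact hK1p.le
  have hzt : ∀ j < J, ∀ Y : Ω → ℝ, StronglyMeasurable[G j] Y → (∀ ω, |Y ω| ≤ 1) →
      |∫ ω, Y ω * z j ω ∂P| ≤ K1 * dl Cn s ε η q j := by
    intro j hj Y hY hY1
    have h1 := test_al hal hal0 hal1 (h.mal' j) (fun Y hY hY1 => (hstep j hj Y hY hY1).2.2) 4
      hY.measurable hY1
    refine h1.trans (mul_le_mul_of_nonneg_right ?_ (hD0 j hj))
    rw [hK1]; linarith
  -- the truncated quantities
  set Z : ℕ → Ω → ℝ := fun j => (Sm w t δ (j + 1)).indicator (z j) with hZ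
  set Q : ℕ → Ω → ℝ := fun j => (Sm w t δ (j + 1)).indicator (qs A W al g b T0 M0 j) with hQ
  have hSm : ∀ j, MeasurableSet (Sm w t δ (j + 1)) := fun j => G.le _ _ (hraw.meas_Sm δ (j + 1))
  have hzi : ∀ j < J, Integrable (Z j) P := fun j hj =>
    (Integrable.of_bound (hzm j).aestronglyMeasurable K1 (Eventually.of_forall
      (hzb j hj))).indicator (hSm j)
  have hqi0 : ∀ j < J, Integrable (qs A W al g b T0 M0 j) P := by
    intro j hj
    refine Integrable.of_bound ((h.meas_qs T0 M0 j).mono (G.le _) le_rfl).aestronglyMeasurable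
      (al0 ^ 4 * (2 * (a0 / l ^ 3) + 2 * (a0 / l) * (a0 / l) + 2 * M * (2 * (a0 / l ^ 2))
      + M ^ 2 * (2 * (a0 / l)))) (Eventually.of_forall fun ω => ?_)
    rw [Real.norm_eq_abs]
    unfold qs
    by_cases hω : ω ∈ S j
    · rw [Set.indicator_of_mem hω, abs_mul, abs_of_nonneg (pow_nonneg (hal0 ω) 4)]
      exact mul_le_mul (pow_le_pow_left₀ (hal0 ω) (hal1 ω) 4) (h.m2_bd hl ha hM hj hω)
        (abs_nonneg _) n5.le
    · rw [Set.indicator_of_notMem hω, abs_zero]; positivity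
  have hqi : ∀ j < J, Integrable (Q j) P := fun j hj => (hqi0 j hj).indicator (hSm j)
  have hqn : ∀ j < J, ∀ ω, 0 ≤ qs A W al g b T0 M0 j ω := fun j hj ω => h.qs_nonneg hj ω
  have hQn : ∀ j < J, ∀ ω, 0 ≤ Q j ω := fun j hj ω =>
    Set.indicator_nonneg (fun ω _ => hqn j hj ω) ω
  have hmom : ∀ j < J, ∀ ω, Q j ω ≤ 8 * δ * ((trn w t δ w (j + 1) ω - trn w t δ w j ω) ^ 2
      + (trn w t δ t (j + 1) ω - trn w t δ t j ω)) - Z j ω := by
    intro j hj ω
    rw [trn_step, trn_step]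
    by_cases hsm : ω ∈ Sm w t δ (j + 1)
    · simp only [hQ, hZ, Set.indicator_of_mem hsm]
      have hnl := hsm j (Nat.lt_succ_self j)
      have d1 : |w (j + 1) ω - w j ω| ≤ δ := by
        by_contra h3; exact hnl (Or.inl (not_le.1 h3))
      have d2 : t (j + 1) ω - t j ω ≤ δ := by
        by_contra h3; exact hnl (Or.inr (not_le.1 h3))
      rw [wst] at d1 ⊢
      rw [tst] at d2 ⊢
      simp only [hz, zs, qs]
      by_cases hω : ω ∈ S j
      · rw [Set.indicator_of_mem hω] at d1 d2 ⊢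
        rw [Set.indicator_of_mem hω, Set.indicator_of_mem hω, Set.indicator_of_mem hω]
        obtain ⟨p1, p2, p3⟩ := h.step j hj ω ⟨On_b hω.1, hω.2⟩
        have hx := hal0 ω
        have key := moment_le (dW := al ω ^ 1 * (W (j + 1) ω - W j ω)) (a1 := al ω ^ 2 * a1 A j ω)
          (m1 := al ω ^ 3 * m1 A W j ω) (m2 := al ω ^ 4 * m2 A W j ω)
          (c4 := al ω ^ 4 * c4 (W j ω) (W (j + 1) ω - W j ω) (a1 A j ω) (a2 A j ω) (a3 A j ω))
          (ω := 2 * δ) (by positivity) (by linarith) (d1.trans (by linarith)) (by positivity)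
          (by linarith) (by positivity)
          (by
            have h6 : 0 ≤ al ω ^ 6 := by positivity
            calc (al ω ^ 3 * m1 A W j ω) ^ 2 = al ω ^ 6 * m1 A W j ω ^ 2 := by ring
              _ ≤ al ω ^ 6 * (a1 A j ω * m2 A W j ω) := mul_le_mul_of_nonneg_left p3 h6
              _ = _ := by ring)
          (by unfold c4 m1 m2; ring)
        have h8 : 0 ≤ δ * (al ω ^ 1 * (W (j + 1) ω - W j ω)) ^ 2 := by positivity
        linarith
      · rw [Set.indicator_of_notMem hω, Set.indicator_of_notMem hω, Set.indicator_of_notMem hω,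
          Set.indicator_of_notMem hω]
        simp
    · simp only [hQ, hZ, Set.indicator_of_notMem hsm]
      simp
  have hZt : ∀ j < J, |∫ ω, Z j ω ∂P| ≤ K1 * dl Cn s ε η q j + K1 * P.real (Fi w t δ j) := by
    intro j hj
    have h1 := hraw.test_trn (δ := δ) (hzm j) (hzb j hj) (hzt j hj) (Y := fun _ => 1)
      stronglyMeasurable_const (fun _ => by simp)
    simpa using h1
  have hmain := harr.moments (κ := 8 * δ) (by positivity) hqi hzi hmom hZt
  rw [hraw.eps_trunc δ, Finset.sum_add_distrib, ← Finset.mul_sum, ← Finset.mul_sum,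
    hraw.sum_Fi] at hmain
  -- comparison
  have hLm : MeasurableSet L := by
    have h1 : L = ⋃ j ∈ Finset.range J, Lg w t δ j := by
      ext ω
      simp only [hL, LARGE, Set.mem_ofPred_eq, Set.mem_iUnion, Finset.mem_range, exists_prop]
    rw [h1]
    exact Finset.measurableSet_biUnion _ fun j _ => G.le _ _ (hraw.meas_Lg δ j)
  have hcmp : ∫ ω in Lᶜ, ∑ j ∈ Finset.range J, qs A W al g b T0 M0 j ω ∂P
      ≤ ∑ j ∈ Finset.range J, ∫ ω, Q j ω ∂P := by
    rw [← integral_finsetSum _ (fun j hj => hqi j (Finset.mem_range.1 hj)),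
      ← integral_indicator hLm.compl]
    refine integral_mono ?_ ?_ fun ω => ?_
    · exact (integrable_finsetSum _ fun j hj => hqi0 j (Finset.mem_range.1 hj)).indicator
        hLm.compl
    · exact integrable_finsetSum _ fun j hj => hqi j (Finset.mem_range.1 hj)
    · by_cases hω : ω ∈ Lᶜ
      · rw [Set.indicator_of_mem hω]
        refine le_of_eq (Finset.sum_congr rfl fun j hj => ?_)
        have h1 : ω ∈ Sm w t δ (j + 1) := fun i hi h2 =>
          hω ⟨i, lt_of_lt_of_le hi (Finset.mem_range.1 hj), h2⟩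
        simp only [hQ, Set.indicator_of_mem h1]
      · rw [Set.indicator_of_notMem hω]
        exact Finset.sum_nonneg fun j hj => hQn j (Finset.mem_range.1 hj) ω
  have hpL : 0 ≤ P.real L := measureReal_nonneg
  set Sd := ∑ j ∈ Finset.range J, dl Cn s ε η q j with hSd
  have hSd0 : 0 ≤ Sd := Finset.sum_nonneg fun j hj => hD0 j (Finset.mem_range.1 hj)
  have heps : eps (fun j => K1 * dl Cn s ε η q j) (fun j => K1 * dl Cn s ε η q j) J
      = 2 * K1 * Sd := by
    unfold eps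
    rw [Finset.sum_add_distrib, ← Finset.mul_sum]
    ring
  rw [heps] at hmain
  refine hcmp.trans (hmain.trans ?_)
  have e8 : 8 * δ ≤ 4 := by linarith
  have hE : 0 ≤ 2 * K1 * Sd + (K1 + K1 ^ 2 + 6 * K1) * P.real L := by positivity
  have h9 : 8 * δ * (2 * K1 * Sd + (K1 + K1 ^ 2 + 6 * K1) * P.real L)
      ≤ 4 * (2 * K1 * Sd + (K1 + K1 ^ 2 + 6 * K1) * P.real L) :=
    mul_le_mul_of_nonneg_right e8 hE
  have h10 : 0 ≤ K1 * Sd := by positivity
  have h11 : 0 ≤ K1 ^ 2 * Sd := by positivity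
  have h12 : 0 ≤ K1 * P.real L := by positivity
  nlinarith

/-- Steps which change the densities at five points little are small. -/
theorem small_step {l a0 M al0 δ : ℝ} (hl : 0 < l) (ha : 0 ≤ a0) (hM : 0 ≤ M) (hal : 0 < al0)
    (hδ : 0 < δ) : ∃ s1 : ℝ, 0 < s1 ∧ s1 ≤ 1 ∧ 5 * s1 ≤ l / 4 ∧ ∀ s' : ℝ, 0 < s' → s' ≤ s1 →
      ∃ ε1 : ℝ, 0 < ε1 ∧ ∀ (Ω : Type u) (m0 : MeasurableSpace Ω) (P : Measure Ω)
        (G : Filtration ℕ m0) (s ε T0 M0 : ℝ) (q : ℕ → ℝ) (J : ℕ)
        (A : ℕ → Ω → ℂ → ℂ) (W : ℕ → Ω → ℝ) (Mt : ℕ → ℕ → Ω → ℝ) (g b : ℕ → Set Ω)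
        (al : Ω → ℝ), Chn P G l a0 M al0 s ε q J A W Mt g b al →
        ∀ j < J, ∀ ω, (ω ∈ Stp A W al g b T0 M0 j → ∀ i : ℕ, i ≤ 4 →
          |kap (A (j + 1) ω) (W (j + 1) ω) (((i : ℝ) + 1) * s')
            - kap (A j ω) (W j ω) (((i : ℝ) + 1) * s')| ≤ ε1) →
          ω ∉ Lg (ws A W al g b T0 M0) (ts A W al g b T0 M0) δ j := by
  set K : ℝ := al0 + al0 ^ 2 with hK
  have hK0 : 0 < K := by positivity
  obtain ⟨Cn, hCn, s1, hs1, hs11, hs1l, H⟩ := small_jump hl ha hM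
    (by positivity : 0 < δ / (2 * K))
  refine ⟨s1, hs1, hs11, hs1l, ?_⟩
  intro s' hs' hss'
  refine ⟨δ / (2 * K) * s' ^ 4 / (Cn + 1), by positivity, ?_⟩
  intro Ω m0 P G s ε T0 M0 q J A W Mt g b al h j hj ω hω hLg
  have hal0 := h.al_nonneg ω
  have hal1 := h.al_le ω
  have h1 := ws_succ (A := A) (W := W) (al := al) (g := g) (b := b) (T0 := T0) (M0 := M0) j ω
  have h2 := ts_succ (A := A) (W := W) (al := al) (g := g) (b := b) (T0 := T0) (M0 := M0) j ω
  by_cases hS : ω ∈ Stp A W al g b T0 M0 j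
  · rw [Set.indicator_of_mem hS] at h1 h2
    obtain ⟨g1, g2⟩ := h.Stp_g hS
    obtain ⟨h3, h4⟩ := H s' hs' hss' (A j ω) (A (j + 1) ω) (W j ω) (W (j + 1) ω) (a1 A j ω)
      (δ / (2 * K) * s' ^ 4 / (Cn + 1)) (h.germ j hj.le ω g1) (h.germ (j + 1) hj ω g2)
      (h.bdW j hj.le ω g1) (h.bdW (j + 1) hj ω g2) (by unfold a1; ring) (hω hS)
    have h5 : Cn / s' ^ 4 * (δ / (2 * K) * s' ^ 4 / (Cn + 1)) + δ / (2 * K) ≤ δ / K := by
      have h6 : Cn / s' ^ 4 * (δ / (2 * K) * s' ^ 4 / (Cn + 1))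
          = δ / (2 * K) * (Cn / (Cn + 1)) := by
        have : Cn + 1 ≠ 0 := by positivity
        field_simp
      have h7 : Cn / (Cn + 1) ≤ 1 := by
        rw [div_le_one (by positivity)]; linarith
      have h8 : 0 ≤ δ / (2 * K) := by positivity
      have h9 : δ / K = δ / (2 * K) + δ / (2 * K) := by field_simp; ring
      rw [h6, h9]
      nlinarith
    have h3' := h3.trans h5
    have h4' := h4.trans h5
    have hdK : 0 ≤ δ / K := by positivity
    have hKd : K * (δ / K) = δ := by field_simp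
    rcases hLg with h6 | h6
    · rw [h1, abs_mul, abs_of_nonneg hal0] at h6
      have h7 : al ω * |W (j + 1) ω - W j ω| ≤ K * (δ / K) :=
        mul_le_mul (hal1.trans (by rw [hK]; nlinarith)) h3' (abs_nonneg _) hK0.le
      linarith
    · rw [h2] at h6
      have h8 : 0 ≤ al0 ^ 2 * (δ / K) := by positivity
      have h7 : al ω ^ 2 * a1 A j ω ≤ al0 ^ 2 * (δ / K) := by
        have h9 : al ω ^ 2 ≤ al0 ^ 2 := pow_le_pow_left₀ hal0 hal1 2
        have h10 := (h.step j hj ω ⟨On_b hS.1, hS.2⟩).1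
        exact mul_le_mul h9 h4' h10 (by positivity)
      have h9 : al0 ^ 2 * (δ / K) ≤ K * (δ / K) :=
        mul_le_mul_of_nonneg_right (by rw [hK]; linarith) hdK
      unfold a1 at h7
      linarith
  · rw [Set.indicator_of_notMem hS] at h1 h2
    rcases hLg with h6 | h6
    · rw [h1, abs_zero] at h6; linarith
    · rw [h2] at h6; linarith

end Pool.Agent.H66.M7
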