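import Mathlib
import Pool.Agent.H28.Q1.Refine
import Pool.Agent.H11.M7.Gap
import Pool.Agent.H82.Q1.M7.Iface

set_option autoImplicit false
open Finset Filter Topology

/-!
# Module M7: the steps are small for a fixed base

* `ref_med` : the vertices of the medium cells of the visible cells of level `kS` belong to the
  target of every fine level.
* `gain_stop` : a gain stops the step.
* `steps_small` : the steps are small.
-/

namespace Pool.Agent.H66.M7

open Pool.Agent.H75.Perc Pool.Agent.H75.TwoArm Pool.Agent.H75.Four Pool.Agent.H69.Q1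
open Pool.Agent.H81.Q1 (pt DDomain Approx IsJordanDomain IsArcs)
open Pool.Agent.Q1.M3
open Pool.Agent.H28.Q1
open Pool.Agent.H82.Q1.M7 (Gain medc FreshS Sbar)
open Pool.Agent.H11.M7 (cmed cmed_compact cmed_sub_fat NoGain StGain')

section

variable {D : Set ℂ} {a b : ℂ} {A₁ A₂ : Set ℂ} {A : Approx D a b A₁ A₂} {r0 : ℝ}

lemma medc_sub_cmed (o : ℂ) (q : Cell) : medc o q ⊆ cmed o q := by
  rintro z ⟨h1, h2, h3, h4⟩
  exact ⟨h1.le, h2.le, h3.le, h4.le⟩

/-- The vertices of the medium cells belong to the targets of the fine levels. -/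
theorem ref_med (hDb : Bornology.IsBounded D) (B : Base A r0) (kS : ℕ) :
    ∃ k00, ∀ k0, k00 ≤ k0 → ∀ δ : ℝ, 0 < δ → ∀ (E : Finset (ℤ × ℤ)) (q : Cell),
      q ∈ Uk D δ B.o B.qb kS E → ∀ v, pt δ v ∈ medc B.o q → v ∈ Vn δ B.o (Uk D δ B.o B.qb k0 E) := by
  classical
  have key : ∀ C : Finset Cell, ∃ k00, Fam B kS C → ∀ k0, k00 ≤ k0 → ∀ (δ : ℝ), 0 < δ →
      ∀ E : Finset (ℤ × ℤ), star (Vn δ B.o C) ⊆ E → ∀ v, pt δ v ∈ ⋃ q ∈ C, cmed B.o q →
        v ∈ Vn δ B.o (Uk D δ B.o B.qb k0 E) := by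
    intro C
    by_cases hC : Fam B kS C
    · obtain ⟨k00, h⟩ := stRef hDb A r0 B kS C hC (⋃ q ∈ C, cmed B.o q)
        (C.isCompact_biUnion fun q _ => cmed_compact _ _)
        (Set.iUnion₂_mono fun q _ => cmed_sub_fat _ _)
      exact ⟨k00, fun _ => h⟩
    · exact ⟨0, fun h => absurd h hC⟩
  choose kk hkk using key
  refine ⟨(cells D B.o kS).powerset.sup kk, fun k0 hk0 δ hδ E q hq v hv => ?_⟩
  set C := Uk D δ B.o B.qb kS E with hCdef
  have hCs : C ⊆ cells D B.o kS := by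
    rw [hCdef]
    unfold Uk
    exact filter_subset _ _
  have hfree : ∀ x ∈ C, x.1 = kS ∧ Free D δ B.o E x := by
    intro x hx
    rw [hCdef, mem_Uk hDb] at hx
    exact hx.head
  have hF : Fam B kS C := ⟨fun x hx => (hfree x hx).1, fun x hx => (hfree x hx).2.1, Lev.Uk hDb⟩
  refine hkk C hF k0 ((Finset.le_sup (mem_powerset.2 hCs)).trans hk0) δ hδ E ?_ v
    (Set.mem_iUnion₂.2 ⟨q, hq, medc_sub_cmed _ _ hv⟩)
  intro e he
  obtain ⟨u, hu, heu⟩ := mem_star.1 he
  obtain ⟨x, hx, hux⟩ := mem_Vn.1 hu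
  exact (hfree x hx).2.2 (mem_star.2 ⟨u, hux, heu⟩)

end

end Pool.Agent.H66.M7
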