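import Mathlib
import Pool.Agent.H66.M7.Ref

set_option autoImplicit false
open Finset Filter Topology

/-!
# Module M7: the steps are small for a fixed base
-/

namespace Pool.Agent.H66.M7

open Pool.Agent.H75.Perc Pool.Agent.H75.TwoArm Pool.Agent.H75.Four Pool.Agent.H69.Q1
open Pool.Agent.H81.Q1 (pt DDomain Approx IsJordanDomain IsArcs)
open Pool.Agent.Q1.M3
open Pool.Agent.H28.Q1
open Pool.Agent.H82.Q1.M7 (Gain medc FreshS Sbar)
open Pool.Agent.H11.M7 (cmed cmed_compact cmed_sub_fat NoGain StGain')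

section

variable {D : Set ℂ} {a b : ℂ} {A₁ A₂ : Set ℂ} {A : Approx D a b A₁ A₂} {r0 : ℝ}

lemma fresh_eq {n : ℕ} {ω : Finset (ℤ × ℤ)} (t : ℕ) :
    (X0 A n).E \ Rules.metE (X0 A n) ω t = fresh (X0 A n) ω t := by
  ext e
  rw [Finset.mem_sdiff, Rules.mem_metE, mem_fresh]
  constructor
  · rintro ⟨h1, h2⟩
    exact ⟨h1, fun k hk h => h2 ⟨h1, k, hk, h⟩⟩
  · rintro ⟨h1, h2⟩
    exact ⟨h1, fun ⟨_, k, hk, h⟩ => h2 k hk h⟩

/-- A gain stops the step. -/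
theorem gain_stop {B : Base A r0} {kS k0 n : ℕ}
    (href : ∀ (E : Finset (ℤ × ℤ)) (q : Cell), q ∈ Uk D (A.δ n) B.o B.qb kS E →
      ∀ v, pt (A.δ n) v ∈ medc B.o q → v ∈ Vn (A.δ n) B.o (Uk D (A.δ n) B.o B.qb k0 E))
    {ω : Finset (ℤ × ℤ)} (hω : ω ⊆ (X0 A n).E) {j t : ℕ}
    (hG : Gain B kS n ω (B.T k0 n j ω) t) : B.T k0 n (j + 1) ω ≤ t := by
  obtain ⟨q, hq, v, hv, i, hi, hit, hp⟩ := hG
  by_contra hcon
  push Not at hcon
  refine chain_avoid B hω hi (by omega) (mem_star.2 ⟨v, ?_, hp⟩)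
  unfold Base.F
  rw [fresh_eq] at hq
  exact mem_union_left _ (href _ q hq v hv)

/-- Before the end of a step which starts in an unfinished state the barrier is not met. -/
lemma step_avoid {B : Base A r0} {k0 n : ℕ} {ω : Finset (ℤ × ℤ)} (hω : ω ⊆ (X0 A n).E) {j : ℕ}
    (hF : ¬ B.Fin n (B.X k0 n j ω)) {i t : ℕ} (hi : i < t) (ht : t < B.T k0 n (j + 1) ω) :
    plab ((X0 A n).cor ω i) ∉ star (B.N n) := by
  rcases lt_or_ge i (B.T k0 n j ω) with h1 | h1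
  · exact chain_N B hω j hF i h1
  · intro h2
    refine chain_avoid B hω h1 (by omega) ?_
    unfold Base.F
    rw [star_union]
    exact mem_union_right _ h2

/-- A large step gives a piece without gain. -/
theorem noGain_of_step {B : Base A r0} {kS k0 n : ℕ}
    (href : ∀ (E : Finset (ℤ × ℤ)) (q : Cell), q ∈ Uk D (A.δ n) B.o B.qb kS E →
      ∀ v, pt (A.δ n) v ∈ medc B.o q → v ∈ Vn (A.δ n) B.o (Uk D (A.δ n) B.o B.qb k0 E))
    {ω : Finset (ℤ × ℤ)} (hω : ω ⊆ (X0 A n).E) {c : ℝ} (hc : 4 * A.δ n < c) {j t : ℕ}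
    (hF : ¬ B.Fin n (B.X k0 n j ω)) (h1 : B.T k0 n j ω ≤ t) (h2 : t ≤ B.T k0 n (j + 1) ω)
    (hd : c ≤ dist (pt (A.δ n) (vx ((X0 A n).cor ω t)))
      (pt (A.δ n) (vx ((X0 A n).cor ω (B.T k0 n j ω))))) : NoGain B (c / 2) kS n ω := by
  have hδ := A.pos n
  -- the time `u`
  obtain ⟨u, hu1, hu2, hu3⟩ : ∃ u, B.T k0 n j ω ≤ u ∧ u < B.T k0 n (j + 1) ω ∧
      c / 2 ≤ dist (pt (A.δ n) (vx ((X0 A n).cor ω (B.T k0 n j ω))))
        (pt (A.δ n) (vx ((X0 A n).cor ω u))) := by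
    rcases h2.lt_or_eq with h3 | h3
    · refine ⟨t, h1, h3, ?_⟩
      rw [dist_comm]
      linarith
    · rcases h1.lt_or_eq with h4 | h4
      · refine ⟨t - 1, by omega, by omega, ?_⟩
        have h5 := dist_cor_succ (X0 A n) hδ ω (t - 1)
        rw [Nat.sub_add_cancel (by omega)] at h5
        have h6 := dist_triangle_right (pt (A.δ n) (vx ((X0 A n).cor ω t)))
          (pt (A.δ n) (vx ((X0 A n).cor ω (B.T k0 n j ω))))
          (pt (A.δ n) (vx ((X0 A n).cor ω (t - 1))))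
        rw [dist_comm (pt (A.δ n) (vx ((X0 A n).cor ω (t - 1))))] at h5
        linarith
      · exfalso
        rw [← h4, dist_self] at hd
        linarith
  exact ⟨B.T k0 n j ω, u, hu1, hu2.le.trans (chain_T_le B hω _), hu3,
    fun i hi => step_avoid hω hF hi hu2, fun hG => absurd (gain_stop href hω hG) (by omega)⟩

/-- **The steps are small for a fixed base**, as long as the barrier is not met. -/
theorem steps_small (hDb : Bornology.IsBounded D) (B : Base A r0) (hG : StGain' B) {c θ : ℝ}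
    (hc : 0 < c) (hθ : 0 < θ) : ∃ k00, ∀ k0, k00 ≤ k0 → ∀ᶠ n in atTop,
      Pr (X0 A n).E (fun ω => ∃ j t, ¬ B.Fin n (B.X k0 n j ω) ∧ B.T k0 n j ω ≤ t ∧
        t ≤ B.T k0 n (j + 1) ω ∧ c ≤ dist (pt (A.δ n) (vx ((X0 A n).cor ω t)))
          (pt (A.δ n) (vx ((X0 A n).cor ω (B.T k0 n j ω))))) ≤ θ := by
  obtain ⟨kS, -, hkS⟩ := hG (c / 2) (by positivity) θ hθ 0
  obtain ⟨k00, href⟩ := ref_med hDb B kS
  refine ⟨k00, fun k0 hk0 => ?_⟩
  have e1 : ∀ᶠ n in atTop, A.δ n < c / 8 := A.lim.eventually_lt_const (by positivity)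
  filter_upwards [hkS, e1] with n h1 h2
  refine le_trans (Pr_mono ?_) h1
  rintro ω hω ⟨j, t, g1, g2, g3, g4⟩
  exact noGain_of_step (href k0 hk0 (A.δ n) (A.pos n)) hω (by linarith) g1 g2 g3 g4

end

end Pool.Agent.H66.M7
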