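import Mathlib
import Pool.Agent.H66.M7.StepS
import Pool.Agent.H11.M7.Count
import Pool.Agent.H4.Q1.M7.Micro
import Pool.Agent.Q1.M3.GoodP
import Pool.Agent.Q1.M3.Count

set_option autoImplicit false
open Finset Topology MeasureTheory
open Filter (Tendsto atTop)

/-!
# Module M7: the first bad step of the micro chain

* `F1` : the first step stays near `a`.
* `first_bad` : the probability that the first state is not good or that there is a bad step is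
  small.
-/

namespace Pool.Agent.H66.M7

open Pool.Agent.H75.Perc Pool.Agent.H75.TwoArm Pool.Agent.H75.Four Pool.Agent.H69.Q1
open Pool.Agent.H81.Q1 (pt DDomain Approx IsJordanDomain IsArcs)
open Pool.Agent.Q1.M3
open Pool.Agent.H82.Q1.M7
open Pool.Agent.H11.M7 (StGain' stGain'_of)
open Pool.Agent.H4.Q1.M7
open Pool.Agent.H99.NC

section

variable {D : Set ℂ} {a b : ℂ} {A₁ A₂ : Set ℂ} {A : Approx D a b A₁ A₂} {r0 : ℝ}

/-- The first step stays near `a`. -/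
def F1 (B : Base A r0) (k0 n : ℕ) (ρ1 : ℝ) : Set (Om (X0 A n).E) :=
  {ω | ∀ t ≤ B.T k0 n 1 ω.1, dist (Pool.Agent.H4.Q1.M7.gp A n ω.1 t) a < ρ1}

lemma ad_F1 (B : Base A r0) (k0 n : ℕ) (ρ1 : ℝ) :
    AdX B k0 n 0 (fun ω => ω ∈ F1 B k0 n ρ1) := by
  intro ω ω' h1
  have h2 := ad_T (B := B) (k0 := k0) (i := 1) (j := 0) le_rfl ω ω' h1
  simp only at h2
  have h3 : ∀ t ≤ B.T k0 n 1 ω.1,
      Pool.Agent.H4.Q1.M7.gp A n ω.1 t = Pool.Agent.H4.Q1.M7.gp A n ω'.1 t := by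
    intro t ht
    unfold Pool.Agent.H4.Q1.M7.gp
    rw [cor_of_Hi h1 ht]
  simp only [eq_iff_iff]
  change (∀ t ≤ B.T k0 n 1 ω.1, _) ↔ (∀ t ≤ B.T k0 n 1 ω'.1, _)
  rw [← h2]
  exact forall₂_congr fun t ht => by rw [h3 t ht]

lemma alpha_eq (n : ℕ) : vx (X0 A n).α = (A.X n).α.1 := by
  change vx (A.X n).toDEnv.α = _
  rw [Pool.Agent.H81.Q1.toDEnv_α, vx_cor]

/-- States far from `b` are not finished. -/
lemma not_fin {B : Base A r0} {k0 n : ℕ} (hN : ∀ v ∈ B.N n, pt (A.δ n) v ∈ Metric.ball b r0)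
    {r : ℝ} (hr : r0 + A.δ n ≤ r) {ω : Finset (ℤ × ℤ)} (hω : ω ⊆ (X0 A n).E) {j : ℕ}
    (h : r ≤ dist (Pool.Agent.H4.Q1.M7.gp A n ω (B.T k0 n j ω)) b) :
    ¬ B.Fin n (B.X k0 n j ω) := by
  intro hf
  unfold Base.Fin at hf
  obtain ⟨v, hv, h7⟩ := mem_star.1 hf
  have h8 := dist_of_star1 (A.pos n) h7 (lab_star1 (B.X k0 n j ω).α)
  rw [B.X_α hω] at h8
  have h9 := Metric.mem_ball.1 (hN v hv)
  unfold Pool.Agent.H4.Q1.M7.gp at h
  have h10 := dist_triangle_left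
    (pt (A.δ n) (vx ((X0 A n).cor ω (B.T k0 n j ω)))) b (pt (A.δ n) v)
  linarith

/-- **The first bad step.** -/
theorem first_bad (hD : IsJordanDomain D) (hA : IsArcs D a b A₁ A₂) (B : Base A r0)
    (hG : StGain B) {r1 ρ1 e0 θ : ℝ} (hr : r0 < r1) (hr1 : r1 < dist a b) (hρ1 : 0 < ρ1)
    (he : 0 < e0) (hθ : 0 < θ) :
    ∃ k00, ∀ k0, k00 ≤ k0 → ∃ ρ > 0, ∀ᶠ n in atTop, ∀ r2, r1 + e0 ≤ r2 → r2 + ρ1 ≤ dist a b →
      (PO (X0 A n).E).real {ω | ω ∉ gS B k0 n (F1 B k0 n ρ1) r2 ρ e0 0 ∨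
        ∃ j, ω ∈ gS B k0 n (F1 B k0 n ρ1) r2 ρ e0 j ∧
          ω ∉ gS B k0 n (F1 B k0 n ρ1) r1 ρ e0 (j + 1)} ≤ θ := by
  obtain ⟨hDo, -, hDb, -⟩ := hD
  have hfr : ∀ x ∈ frontier D, x ∉ D := by
    intro x hx hxD
    rw [hDo.frontier_eq] at hx
    exact hx.2 hxD
  have ha : a ∉ D := hfr a (hA.union ▸ Or.inl (hA.inter ▸ Or.inl rfl : a ∈ A₁ ∩ A₂).1)
  have hb : b ∉ D := hfr b (hA.union ▸ Or.inl (hA.inter ▸ Or.inr rfl : b ∈ A₁ ∩ A₂).1)
  have hG' := stGain'_of hG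
  obtain ⟨ka, Ha⟩ := steps_small hDb B hG' he (θ := θ / 4) (by positivity)
  obtain ⟨kb, Hb⟩ := steps_small hDb B hG' (c := ρ1 / 2) (by positivity) (θ := θ / 4)
    (by positivity)
  refine ⟨max ka kb, fun k0 hk0 => ?_⟩
  have hcard : (0 : ℝ) < ((cells D B.o k0).card : ℝ) + 2 := by positivity
  obtain ⟨ρ, hρ, Hc⟩ := B.good_prob hDo hDb hA ha hb (hr.trans hr1) k0 k0
    (θ := θ / 4 / ((cells D B.o k0).card + 2)) (by positivity)
  refine ⟨ρ, hρ, ?_⟩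
  have e1 : ∀ᶠ n in atTop, A.δ n < r1 - r0 := A.lim.eventually_lt_const (by linarith)
  have e2 := (Metric.tendsto_nhds.1 A.limα) (ρ1 / 4) (by positivity)
  filter_upwards [Ha k0 ((le_max_left _ _).trans hk0), Hb k0 ((le_max_right _ _).trans hk0), Hc,
    e1, e2, B.sub, B.reg_eventually hDb ha (hr.trans hr1) k0 k0] with n h1 h2 h3 h4 h5 h6 h7
  intro r2 hr2 hr2'
  -- the events
  set E1 : Finset (ℤ × ℤ) → Prop := fun ω => ∃ j t, ¬ B.Fin n (B.X k0 n j ω) ∧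
    B.T k0 n j ω ≤ t ∧ t ≤ B.T k0 n (j + 1) ω ∧ e0 ≤ dist (pt (A.δ n) (vx ((X0 A n).cor ω t)))
      (pt (A.δ n) (vx ((X0 A n).cor ω (B.T k0 n j ω)))) with hE1
  set E2 : Finset (ℤ × ℤ) → Prop := fun ω => ∃ j t, ¬ B.Fin n (B.X k0 n j ω) ∧
    B.T k0 n j ω ≤ t ∧ t ≤ B.T k0 n (j + 1) ω ∧
    ρ1 / 2 ≤ dist (pt (A.δ n) (vx ((X0 A n).cor ω t)))
      (pt (A.δ n) (vx ((X0 A n).cor ω (B.T k0 n j ω)))) with hE2
  set E3 : Finset (ℤ × ℤ) → Prop := fun ω => ∃ j ∈ range ((cells D B.o k0).card + 2), j ≠ 0 ∧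
    ¬ B.Fin n (B.X k0 n j ω) ∧ ¬ B.Good k0 n ρ (B.X k0 n j ω) with hE3
  have hP3 : Pr (X0 A n).E E3 ≤ θ / 4 := by
    rw [hE3, ← PrP_half]
    refine (PrP_exists_le (Pb.const (by norm_num) (by norm_num)) _ _ _).trans ?_
    have g5 : ∀ j ∈ range ((cells D B.o k0).card + 2), PrP (fun _ => 1 / 2) (X0 A n).E
        (fun ω => j ≠ 0 ∧ ¬ B.Fin n (B.X k0 n j ω) ∧ ¬ B.Good k0 n ρ (B.X k0 n j ω)) ≤
          θ / 4 / ((cells D B.o k0).card + 2) := by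
      intro j _
      rw [PrP_half]
      exact h3 j
    refine (Finset.sum_le_card_nsmul _ _ _ g5).trans ?_
    rw [nsmul_eq_mul, Finset.card_range]
    push_cast
    rw [mul_div_assoc', mul_comm, div_le_iff₀ hcard]
  have hsub : ∀ ω : Om (X0 A n).E, (ω ∉ gS B k0 n (F1 B k0 n ρ1) r2 ρ e0 0 ∨
        ∃ j, ω ∈ gS B k0 n (F1 B k0 n ρ1) r2 ρ e0 j ∧
          ω ∉ gS B k0 n (F1 B k0 n ρ1) r1 ρ e0 (j + 1)) → E1 ω.1 ∨ E2 ω.1 ∨ E3 ω.1 := by
    intro ω hω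
    by_contra hcon
    rw [not_or, not_or] at hcon
    obtain ⟨c1, c2, c3⟩ := hcon
    -- unfinished states with positive index are good
    have hgood : ∀ j, j ≠ 0 → ¬ B.Fin n (B.X k0 n j ω.1) →
        B.Good k0 n ρ (B.X k0 n j ω.1) := by
      intro j hj hf
      by_contra hg
      refine c3 ⟨j, mem_range.2 ?_, hj, hf, hg⟩
      by_contra hj2
      exact hf (B.Fin_mono (by omega) (B.fin_all hDb h7 ω.sub))
    have hF1 : ω ∈ F1 B k0 n ρ1 := by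
      intro t ht
      have hT0 : B.T k0 n 0 ω.1 = 0 := Rules.tm_zero _ _ _
      have g1 : ¬ B.Fin n (B.X k0 n 0 ω.1) := h7.nfin
      have g2 : dist (pt (A.δ n) (vx ((X0 A n).cor ω.1 t)))
          (pt (A.δ n) (vx ((X0 A n).cor ω.1 (B.T k0 n 0 ω.1)))) < ρ1 / 2 := by
        by_contra g3
        exact c2 ⟨0, t, g1, by rw [hT0]; omega, ht, not_lt.1 g3⟩
      rw [← B.X_α ω.sub] at g2
      have g4 : vx (B.X k0 n 0 ω.1).α = (A.X n).α.1 := alpha_eq n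
      rw [g4] at g2
      have g5 := dist_triangle (pt (A.δ n) (vx ((X0 A n).cor ω.1 t)))
        (pt (A.δ n) (A.X n).α.1) a
      unfold Pool.Agent.H4.Q1.M7.gp
      linarith
    rcases hω with hω | ⟨j, hj1, hj2⟩
    · refine hω ⟨hF1, ?_, ?_, fun i hi1 hi2 => by omega⟩
      · intro t ht
        have g1 := hF1 t ht
        have g2 := dist_triangle_left a b (Pool.Agent.H4.Q1.M7.gp A n ω.1 t)
        linarith
      · refine hgood _ (by omega) (not_fin h6 (r := r1) (by linarith) ω.sub ?_)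
        have g1 := hF1 _ (le_refl (B.T k0 n 1 ω.1))
        have g2 := dist_triangle_left a b
          (Pool.Agent.H4.Q1.M7.gp A n ω.1 (B.T k0 n 1 ω.1))
        rw [zero_add]
        linarith
    · have g1 : ¬ B.Fin n (B.X k0 n (j + 1) ω.1) :=
        not_fin h6 (r := r1) (by linarith) ω.sub (by
          have := hj1.2.1 _ le_rfl
          linarith)
      have g2 : ¬ Lrg B k0 n e0 (j + 1) ω.1 := by
        rintro ⟨t, t1, t2, t3⟩
        exact c1 ⟨j + 1, t, g1, t1, t2, t3.le⟩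
      have g3 := far_step hj1.2.1 g2 hr2 he.le
      refine hj2 ⟨hj1.1, g3, ?_, ?_⟩
      · exact hgood _ (by omega) (not_fin h6 (r := r1) (by linarith) ω.sub (g3 _ le_rfl))
      · intro i hi1 hi2
        rcases Nat.lt_or_ge i (j + 1) with h8 | h8
        · exact hj1.2.2.2 i hi1 (by omega)
        · have h9 : i = j + 1 := by omega
          rw [h9]; exact g2
  have h8 : (PO (X0 A n).E).real {ω | ω ∉ gS B k0 n (F1 B k0 n ρ1) r2 ρ e0 0 ∨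
        ∃ j, ω ∈ gS B k0 n (F1 B k0 n ρ1) r2 ρ e0 j ∧
          ω ∉ gS B k0 n (F1 B k0 n ρ1) r1 ρ e0 (j + 1)} ≤
      (PO (X0 A n).E).real {ω | E1 ω.1 ∨ E2 ω.1 ∨ E3 ω.1} := measureReal_mono hsub
  refine h8.trans ?_
  rw [real_PO (fun ω => E1 ω ∨ E2 ω ∨ E3 ω)]
  refine (Pr_or_le _ _ _).trans ?_
  have h9 := Pr_or_le (X0 A n).E E2 E3
  have h10 : Pr (X0 A n).E E1 ≤ θ / 4 := h1
  have h11 : Pr (X0 A n).E E2 ≤ θ / 4 := h2
  linarith

end

end Pool.Agent.H66.M7
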