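import Mathlib

/-!
# The expansion at the target: algebra

`K(u) = 1 + k1 u + k2 u^2 + k3 u^3 + k4 u^4 + ...` is the cube root of
`(1 + c u^2 + 2 d u^3 + 3 e u^4) / (1 + W u - c u^2 - d u^3 - e u^4)`; a step changes
`(W, c, d, e)` into `(W', c', d', e')` with `c = c' + a1`, `d = d' - a2`, `e = e' + a1 c' + a3`.
-/

namespace Pool.Agent.H66.M7

/-- First coefficient. -/
noncomputable def kk1 (W : ℝ) : ℝ := -W / 3
/-- Second coefficient. -/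
noncomputable def kk2 (W c : ℝ) : ℝ := 2 / 3 * c + 2 / 9 * W ^ 2
/-- Third coefficient. -/
noncomputable def kk3 (W c d : ℝ) : ℝ :=
  (3 * d - W * c - W ^ 3 / 3) / 3 + (-W / 3) * ((2 * c + W ^ 2 / 2) / 3) + (-W / 3) ^ 3 / 6
/-- Fourth coefficient. -/
noncomputable def kk4 (W c d e : ℝ) : ℝ :=
  (4 * e - W * d + W ^ 2 * c + W ^ 4 / 4) / 3
    + (-W / 3) * ((3 * d - W * c - W ^ 3 / 3) / 3) + ((2 * c + W ^ 2 / 2) / 3) ^ 2 / 2
    + (-W / 3) ^ 2 * ((2 * c + W ^ 2 / 2) / 3) / 2 + (-W / 3) ^ 4 / 24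

/-- Multiplier of the third difference in the fourth coefficient. -/
noncomputable def ss3 (W : ℝ) : ℝ := W / 3 + 3 * W
/-- Multiplier of the second difference in the fourth coefficient. -/
noncomputable def ss2 (W c : ℝ) : ℝ :=
  (-((2 * c + W ^ 2 / 2) / 3) + (-W / 3) ^ 2 / 2) + 3 * W * (W / 3) + (3 * W ^ 2 - 2 * c)
/-- Multiplier of the first difference in the fourth coefficient. -/
noncomputable def ss1 (W c d : ℝ) : ℝ :=
  (-((3 * d - W * c - W ^ 3 / 3) / 3) + (-W / 3) * ((2 * c + W ^ 2 / 2) / 3) - (-W / 3) ^ 3 / 6)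
    + 3 * W * (-((2 * c + W ^ 2 / 2) / 3) + (-W / 3) ^ 2 / 2)
    + (3 * W ^ 2 - 2 * c) * (W / 3) + (-d - 3 * W * c + W ^ 3)

/-- The coefficients satisfy the four equations of `K^3 M = N`. -/
theorem kk_eqs (W c d e : ℝ) :
    3 * kk1 W + W = 0 ∧
    3 * kk2 W c + 3 * kk1 W ^ 2 + 3 * kk1 W * W - c = c ∧
    3 * kk3 W c d + 6 * kk1 W * kk2 W c + kk1 W ^ 3
      + (3 * kk2 W c + 3 * kk1 W ^ 2) * W - 3 * kk1 W * c - d = 2 * d ∧
    3 * kk4 W c d e + 6 * kk1 W * kk3 W c d + 3 * kk2 W c ^ 2 + 3 * kk1 W ^ 2 * kk2 W c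
      + (3 * kk3 W c d + 6 * kk1 W * kk2 W c + kk1 W ^ 3) * W
      - (3 * kk2 W c + 3 * kk1 W ^ 2) * c - 3 * kk1 W * d - e = 3 * e := by
  unfold kk1 kk2 kk3 kk4
  refine ⟨by ring, by ring, by ring, by ring⟩

/-- Uniqueness of the solution of the four equations. -/
theorem kk_unique {W c d e x1 x2 x3 x4 : ℝ}
    (h1 : 3 * x1 + W = 0)
    (h2 : 3 * x2 + 3 * x1 ^ 2 + 3 * x1 * W - c = c)
    (h3 : 3 * x3 + 6 * x1 * x2 + x1 ^ 3 + (3 * x2 + 3 * x1 ^ 2) * W - 3 * x1 * c - d = 2 * d)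
    (h4 : 3 * x4 + 6 * x1 * x3 + 3 * x2 ^ 2 + 3 * x1 ^ 2 * x2
      + (3 * x3 + 6 * x1 * x2 + x1 ^ 3) * W - (3 * x2 + 3 * x1 ^ 2) * c - 3 * x1 * d - e = 3 * e) :
    x1 = kk1 W ∧ x2 = kk2 W c ∧ x3 = kk3 W c d ∧ x4 = kk4 W c d e := by
  obtain ⟨g1, g2, g3, g4⟩ := kk_eqs W c d e
  have e1 : x1 = kk1 W := by linarith
  have e2 : x2 = kk2 W c := by rw [← e1] at g2; linarith
  have e3 : x3 = kk3 W c d := by rw [← e1, ← e2] at g3; linarith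
  have e4 : x4 = kk4 W c d e := by rw [← e1, ← e2, ← e3] at g4; linarith
  exact ⟨e1, e2, e3, e4⟩

/-- First order: the increment of the driving function. -/
theorem step1 (W dW : ℝ) : dW = -3 * (kk1 (W + dW) - kk1 W) := by
  unfold kk1; ring

/-- Second order: `dW^2 - 3 a1`. -/
theorem step2 (W dW c' a1 : ℝ) :
    dW ^ 2 - 3 * a1 = 9 / 2 * (kk2 (W + dW) c' - kk2 W (c' + a1))
      + 6 * W * (kk1 (W + dW) - kk1 W) := by
  unfold kk1 kk2; ring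

/-- Fourth order. -/
theorem step4 (W dW c' d' e' a1 a2 a3 : ℝ) :
    (kk4 (W + dW) c' d' e' - kk4 W (c' + a1) (d' - a2) (e' + a1 * c' + a3))
      + ss3 W * (kk3 (W + dW) c' d' - kk3 W (c' + a1) (d' - a2))
      + ss2 W (c' + a1) * (kk2 (W + dW) c' - kk2 W (c' + a1))
      + ss1 W (c' + a1) (d' - a2) * (kk1 (W + dW) - kk1 W)
    = 35 / 243 * dW ^ 4 - 16 / 27 * dW ^ 2 * a1 - 2 / 3 * dW * (a2 - W * a1)
      + 14 / 9 * a1 ^ 2 - 4 / 3 * (a3 - 2 * W * a2 + W ^ 2 * a1) := by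
  unfold kk1 kk2 kk3 kk4 ss1 ss2 ss3; ring

/-- The bound of the second moment by the fourth order relation:
if `|dW| ≤ ω`, `0 ≤ a1 ≤ ω`, `m1^2 ≤ a1 m2`, then
`m2 ≤ 2 ω (dW^2 + a1) - c4` up to absolute constants, `c4` being the left side of `step4`. -/
theorem moment_le {dW a1 m1 m2 c4 ω : ℝ} (hω : 0 ≤ ω) (hω1 : ω ≤ 1) (hdW : |dW| ≤ ω)
    (ha0 : 0 ≤ a1) (ha : a1 ≤ ω) (hm2 : 0 ≤ m2) (hm : m1 ^ 2 ≤ a1 * m2)
    (hc : c4 = 35 / 243 * dW ^ 4 - 16 / 27 * dW ^ 2 * a1 - 2 / 3 * dW * m1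
      + 14 / 9 * a1 ^ 2 - 4 / 3 * m2) :
    m2 ≤ 2 * ω * (dW ^ 2 + a1) - c4 := by
  have h1 : dW ^ 2 ≤ ω ^ 2 := by
    rw [← sq_abs]; exact pow_le_pow_left₀ (abs_nonneg _) hdW 2
  have h2 : |dW * m1| ≤ ω * (a1 + m2) / 2 := by
    have h3 : |m1| ≤ (a1 + m2) / 2 := by
      refine abs_le_of_sq_le_sq ?_ (by positivity)
      nlinarith [sq_nonneg (a1 - m2)]
    rw [abs_mul]
    calc |dW| * |m1| ≤ ω * ((a1 + m2) / 2) := mul_le_mul hdW h3 (abs_nonneg _) hω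
      _ = _ := by ring
  have h4 : -(2 / 3 * dW * m1) ≤ 2 / 3 * (ω * (a1 + m2) / 2) := by
    have := neg_abs_le (dW * m1)
    nlinarith
  have h5 : dW ^ 4 ≤ ω * dW ^ 2 := by
    have h6 : dW ^ 2 ≤ ω := h1.trans (by nlinarith)
    nlinarith [sq_nonneg dW]
  have h7 : a1 ^ 2 ≤ ω * a1 := by nlinarith
  have h8 : 0 ≤ dW ^ 2 * a1 := by positivity
  have h9 : 0 ≤ dW ^ 2 := sq_nonneg _
  nlinarith [mul_nonneg hω hm2, mul_nonneg hω ha0, mul_nonneg hω h9,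
    mul_nonneg (sub_nonneg.mpr hω1) hm2]

end Pool.Agent.H66.M7
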