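import Pool.Agent.H66.M7.ArrayS

/-!
# From observables to an array: the estimates of one step
-/

namespace Pool.Agent.H66.M7

open MeasureTheory ProbabilityTheory Set Filter Topology
open H37.Levy

universe u

theorem meas_piece {Ω : Type u} {G : MeasurableSpace Ω} {S : Set Ω} (hS : MeasurableSet[G] S)
    {f1 f2 f : Ω → ℝ} (hf1 : Measurable[G] f1) (hf2 : Measurable[G] f2)
    (h1 : ∀ ω ∈ S, f ω = f1 ω) (h2 : ∀ ω ∉ S, f ω = f2 ω) : Measurable[G] f := by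
  classical
  have h3 : f = S.piecewise f1 f2 := by
    funext ω
    by_cases h : ω ∈ S
    · rw [Set.piecewise_eq_of_mem _ _ _ h, h1 ω h]
    · rw [Set.piecewise_eq_of_notMem _ _ _ h, h2 ω h]
  rw [h3]
  exact Measurable.piecewise hS hf1 hf2

theorem germ_zero {l a0 : ℝ} (ha : 0 ≤ a0) : Germ l a0 (0 : ℂ → ℂ) where
  diff := differentiableOn_const 0
  zero := rfl
  conj' z _ := by simp
  bound z _ := by simpa using ha

theorem exists_c4_bound (B : ℝ) : ∃ S : ℝ, 0 ≤ S ∧ ∀ W dW x1 x2 x3 : ℝ, |W| ≤ B → |dW| ≤ B →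
    |x1| ≤ B → |x2| ≤ B → |x3| ≤ B → |c4 W dW x1 x2 x3| ≤ S := by
  have hK : IsCompact ((Icc (-B) B ×ˢ (Icc (-B) B ×ˢ (Icc (-B) B ×ˢ (Icc (-B) B ×ˢ Icc (-B) B)))) :
      Set (ℝ × ℝ × ℝ × ℝ × ℝ)) :=
    isCompact_Icc.prod (isCompact_Icc.prod (isCompact_Icc.prod (isCompact_Icc.prod isCompact_Icc)))
  obtain ⟨C, hC⟩ := hK.exists_bound_of_continuousOn
    (f := fun x : ℝ × ℝ × ℝ × ℝ × ℝ => c4 x.1 x.2.1 x.2.2.1 x.2.2.2.1 x.2.2.2.2)
    (by unfold c4; fun_prop)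
  refine ⟨max 0 C, le_max_left _ _, fun W dW x1 x2 x3 h1 h2 h3 h4 h5 => ?_⟩
  exact (hC (W, dW, x1, x2, x3) ⟨abs_le.mp h1, abs_le.mp h2, abs_le.mp h3, abs_le.mp h4,
    abs_le.mp h5⟩).trans (le_max_right _ _)

namespace Chn

variable {Ω : Type u} {m0 : MeasurableSpace Ω} {P : Measure Ω} {G : Filtration ℕ m0}
  {l a0 M al0 s ε : ℝ} {q : ℕ → ℝ} {J : ℕ} {A : ℕ → Ω → ℂ → ℂ} {W : ℕ → Ω → ℝ}
  {Mt : ℕ → ℕ → Ω → ℝ} {g b : ℕ → Set Ω} {al : Ω → ℝ} {T0 M0 : ℝ}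

section meas

variable (h : Chn P G l a0 M al0 s ε q J A W Mt g b al)

include h

theorem mal' (j : ℕ) : Measurable[G j] al := h.mal.mono (G.mono (Nat.zero_le j)) le_rfl

theorem meas_dr (j : ℕ) : Measurable[G j] (dr W al j) :=
  (h.mal' j).mul ((h.mW j).sub ((h.mW 0).mono (G.mono (Nat.zero_le j)) le_rfl))

theorem meas_cp (j : ℕ) : Measurable[G j] (cp A al j) :=
  (((h.mal' j).pow_const 2).mul (((h.mr 0 1).mono (G.mono (Nat.zero_le j)) le_rfl).sub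
    (h.mr j 1))).div_const 2

theorem meas_On (T0 M0 : ℝ) (j : ℕ) : MeasurableSet[G j] (On A W al b T0 M0 j) := by
  have h1 : On A W al b T0 M0 j = ⋂ i ∈ Finset.range (j + 1),
      (b i ∩ ({ω | |dr W al i ω| ≤ M0} ∩ {ω | cp A al i ω ≤ T0})) := by
    ext ω
    simp only [On, Set.mem_ofPred_eq, Set.mem_iInter, Finset.mem_range, Set.mem_inter_iff,
      Nat.lt_succ_iff]
  rw [h1]
  refine MeasurableSet.biInter (Finset.countable_toSet _) fun i hi => ?_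
  have hi' : i ≤ j := Nat.lt_succ_iff.1 (Finset.mem_range.1 hi)
  refine G.mono hi' _ ((h.mb i).inter (MeasurableSet.inter ?_ ?_))
  · exact (measurable_norm.comp (h.meas_dr i)) (measurableSet_Iic (a := M0))
  · exact (h.meas_cp i) (measurableSet_Iic (a := T0))

theorem meas_g (j : ℕ) : MeasurableSet[G (j + 1)] (g (j + 1)) := h.mg (j + 1)

theorem meas_Stp (T0 M0 : ℝ) (j : ℕ) : MeasurableSet[G (j + 1)] (Stp A W al g b T0 M0 j) :=
  (G.mono (Nat.le_succ j) _ (h.meas_On T0 M0 j)).inter (h.mg (j + 1))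

theorem meas_Stp0 (T0 M0 : ℝ) (j : ℕ) : MeasurableSet (Stp A W al g b T0 M0 j) :=
  G.le _ _ (h.meas_Stp T0 M0 j)

/-- increment of `W`, of the capacity, measurable -/
theorem meas_dW (j : ℕ) : Measurable[G (j + 1)] fun ω => W (j + 1) ω - W j ω :=
  (h.mW (j + 1)).sub ((h.mW j).mono (G.mono (Nat.le_succ j)) le_rfl)

theorem meas_a1 (j : ℕ) : Measurable[G (j + 1)] (a1 A j) :=
  ((h.mr j 1).mono (G.mono (Nat.le_succ j)) le_rfl).sub (h.mr (j + 1) 1)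

theorem meas_a2 (j : ℕ) : Measurable[G (j + 1)] (a2 A j) :=
  (h.mr (j + 1) 2).sub ((h.mr j 2).mono (G.mono (Nat.le_succ j)) le_rfl)

theorem meas_a3 (j : ℕ) : Measurable[G (j + 1)] (a3 A j) :=
  (((h.mr j 3).mono (G.mono (Nat.le_succ j)) le_rfl).sub (h.mr (j + 1) 3)).sub
    ((h.meas_a1 j).mul (h.mr (j + 1) 1))

theorem meas_W0 (j : ℕ) : Measurable[G (j + 1)] (W j) :=
  (h.mW j).mono (G.mono (Nat.le_succ j)) le_rfl

theorem meas_m2 (j : ℕ) : Measurable[G (j + 1)] (m2 A W j) :=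
  ((h.meas_a3 j).sub (((h.meas_W0 j).const_mul 2).mul (h.meas_a2 j))).add
    (((h.meas_W0 j).pow_const 2).mul (h.meas_a1 j))

theorem meas_ws (T0 M0 : ℝ) (j : ℕ) : Measurable[G j] (ws A W al g b T0 M0 j) := by
  have h1 : ws A W al g b T0 M0 j = fun ω => ∑ i ∈ Finset.range j,
    (Stp A W al g b T0 M0 i).indicator (fun ω => al ω * (W (i + 1) ω - W i ω)) ω := rfl
  rw [h1]
  refine Finset.measurable_fun_sum _ fun i hi => ?_
  have hi' : i + 1 ≤ j := Finset.mem_range.1 hi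
  refine Measurable.mono (Measurable.indicator ?_ (h.meas_Stp T0 M0 i)) (G.mono hi') le_rfl
  exact (h.mal' (i + 1)).mul (h.meas_dW i)

theorem meas_ts (T0 M0 : ℝ) (j : ℕ) : Measurable[G j] (ts A W al g b T0 M0 j) := by
  have h1 : ts A W al g b T0 M0 j = fun ω => ∑ i ∈ Finset.range j,
    (Stp A W al g b T0 M0 i).indicator
      (fun ω => al ω ^ 2 * (rc (A i ω) 1 - rc (A (i + 1) ω) 1) / 2) ω := rfl
  rw [h1]
  refine Finset.measurable_fun_sum _ fun i hi => ?_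
  have hi' : i + 1 ≤ j := Finset.mem_range.1 hi
  refine Measurable.mono (Measurable.indicator ?_ (h.meas_Stp T0 M0 i)) (G.mono hi') le_rfl
  exact ((((h.mal' (i + 1)).pow_const 2).mul (h.meas_a1 i))).div_const 2

theorem meas_qs (T0 M0 : ℝ) (j : ℕ) : Measurable[G (j + 1)] (qs A W al g b T0 M0 j) :=
  Measurable.indicator (((h.mal' (j + 1)).pow_const 4).mul (h.meas_m2 j)) (h.meas_Stp T0 M0 j)

end meas

section bounds

variable (h : Chn P G l a0 M al0 s ε q J A W Mt g b al)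

include h

theorem Stp_g {j : ℕ} {ω : Ω} (hω : ω ∈ Stp A W al g b T0 M0 j) : ω ∈ g j ∧ ω ∈ g (j + 1) :=
  ⟨h.bg j (On_b hω.1), hω.2⟩

theorem rc_bd (hl : 0 < l) {j : ℕ} (hj : j ≤ J) {ω : Ω} (hω : ω ∈ g j) (m : ℕ) :
    |rc (A j ω) m| ≤ a0 / l ^ m := rc_le (h.germ j hj ω hω) hl m

theorem a1_bd (hl : 0 < l) {j : ℕ} (hj : j < J) {ω : Ω} (hω : ω ∈ Stp A W al g b T0 M0 j) :
    |a1 A j ω| ≤ 2 * (a0 / l) := by
  obtain ⟨h1, h2⟩ := h.Stp_g hω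
  have h3 := h.rc_bd hl hj.le h1 1
  have h4 := h.rc_bd hl (Nat.succ_le_of_lt hj) h2 1
  rw [pow_one] at h3 h4
  unfold a1
  exact (abs_sub _ _).trans (by linarith)

theorem a2_bd (hl : 0 < l) {j : ℕ} (hj : j < J) {ω : Ω} (hω : ω ∈ Stp A W al g b T0 M0 j) :
    |a2 A j ω| ≤ 2 * (a0 / l ^ 2) := by
  obtain ⟨h1, h2⟩ := h.Stp_g hω
  have h3 := h.rc_bd hl hj.le h1 2
  have h4 := h.rc_bd hl (Nat.succ_le_of_lt hj) h2 2
  unfold a2
  exact (abs_sub _ _).trans (by linarith)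

theorem a3_bd (hl : 0 < l) (ha : 0 ≤ a0) {j : ℕ} (hj : j < J) {ω : Ω}
    (hω : ω ∈ Stp A W al g b T0 M0 j) :
    |a3 A j ω| ≤ 2 * (a0 / l ^ 3) + 2 * (a0 / l) * (a0 / l) := by
  obtain ⟨h1, h2⟩ := h.Stp_g hω
  have h3 := h.rc_bd hl hj.le h1 3
  have h4 := h.rc_bd hl (Nat.succ_le_of_lt hj) h2 3
  have h5 := h.rc_bd hl (Nat.succ_le_of_lt hj) h2 1
  have h6 := h.a1_bd hl hj hω
  rw [pow_one] at h5
  unfold a3
  refine (abs_sub _ _).trans (add_le_add ((abs_sub _ _).trans (by linarith)) ?_)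
  rw [abs_mul]
  exact mul_le_mul h6 h5 (abs_nonneg _) (by positivity)

theorem dW_bd {j : ℕ} (hj : j < J) {ω : Ω} (hω : ω ∈ Stp A W al g b T0 M0 j) :
    |W (j + 1) ω - W j ω| ≤ 2 * M := by
  obtain ⟨h1, h2⟩ := h.Stp_g hω
  have h3 := h.bdW j hj.le ω h1
  have h4 := h.bdW (j + 1) hj ω h2
  exact (abs_sub _ _).trans (by linarith)

theorem m2_bd (hl : 0 < l) (ha : 0 ≤ a0) (hM : 0 ≤ M) {j : ℕ} (hj : j < J) {ω : Ω}
    (hω : ω ∈ Stp A W al g b T0 M0 j) :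
    |m2 A W j ω| ≤ 2 * (a0 / l ^ 3) + 2 * (a0 / l) * (a0 / l) + 2 * M * (2 * (a0 / l ^ 2))
      + M ^ 2 * (2 * (a0 / l)) := by
  have hW := h.bdW j hj.le ω (h.Stp_g hω).1
  unfold m2
  refine (abs_add_le _ _).trans (add_le_add ((abs_sub _ _).trans
    (add_le_add (h.a3_bd hl ha hj hω) ?_)) ?_)
  · rw [abs_mul, abs_mul, abs_two]
    exact mul_le_mul (mul_le_mul_of_nonneg_left hW (by norm_num)) (h.a2_bd hl hj hω)
      (abs_nonneg _) (by positivity)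
  · rw [abs_mul, abs_pow]
    exact mul_le_mul (pow_le_pow_left₀ (abs_nonneg _) hW 2) (h.a1_bd hl hj hω)
      (abs_nonneg _) (by positivity)

theorem qs_nonneg {j : ℕ} (hj : j < J) (ω : Ω) : 0 ≤ qs A W al g b T0 M0 j ω := by
  unfold qs
  by_cases hω : ω ∈ Stp A W al g b T0 M0 j
  · rw [Set.indicator_of_mem hω]
    exact mul_nonneg (pow_nonneg (h.al_nonneg ω) 4)
      (h.step j hj ω ⟨On_b hω.1, hω.2⟩).2.1
  · rw [Set.indicator_of_notMem hω]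

theorem al0_nonneg [Nonempty Ω] : 0 ≤ al0 := by
  obtain ⟨ω⟩ := ‹Nonempty Ω›
  exact (h.al_nonneg ω).trans (h.al_le ω)

end bounds

end Chn

end Pool.Agent.H66.M7
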