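import Pool.Agent.H66.M7.ArrayP

/-!
# From observables to an array: the martingale property and one step
-/

namespace Pool.Agent.H66.M7

open MeasureTheory ProbabilityTheory Set Filter Topology
open H37.Levy

universe u

namespace Chn

variable {Ω : Type u} {m0 : MeasurableSpace Ω} {P : Measure Ω} {G : Filtration ℕ m0}
  {l a0 M al0 s ε : ℝ} {q : ℕ → ℝ} {J : ℕ} {A : ℕ → Ω → ℂ → ℂ} {W : ℕ → Ω → ℝ}
  {Mt : ℕ → ℕ → Ω → ℝ} {g b : ℕ → Set Ω} {al : Ω → ℝ} {T0 M0 : ℝ}

/-- The densities of the stopped chain are nearly a martingale. -/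
theorem pre [IsProbabilityMeasure P] (h : Chn P G l a0 M al0 s ε q J A W Mt g b al) (T0 M0 : ℝ)
    {j : ℕ} (hj : j < J) {i : ℕ} (hi : i ≤ 4) {Y : Ω → ℝ} (hY : Measurable[G j] Y)
    (hY1 : ∀ ω, |Y ω| ≤ 1) :
    |∫ ω, Y ω * (Stp A W al g b T0 M0 j).indicator
      (fun ω => kap (A (j + 1) ω) (W (j + 1) ω) (((i : ℝ) + 1) * s)
        - kap (A j ω) (W j ω) (((i : ℝ) + 1) * s)) ω ∂P| ≤ 2 * ε + q j := by
  set u : ℝ := ((i : ℝ) + 1) * s with hu
  set S := Stp A W al g b T0 M0 j with hS
  set O := On A W al b T0 M0 j with hO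
  have hOm : MeasurableSet[G j] O := h.meas_On T0 M0 j
  have hOm0 : MeasurableSet O := G.le _ _ hOm
  have hSm0 : MeasurableSet S := h.meas_Stp0 T0 M0 j
  have hgm : MeasurableSet (g (j + 1)) := G.le _ _ (h.mg (j + 1))
  have hbm : MeasurableSet (b j) := G.le _ _ (h.mb j)
  have hYm : Measurable Y := hY.mono (G.le j) le_rfl
  set F : Ω → ℝ := fun ω => Mt (j + 1) i ω - Mt j i ω with hF
  have hFi : Integrable F P := (h.iM (j + 1) hj i hi).sub (h.iM j hj.le i hi)
  set D : Ω → ℝ := fun ω => kap (A (j + 1) ω) (W (j + 1) ω) u - kap (A j ω) (W j ω) u with hD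
  have hDm : Measurable D := ((h.mkap (j + 1) u).mono (G.le _) le_rfl).sub
    ((h.mkap j u).mono (G.le _) le_rfl)
  -- the error of the observables
  have hZ : ∀ ω ∈ S, |D ω - F ω| ≤ 2 * ε := by
    intro ω hω
    obtain ⟨h1, h2⟩ := h.Stp_g hω
    have h3 := h.obs j hj.le i hi ω h1
    have h4 := h.obs (j + 1) hj i hi ω h2
    have h5 : D ω - F ω = (Mt j i ω - kap (A j ω) (W j ω) u)
        - (Mt (j + 1) i ω - kap (A (j + 1) ω) (W (j + 1) ω) u) := by
      simp only [hD, hF]; ring
    rw [h5]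
    exact (abs_sub _ _).trans (by linarith)
  have hSF : Integrable (S.indicator F) P := hFi.indicator hSm0
  have hbd : ∀ {H : Ω → ℝ}, Integrable H P → Integrable (fun ω => Y ω * H ω) P := fun hH =>
    Integrable.bdd_mul (c := 1) hH hYm.aestronglyMeasurable (Eventually.of_forall hY1)
  have hYSF : Integrable (fun ω => Y ω * S.indicator F ω) P := hbd hSF
  -- the difference
  have hdiff : Integrable (fun ω => Y ω * (S.indicator D ω - S.indicator F ω)) P
      ∧ |∫ ω, Y ω * (S.indicator D ω - S.indicator F ω) ∂P| ≤ 2 * ε := by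
    have hε := h.eps0
    have h1 : ∀ ω, ‖Y ω * (S.indicator D ω - S.indicator F ω)‖ ≤ 2 * ε := by
      intro ω
      rw [norm_mul]
      by_cases hω : ω ∈ S
      · rw [Set.indicator_of_mem hω, Set.indicator_of_mem hω]
        calc ‖Y ω‖ * ‖D ω - F ω‖ ≤ 1 * (2 * ε) :=
              mul_le_mul (hY1 ω) (hZ ω hω) (norm_nonneg _) zero_le_one
          _ = _ := one_mul _
      · rw [Set.indicator_of_notMem hω, Set.indicator_of_notMem hω]
        simp; exact hε
    have h2 : AEStronglyMeasurable (fun ω => Y ω * (S.indicator D ω - S.indicator F ω)) P :=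
      hYm.aestronglyMeasurable.mul ((hDm.indicator hSm0).aestronglyMeasurable.sub hSF.1)
    refine ⟨Integrable.of_bound h2 _ (Eventually.of_forall h1), ?_⟩
    have h3 := norm_integral_le_of_norm_le (μ := P) (integrable_const (2 * ε))
      (Eventually.of_forall h1)
    simpa using h3
  have hsum : ∫ ω, Y ω * S.indicator D ω ∂P
      = ∫ ω, Y ω * (S.indicator D ω - S.indicator F ω) ∂P + ∫ ω, Y ω * S.indicator F ω ∂P := by
    rw [← integral_add hdiff.1 hYSF]
    refine integral_congr_ae (Eventually.of_forall fun ω => ?_)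
    simp only; ring
  -- the martingale part
  have hOY : Measurable[G j] (O.indicator Y) := hY.indicator hOm
  have hOY1 : ∀ ω, |O.indicator Y ω| ≤ 1 := by
    intro ω
    by_cases hω : ω ∈ O
    · rw [Set.indicator_of_mem hω]; exact hY1 ω
    · rw [Set.indicator_of_notMem hω, abs_zero]; exact zero_le_one
  have hOYm : Measurable (O.indicator Y) := hOY.mono (G.le j) le_rfl
  have hmart := h.mart j hj i hi (O.indicator Y) hOY hOY1 (fun ω hω => by
    rw [Set.indicator_of_notMem]
    exact fun h1 => hω (On_b h1))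
  have hbd' : ∀ {H : Ω → ℝ}, Integrable H P → Integrable (fun ω => O.indicator Y ω * H ω) P :=
    fun hH => Integrable.bdd_mul (c := 1) hH hOYm.aestronglyMeasurable
      (Eventually.of_forall hOY1)
  have hOF : ∫ ω, O.indicator Y ω * F ω ∂P = 0 := by
    have h1 : ∫ ω, O.indicator Y ω * F ω ∂P = ∫ ω, O.indicator Y ω * Mt (j + 1) i ω ∂P
        - ∫ ω, O.indicator Y ω * Mt j i ω ∂P := by
      rw [← integral_sub (hbd' (h.iM (j + 1) hj i hi)) (hbd' (h.iM j hj.le i hi))]
      refine integral_congr_ae (Eventually.of_forall fun ω => ?_)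
      simp only [hF]; ring
    rw [h1, hmart, sub_self]
  have hR : MeasurableSet (O \ g (j + 1)) := hOm0.diff hgm
  have hsplit : ∫ ω, Y ω * S.indicator F ω ∂P
      = ∫ ω, O.indicator Y ω * F ω ∂P - ∫ ω in O \ g (j + 1), Y ω * F ω ∂P := by
    rw [← integral_indicator hR, ← integral_sub (hbd' hFi) ((hbd hFi).indicator hR)]
    refine integral_congr_ae (Eventually.of_forall fun ω => ?_)
    by_cases h1 : ω ∈ O
    · by_cases h2 : ω ∈ g (j + 1)
      · simp only [Set.indicator_of_mem h1, Set.indicator_of_mem (show ω ∈ S from ⟨h1, h2⟩),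
          Set.indicator_of_notMem (show ω ∉ O \ g (j + 1) from fun h3 => h3.2 h2), sub_zero]
      · simp only [Set.indicator_of_mem h1,
          Set.indicator_of_notMem (show ω ∉ S from fun h3 => h2 h3.2),
          Set.indicator_of_mem (show ω ∈ O \ g (j + 1) from ⟨h1, h2⟩)]
        ring
    · simp only [Set.indicator_of_notMem h1, Set.indicator_of_notMem
          (show ω ∉ S from fun h3 => h1 h3.1),
          Set.indicator_of_notMem (show ω ∉ O \ g (j + 1) from fun h3 => h1 h3.1)]
      ring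
  have hq : |∫ ω in O \ g (j + 1), Y ω * F ω ∂P| ≤ q j := by
    have h1 : |∫ ω in O \ g (j + 1), Y ω * F ω ∂P| ≤ ∫ ω in O \ g (j + 1), |F ω| ∂P := by
      have h2 := norm_integral_le_of_norm_le (μ := P.restrict (O \ g (j + 1)))
        (f := fun ω => Y ω * F ω) (g := fun ω => |F ω|) hFi.abs.integrableOn
        (Eventually.of_forall fun ω => by
          rw [norm_mul]
          calc ‖Y ω‖ * ‖F ω‖ ≤ 1 * ‖F ω‖ := mul_le_mul_of_nonneg_right (hY1 ω) (norm_nonneg _)
            _ = |F ω| := by rw [one_mul, Real.norm_eq_abs])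
      exact h2
    refine h1.trans (le_trans ?_ (h.bad j hj i hi))
    exact setIntegral_mono_set hFi.abs.integrableOn
      (Eventually.of_forall fun ω => abs_nonneg _)
      (Eventually.of_forall (fun ω (hω : ω ∈ O \ g (j + 1)) =>
        (⟨On_b hω.1, hω.2⟩ : ω ∈ b j \ g (j + 1))))
  rw [hsum, hsplit, hOF, zero_sub]
  refine (abs_add_le _ _).trans (add_le_add hdiff.2 ?_)
  rw [abs_neg]
  exact hq

end Chn

end Pool.Agent.H66.M7
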