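import Pool.Agent.H66.M7.ArrayQ

/-!
# From observables to an array: one step
-/

namespace Pool.Agent.H66.M7

open MeasureTheory ProbabilityTheory Set Filter Topology
open H37.Levy

universe u

/-- error of one step -/
noncomputable def dl (Cn s ε η : ℝ) (q : ℕ → ℝ) (j : ℕ) : ℝ := Cn / s ^ 4 * (2 * ε + q j) + η

/-- **One step of the stopped chain.** -/
theorem chn_step {l a0 M η : ℝ} (hl : 0 < l) (ha : 0 ≤ a0) (hM : 0 ≤ M) (hη : 0 < η) :
    ∃ Cn : ℝ, 0 ≤ Cn ∧ ∃ s0 : ℝ, 0 < s0 ∧ s0 ≤ 1 ∧ 5 * s0 ≤ l / 4 ∧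
      ∀ s : ℝ, 0 < s → s ≤ s0 → ∀ (Ω : Type u) (m0 : MeasurableSpace Ω) (P : Measure Ω)
        (_ : IsProbabilityMeasure P) (G : Filtration ℕ m0) (al0 ε T0 M0 : ℝ) (q : ℕ → ℝ) (J : ℕ)
        (A : ℕ → Ω → ℂ → ℂ) (W : ℕ → Ω → ℝ) (Mt : ℕ → ℕ → Ω → ℝ) (g b : ℕ → Set Ω)
        (al : Ω → ℝ), Chn P G l a0 M al0 s ε q J A W Mt g b al →
        ∀ j < J, ∀ Y : Ω → ℝ, Measurable[G j] Y → (∀ ω, |Y ω| ≤ 1) →
          |∫ ω, Y ω * (Stp A W al g b T0 M0 j).indicator (fun ω => W (j + 1) ω - W j ω) ω ∂P|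
            ≤ dl Cn s ε η q j ∧
          |∫ ω, Y ω * (Stp A W al g b T0 M0 j).indicator
            (fun ω => (W (j + 1) ω - W j ω) ^ 2 - 3 * a1 A j ω) ω ∂P| ≤ dl Cn s ε η q j ∧
          |∫ ω, Y ω * (Stp A W al g b T0 M0 j).indicator
            (fun ω => c4 (W j ω) (W (j + 1) ω - W j ω) (a1 A j ω) (a2 A j ω) (a3 A j ω)) ω ∂P|
            ≤ dl Cn s ε η q j := by
  classical
  obtain ⟨Cn, hCn, s0, hs0, hs01, hs0l, H⟩ := one_step.{u} hl ha hM hη
  refine ⟨Cn, hCn, s0, hs0, hs01, hs0l, ?_⟩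
  intro s hs hss Ω m0 P hP G al0 ε T0 M0 q J A W Mt g b al h j hj Y hY hY1
  set S := Stp A W al g b T0 M0 j with hS
  set O := On A W al b T0 M0 j with hO
  have hOm : MeasurableSet[G j] O := h.meas_On T0 M0 j
  have hSm0 : MeasurableSet S := h.meas_Stp0 T0 M0 j
  have hSO : S ⊆ O := fun ω h1 => h1.1
  set A1 : Ω → ℂ → ℂ := fun ω => if ω ∈ O then A j ω else 0 with hA1
  set W1 : Ω → ℝ := fun ω => if ω ∈ O then W j ω else 0 with hW1
  set A2 : Ω → ℂ → ℂ := fun ω => if ω ∈ S then A (j + 1) ω else A1 ω with hA2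
  set W2 : Ω → ℝ := fun ω => if ω ∈ S then W (j + 1) ω else W1 ω with hW2
  have e1 : ∀ ω ∈ O, A1 ω = A j ω ∧ W1 ω = W j ω := fun ω hω => by
    simp only [hA1, hW1, if_pos hω, and_self]
  have e1' : ∀ ω ∉ O, A1 ω = 0 ∧ W1 ω = 0 := fun ω hω => by
    simp only [hA1, hW1, if_neg hω, and_self]
  have e2 : ∀ ω ∈ S, A2 ω = A (j + 1) ω ∧ W2 ω = W (j + 1) ω := fun ω hω => by
    simp only [hA2, hW2, if_pos hω, and_self]
  have e2' : ∀ ω ∉ S, A2 ω = A1 ω ∧ W2 ω = W1 ω := fun ω hω => by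
    simp only [hA2, hW2, if_neg hω, and_self]
  have hg1 : ∀ ω ∈ O, ω ∈ g j := fun ω hω => h.bg j (On_b hω)
  have hgerm1 : ∀ ω, Germ l a0 (A1 ω) := fun ω => by
    by_cases hω : ω ∈ O
    · rw [(e1 ω hω).1]; exact h.germ j hj.le ω (hg1 ω hω)
    · rw [(e1' ω hω).1]; exact germ_zero ha
  have hgerm2 : ∀ ω, Germ l a0 (A2 ω) := fun ω => by
    by_cases hω : ω ∈ S
    · rw [(e2 ω hω).1]; exact h.germ (j + 1) hj ω hω.2
    · rw [(e2' ω hω).1]; exact hgerm1 ω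
  have hbd1 : ∀ ω, |W1 ω| ≤ M := fun ω => by
    by_cases hω : ω ∈ O
    · rw [(e1 ω hω).2]; exact h.bdW j hj.le ω (hg1 ω hω)
    · rw [(e1' ω hω).2, abs_zero]; exact hM
  have hbd2 : ∀ ω, |W2 ω| ≤ M := fun ω => by
    by_cases hω : ω ∈ S
    · rw [(e2 ω hω).2]; exact h.bdW (j + 1) hj ω hω.2
    · rw [(e2' ω hω).2]; exact hbd1 ω
  have hk1 : ∀ m, Measurable[G j] fun ω => kc (A1 ω) (W1 ω) m := fun m =>
    meas_piece hOm (h.mkc j m) (measurable_const (a := kc 0 0 m))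
      (fun ω hω => by rw [(e1 ω hω).1, (e1 ω hω).2])
      (fun ω hω => by rw [(e1' ω hω).1, (e1' ω hω).2])
  have hk2 : ∀ m, Measurable[m0] fun ω => kc (A2 ω) (W2 ω) m := fun m =>
    meas_piece hSm0 ((h.mkc (j + 1) m).mono (G.le _) le_rfl) ((hk1 m).mono (G.le _) le_rfl)
      (fun ω hω => by rw [(e2 ω hω).1, (e2 ω hω).2])
      (fun ω hω => by rw [(e2' ω hω).1, (e2' ω hω).2])
  have hrel : ∀ ω, rc (A1 ω) 1 = rc (A2 ω) 1 + S.indicator (a1 A j) ω ∧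
      rc (A1 ω) 2 = rc (A2 ω) 2 - S.indicator (a2 A j) ω ∧
      rc (A1 ω) 3 = rc (A2 ω) 3 + S.indicator (a1 A j) ω * rc (A2 ω) 1
        + S.indicator (a3 A j) ω := by
    intro ω
    by_cases hω : ω ∈ S
    · rw [Set.indicator_of_mem hω, Set.indicator_of_mem hω, Set.indicator_of_mem hω,
        (e1 ω (hSO hω)).1, (e2 ω hω).1]
      unfold a3 a2 a1
      refine ⟨by ring, by ring, by ring⟩
    · rw [Set.indicator_of_notMem hω, Set.indicator_of_notMem hω, Set.indicator_of_notMem hω,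
        (e2' ω hω).1]
      refine ⟨by ring, by ring, by ring⟩
  have key := H s hs hss Ω (G j) m0 P hP (G.le j) A1 A2 W1 W2 (S.indicator (a1 A j))
    (S.indicator (a2 A j)) (S.indicator (a3 A j)) (2 * ε + q j) hgerm1 hgerm2 hbd1 hbd2 hk1 hk2
    hrel (fun i hi Y hY hY1 => by
      have h1 := h.pre T0 M0 hj hi hY hY1
      refine le_trans (le_of_eq ?_) h1
      congr 1
      refine integral_congr_ae (Eventually.of_forall fun ω => ?_)
      simp only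
      congr 1
      by_cases hω : ω ∈ S
      · rw [Set.indicator_of_mem hω, (e2 ω hω).1, (e2 ω hω).2, (e1 ω (hSO hω)).1,
          (e1 ω (hSO hω)).2]
      · rw [Set.indicator_of_notMem hω, (e2' ω hω).1, (e2' ω hω).2, sub_self]) Y hY hY1
  obtain ⟨k1, k2, k3⟩ := key
  have hdW : ∀ ω, W2 ω - W1 ω = S.indicator (fun ω => W (j + 1) ω - W j ω) ω := by
    intro ω
    by_cases hω : ω ∈ S
    · rw [Set.indicator_of_mem hω, (e2 ω hω).2, (e1 ω (hSO hω)).2]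
    · rw [Set.indicator_of_notMem hω, (e2' ω hω).2, sub_self]
  refine ⟨?_, ?_, ?_⟩
  · refine le_trans (le_of_eq ?_) k1
    congr 1
    refine integral_congr_ae (Eventually.of_forall fun ω => ?_)
    simp only [hdW ω]
  · refine le_trans (le_of_eq ?_) k2
    congr 1
    refine integral_congr_ae (Eventually.of_forall fun ω => ?_)
    simp only [hdW ω]
    by_cases hω : ω ∈ S
    · rw [Set.indicator_of_mem hω, Set.indicator_of_mem hω, Set.indicator_of_mem hω]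
    · rw [Set.indicator_of_notMem hω, Set.indicator_of_notMem hω, Set.indicator_of_notMem hω]
      ring
  · refine le_trans (le_of_eq ?_) k3
    congr 1
    refine integral_congr_ae (Eventually.of_forall fun ω => ?_)
    simp only [hdW ω]
    by_cases hω : ω ∈ S
    · simp only [Set.indicator_of_mem hω, (e1 ω (hSO hω)).2]
    · simp only [Set.indicator_of_notMem hω]
      unfold c4
      ring

/-- Multiplication of the test function by a power of the normalisation. -/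
theorem test_al {Ω : Type u} {m0 : MeasurableSpace Ω} {P : Measure Ω} {H : MeasurableSpace Ω}
    {al : Ω → ℝ} {al0 D : ℝ} (hal : 0 < al0) (h0 : ∀ ω, 0 ≤ al ω) (h1 : ∀ ω, al ω ≤ al0)
    (hm : Measurable[H] al) {X : Ω → ℝ}
    (hX : ∀ Y : Ω → ℝ, Measurable[H] Y → (∀ ω, |Y ω| ≤ 1) → |∫ ω, Y ω * X ω ∂P| ≤ D) (n : ℕ)
    {Y : Ω → ℝ} (hY : Measurable[H] Y) (hY1 : ∀ ω, |Y ω| ≤ 1) :
    |∫ ω, Y ω * (al ω ^ n * X ω) ∂P| ≤ al0 ^ n * D := by
  have hp : 0 < al0 ^ n := pow_pos hal n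
  have h2 := hX (fun ω => Y ω * (al ω ^ n / al0 ^ n)) (hY.mul ((hm.pow_const n).div_const _))
    (fun ω => by
      rw [abs_mul, abs_div, abs_of_pos hp, abs_of_nonneg (pow_nonneg (h0 ω) n)]
      have h3 : al ω ^ n / al0 ^ n ≤ 1 := (div_le_one hp).2 (pow_le_pow_left₀ (h0 ω) (h1 ω) n)
      calc |Y ω| * (al ω ^ n / al0 ^ n) ≤ 1 * 1 :=
            mul_le_mul (hY1 ω) h3 (div_nonneg (pow_nonneg (h0 ω) n) hp.le) zero_le_one
        _ = 1 := one_mul 1)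
  have h3 : ∫ ω, Y ω * (al ω ^ n * X ω) ∂P
      = al0 ^ n * ∫ ω, Y ω * (al ω ^ n / al0 ^ n) * X ω ∂P := by
    rw [← integral_const_mul]
    refine integral_congr_ae (Eventually.of_forall fun ω => ?_)
    simp only
    field_simp
  rw [h3, abs_mul, abs_of_pos hp]
  exact mul_le_mul_of_nonneg_left h2 hp.le

end Pool.Agent.H66.M7
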