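import Mathlib

/-!
# Taylor coefficients and expansions up to order 4
-/

namespace Pool.Agent.H66.M7

open Complex Metric Asymptotics Filter Topology Set
open scoped ComplexConjugate

/-- Taylor coefficient at `0`. -/
noncomputable def tc (f : ℂ → ℂ) (m : ℕ) : ℂ := iteratedDeriv m f 0 / (m.factorial : ℂ)

theorem tc_zero (f : ℂ → ℂ) : tc f 0 = f 0 := by simp [tc]

theorem tc_deriv (f : ℂ → ℂ) (m : ℕ) : tc (deriv f) m = (m + 1) * tc f (m + 1) := by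
  unfold tc
  rw [← iteratedDeriv_succ', Nat.factorial_succ]
  have h1 : ((m.factorial : ℕ) : ℂ) ≠ 0 := by exact_mod_cast m.factorial_ne_zero
  have h2 : ((m : ℂ) + 1) ≠ 0 := by exact_mod_cast Nat.succ_ne_zero m
  push_cast
  field_simp

/-- Expansion up to order 4, along the filter `F`. -/
def E5 (F : Filter ℂ) (f : ℂ → ℂ) (p0 p1 p2 p3 p4 : ℂ) : Prop :=
  (fun z => f z - (p0 + p1 * z + p2 * z ^ 2 + p3 * z ^ 3 + p4 * z ^ 4)) =O[F] fun z => z ^ 5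

theorem E5.mono {F G : Filter ℂ} {f : ℂ → ℂ} {p0 p1 p2 p3 p4 : ℂ}
    (h : E5 F f p0 p1 p2 p3 p4) (hG : G ≤ F) : E5 G f p0 p1 p2 p3 p4 :=
  IsBigO.mono h hG

theorem E5.congr {F : Filter ℂ} {f g : ℂ → ℂ} {p0 p1 p2 p3 p4 : ℂ}
    (h : E5 F f p0 p1 p2 p3 p4) (hfg : f =ᶠ[F] g) : E5 F g p0 p1 p2 p3 p4 := by
  refine IsBigO.congr' h ?_ EventuallyEq.rfl
  filter_upwards [hfg] with z hz
  rw [hz]

theorem E5_of_analytic {f : ℂ → ℂ} (hf : AnalyticAt ℂ f 0) :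
    E5 (𝓝 0) f (tc f 0) (tc f 1) (tc f 2) (tc f 3) (tc f 4) := by
  have h1 := hf.hasFPowerSeriesAt.isBigO_sub_partialSum_pow 5
  unfold E5
  refine (IsBigO.congr' h1 ?_ EventuallyEq.rfl).trans ?_
  · refine Eventually.of_forall fun z => ?_
    simp only [zero_add, FormalMultilinearSeries.partialSum,
      FormalMultilinearSeries.ofScalars_apply_eq', Finset.sum_range_succ, Finset.sum_range_zero,
      tc]
    simp only [smul_eq_mul]
    ring
  · refine IsBigO.of_bound 1 (Eventually.of_forall fun z => ?_)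
    simp

theorem E5.isBigO_one {F : Filter ℂ} {f : ℂ → ℂ} {p0 p1 p2 p3 p4 : ℂ} (hF : F ≤ 𝓝 0)
    (h : E5 F f p0 p1 p2 p3 p4) : f =O[F] fun _ => (1 : ℂ) := by
  have h1 : (fun z : ℂ => p0 + p1 * z + p2 * z ^ 2 + p3 * z ^ 3 + p4 * z ^ 4)
      =O[F] fun _ => (1 : ℂ) := by
    have hc : Continuous fun z : ℂ => p0 + p1 * z + p2 * z ^ 2 + p3 * z ^ 3 + p4 * z ^ 4 := by
      fun_prop
    exact ((hc.tendsto 0).isBigO_one ℂ).mono hF
  have h2 : (fun z : ℂ => z ^ 5) =O[F] fun _ => (1 : ℂ) :=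
    (((continuous_pow 5).tendsto (0 : ℂ)).isBigO_one ℂ).mono hF
  have h3 := (IsBigO.trans h h2).add h1
  refine h3.congr_left fun z => ?_
  ring

theorem E5.mul {F : Filter ℂ} (hF : F ≤ 𝓝 0) {f g : ℂ → ℂ}
    {p0 p1 p2 p3 p4 q0 q1 q2 q3 q4 : ℂ}
    (hf : E5 F f p0 p1 p2 p3 p4) (hg : E5 F g q0 q1 q2 q3 q4) :
    E5 F (fun z => f z * g z) (p0 * q0) (p0 * q1 + p1 * q0) (p0 * q2 + p1 * q1 + p2 * q0)
      (p0 * q3 + p1 * q2 + p2 * q1 + p3 * q0)
      (p0 * q4 + p1 * q3 + p2 * q2 + p3 * q1 + p4 * q0) := by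
  have h1 : (fun z => f z * (g z - (q0 + q1 * z + q2 * z ^ 2 + q3 * z ^ 3 + q4 * z ^ 4)))
      =O[F] fun z => z ^ 5 := by
    have := (hf.isBigO_one hF).mul hg
    simpa using this
  have h2 : (fun z : ℂ => (f z - (p0 + p1 * z + p2 * z ^ 2 + p3 * z ^ 3 + p4 * z ^ 4))
      * (q0 + q1 * z + q2 * z ^ 2 + q3 * z ^ 3 + q4 * z ^ 4)) =O[F] fun z => z ^ 5 := by
    have hc : Continuous fun z : ℂ => q0 + q1 * z + q2 * z ^ 2 + q3 * z ^ 3 + q4 * z ^ 4 := by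
      fun_prop
    have h3 := IsBigO.mul hf (((hc.tendsto 0).isBigO_one ℂ).mono hF)
    simpa using h3
  have h4 : (fun z : ℂ => z ^ 5 * ((p1 * q4 + p2 * q3 + p3 * q2 + p4 * q1)
      + (p2 * q4 + p3 * q3 + p4 * q2) * z + (p3 * q4 + p4 * q3) * z ^ 2 + p4 * q4 * z ^ 3))
      =O[F] fun z => z ^ 5 := by
    have hc : Continuous fun z : ℂ => ((p1 * q4 + p2 * q3 + p3 * q2 + p4 * q1)
      + (p2 * q4 + p3 * q3 + p4 * q2) * z + (p3 * q4 + p4 * q3) * z ^ 2 + p4 * q4 * z ^ 3) := by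
      fun_prop
    have h5 := (isBigO_refl (fun z : ℂ => z ^ 5) F).mul (((hc.tendsto 0).isBigO_one ℂ).mono hF)
    simpa using h5
  refine ((h1.add h2).add h4).congr_left fun z => ?_
  ring

theorem E5.add {F : Filter ℂ} {f g : ℂ → ℂ} {p0 p1 p2 p3 p4 q0 q1 q2 q3 q4 : ℂ}
    (hf : E5 F f p0 p1 p2 p3 p4) (hg : E5 F g q0 q1 q2 q3 q4) :
    E5 F (fun z => f z + g z) (p0 + q0) (p1 + q1) (p2 + q2) (p3 + q3) (p4 + q4) := by
  refine (IsBigO.add hf hg).congr_left fun z => ?_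
  ring

theorem E5.sub {F : Filter ℂ} {f g : ℂ → ℂ} {p0 p1 p2 p3 p4 q0 q1 q2 q3 q4 : ℂ}
    (hf : E5 F f p0 p1 p2 p3 p4) (hg : E5 F g q0 q1 q2 q3 q4) :
    E5 F (fun z => f z - g z) (p0 - q0) (p1 - q1) (p2 - q2) (p3 - q3) (p4 - q4) := by
  refine (IsBigO.sub hf hg).congr_left fun z => ?_
  ring

theorem E5_poly (F : Filter ℂ) (p0 p1 p2 p3 p4 : ℂ) :
    E5 F (fun z => p0 + p1 * z + p2 * z ^ 2 + p3 * z ^ 3 + p4 * z ^ 4) p0 p1 p2 p3 p4 := by
  unfold E5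
  simp only [sub_self]
  exact isBigO_zero _ _

/-- A polynomial of degree `≤ 4` which is `O(z^5)` vanishes. -/
theorem poly_unique {F : Filter ℂ} [F.NeBot] (hF : F ≤ 𝓝[≠] 0) {p0 p1 p2 p3 p4 : ℂ}
    (h : (fun z : ℂ => p0 + p1 * z + p2 * z ^ 2 + p3 * z ^ 3 + p4 * z ^ 4) =O[F] fun z => z ^ 5) :
    p0 = 0 ∧ p1 = 0 ∧ p2 = 0 ∧ p3 = 0 ∧ p4 = 0 := by
  have hF0 : F ≤ 𝓝 0 := hF.trans nhdsWithin_le_nhds
  have hne : ∀ᶠ z in F, z ≠ 0 := hF self_mem_nhdsWithin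
  have hz0 : Tendsto (fun z : ℂ => z) F (𝓝 0) := hF0
  -- one step
  have step : ∀ (n : ℕ) (P : ℂ → ℂ) (a : ℂ), Continuous P →
      (fun z : ℂ => a + z * P z) =O[F] (fun z => z ^ (n + 1)) →
      a = 0 ∧ P =O[F] fun z => z ^ n := by
    intro n P a hP hO
    have h1 : Tendsto (fun z : ℂ => a + z * P z) F (𝓝 (a + 0 * P 0)) :=
      tendsto_const_nhds.add (hz0.mul ((hP.tendsto 0).mono_left hF0))
    have h2 : Tendsto (fun z : ℂ => z ^ (n + 1)) F (𝓝 0) := by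
      have := hz0.pow (n + 1)
      simpa using this
    have h3 : a + 0 * P 0 = 0 := tendsto_nhds_unique h1 (hO.trans_tendsto h2)
    have ha : a = 0 := by simpa using h3
    refine ⟨ha, ?_⟩
    obtain ⟨C, hC⟩ := hO.bound
    refine IsBigO.of_bound C ?_
    filter_upwards [hC, hne] with z hz hz1
    rw [ha, zero_add, norm_mul, pow_succ, norm_mul, mul_comm ‖z ^ n‖, ← mul_assoc,
      mul_comm C, mul_assoc] at hz
    exact le_of_mul_le_mul_left hz (norm_pos_iff.mpr hz1)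
  obtain ⟨h0, g1⟩ := step 4 (fun z => p1 + p2 * z + p3 * z ^ 2 + p4 * z ^ 3) p0
    (by fun_prop) (h.congr_left fun z => by ring)
  obtain ⟨h1, g2⟩ := step 3 (fun z => p2 + p3 * z + p4 * z ^ 2) p1
    (by fun_prop) (g1.congr_left fun z => by ring)
  obtain ⟨h2, g3⟩ := step 2 (fun z => p3 + p4 * z) p2
    (by fun_prop) (g2.congr_left fun z => by ring)
  obtain ⟨h3, g4⟩ := step 1 (fun _ => p4) p3 (by fun_prop) (g3.congr_left fun z => by ring)
  have h4 : p4 = 0 := by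
    have h5 : Tendsto (fun _ : ℂ => p4) F (𝓝 0) := g4.trans_tendsto (by simpa using hz0)
    exact tendsto_nhds_unique tendsto_const_nhds h5
  exact ⟨h0, h1, h2, h3, h4⟩

theorem E5.unique {F : Filter ℂ} [F.NeBot] (hF : F ≤ 𝓝[≠] 0) {f : ℂ → ℂ}
    {p0 p1 p2 p3 p4 q0 q1 q2 q3 q4 : ℂ}
    (hf : E5 F f p0 p1 p2 p3 p4) (hg : E5 F f q0 q1 q2 q3 q4) :
    p0 = q0 ∧ p1 = q1 ∧ p2 = q2 ∧ p3 = q3 ∧ p4 = q4 := by
  have h1 := IsBigO.sub hg hf
  have h2 := poly_unique hF (p0 := p0 - q0) (p1 := p1 - q1) (p2 := p2 - q2) (p3 := p3 - q3)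
    (p4 := p4 - q4) (h1.congr_left fun z => by ring)
  simpa only [sub_eq_zero] using h2

/-- Functions commuting with conjugation have real Taylor coefficients. -/
theorem iteratedDeriv_conj {f : ℂ → ℂ} {r : ℝ} (hf : ∀ z ∈ ball (0 : ℂ) r, f (conj z) = conj (f z))
    (n : ℕ) : ∀ z ∈ ball (0 : ℂ) r, iteratedDeriv n f (conj z) = conj (iteratedDeriv n f z) := by
  have hconj : ∀ z ∈ ball (0 : ℂ) r, conj z ∈ ball (0 : ℂ) r := by
    intro z hz
    rw [mem_ball_zero_iff] at hz ⊢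
    rwa [Complex.norm_conj]
  induction n with
  | zero => simpa using hf
  | succ n ih =>
    intro z hz
    rw [iteratedDeriv_succ]
    have h1 : iteratedDeriv n f =ᶠ[𝓝 (conj z)] (conj ∘ iteratedDeriv n f ∘ conj) := by
      filter_upwards [isOpen_ball.mem_nhds (hconj z hz)] with w hw
      simp only [Function.comp_apply]
      rw [ih w hw, Complex.conj_conj]
    rw [h1.deriv_eq, deriv_conj_conj]
    simp

theorem tc_real {f : ℂ → ℂ} {r : ℝ} (hr : 0 < r)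
    (hf : ∀ z ∈ ball (0 : ℂ) r, f (conj z) = conj (f z)) (m : ℕ) :
    tc f m = ((tc f m).re : ℂ) := by
  have h1 := iteratedDeriv_conj hf m 0 (mem_ball_self hr)
  rw [map_zero] at h1
  have h2 : conj (tc f m) = tc f m := by
    unfold tc
    rw [map_div₀, ← h1, map_natCast]
  exact (Complex.conj_eq_iff_re.mp h2).symm

/-- Bound of the Taylor coefficients. -/
theorem tc_le {f : ℂ → ℂ} {r C : ℝ} (hf : DifferentiableOn ℂ f (ball 0 r))
    (hC : ∀ z ∈ ball (0 : ℂ) r, ‖f z‖ ≤ C) (hr : 0 < r) (m : ℕ) : ‖tc f m‖ * r ^ m ≤ C := by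
  have key : ∀ s : ℝ, 0 < s → s < r → ‖tc f m‖ * s ^ m ≤ C := by
    intro s hs hsr
    have h1 : DiffContOnCl ℂ f (ball 0 s) :=
      (hf.mono (by
        rw [closure_ball _ hs.ne']
        exact closedBall_subset_ball hsr)).diffContOnCl
    have h2 := Complex.norm_iteratedDeriv_le_of_forall_mem_sphere_norm_le m hs h1
      (fun z hz => hC z (by
        rw [mem_sphere_zero_iff_norm] at hz
        rw [mem_ball_zero_iff, hz]; exact hsr))
    have h3 : 0 < (m.factorial : ℝ) := by exact_mod_cast m.factorial_pos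
    unfold tc
    rw [norm_div, Complex.norm_natCast, div_mul_eq_mul_div, div_le_iff₀ h3]
    rw [le_div_iff₀ (by positivity)] at h2
    linarith
  have h4 : Tendsto (fun s : ℝ => ‖tc f m‖ * s ^ m) (𝓝[<] r) (𝓝 (‖tc f m‖ * r ^ m)) := by
    have : Continuous fun s : ℝ => ‖tc f m‖ * s ^ m := by fun_prop
    exact (this.tendsto r).mono_left nhdsWithin_le_nhds
  refine le_of_tendsto h4 ?_
  have h5 : Ioo 0 r ∈ 𝓝[<] r := Ioo_mem_nhdsLT hr
  filter_upwards [h5] with s hs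
  exact key s hs.1 hs.2

theorem hasSum_tc {f : ℂ → ℂ} {r : ℝ} (hf : DifferentiableOn ℂ f (ball 0 r)) {z : ℂ}
    (hz : z ∈ ball (0 : ℂ) r) : HasSum (fun m => tc f m * z ^ m) (f z) := by
  have h1 := Complex.hasSum_taylorSeries_on_ball hf hz
  refine h1.congr_fun ?_ |> id
  intro m
  unfold tc
  simp only [smul_eq_mul, sub_zero]
  ring

end Pool.Agent.H66.M7
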