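import Mathlib

/-!
# Extraction of Taylor coefficients from integrals over finitely many intervals

For a weight `w`, continuous and positive on `(0, r1)`, and analytic functions `X(u) = ∑ x_m u^m`
with `|x_m| ρ^m ≤ B`, the coefficients `x_0, ..., x_N` are controlled, up to `η`, by the integrals
of `w X` over finitely many intervals (which depend on `w, r1, ρ, B, η, N` only).
-/

namespace Pool.Agent.H66.M7

open MeasureTheory Set
open scoped BigOperators

/-- Interpolation weights at the nodes `1, ..., N + 1`. -/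
theorem exists_weights (N k : ℕ) (hk : k ≤ N) :
    ∃ lam : Fin (N + 1) → ℝ, ∀ m ≤ N,
      ∑ i : Fin (N + 1), lam i * ((i : ℝ) + 1) ^ m = if m = k then 1 else 0 := by
  have hinj : Function.Injective (fun i : Fin (N + 1) => (i : ℝ) + 1) := by
    intro i j h
    have h' : ((i : ℕ) : ℝ) = ((j : ℕ) : ℝ) := by
      have h0 : (i : ℝ) + 1 = (j : ℝ) + 1 := h
      linarith
    exact Fin.ext (by exact_mod_cast h')
  have hdet := Matrix.det_vandermonde_ne_zero_iff.mpr hinj
  refine ⟨fun i => (Matrix.vandermonde (fun i : Fin (N + 1) => (i : ℝ) + 1))⁻¹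
    ⟨k, by omega⟩ i, fun m hm => ?_⟩
  have h1 := Matrix.nonsing_inv_mul (Matrix.vandermonde (fun i : Fin (N + 1) => (i : ℝ) + 1))
    (isUnit_iff_ne_zero.mpr hdet)
  have h2 := congrFun (congrFun h1 ⟨k, by omega⟩) ⟨m, by omega⟩
  rw [Matrix.mul_apply] at h2
  simp only [Matrix.vandermonde_apply, Matrix.one_apply] at h2
  rw [h2]
  by_cases hmk : m = k
  · subst hmk; simp
  · rw [if_neg hmk, if_neg]
    intro h
    exact hmk (by simpa using (congrArg Fin.val h).symm)

/-- The moments of the weight on the interval `(a, b)`. -/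
noncomputable def mom (w : ℝ → ℝ) (a b : ℝ) (m : ℕ) : ℝ := ∫ u in a..b, w u * u ^ m

theorem mom_close {w : ℝ → ℝ} {a b : ℝ} (ha : 0 < a) (hab : a ≤ b)
    (hw : ContinuousOn w (Icc a b)) (hpos : ∀ u ∈ Icc a b, 0 ≤ w u) (m : ℕ) :
    |mom w a b m - a ^ m * mom w a b 0| ≤ (b - a) * m * b ^ (m - 1) * mom w a b 0 := by
  have hI : ∀ n : ℕ, IntervalIntegrable (fun u => w u * u ^ n) volume a b := fun n =>
    ContinuousOn.intervalIntegrable (by
      rw [uIcc_of_le hab]
      exact hw.mul (continuous_pow n).continuousOn)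
  have h1 : mom w a b m - a ^ m * mom w a b 0
      = ∫ u in a..b, w u * (u ^ m - a ^ m) := by
    unfold mom
    rw [← intervalIntegral.integral_const_mul, ← intervalIntegral.integral_sub (hI m)
      ((hI 0).const_mul _)]
    refine intervalIntegral.integral_congr fun u _ => ?_
    simp only [pow_zero, mul_one]; ring
  have h2 : (b - a) * m * b ^ (m - 1) * mom w a b 0
      = ∫ u in a..b, ((b - a) * m * b ^ (m - 1)) * w u := by
    unfold mom
    rw [← intervalIntegral.integral_const_mul]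
    refine intervalIntegral.integral_congr fun u _ => ?_
    simp only [pow_zero, mul_one]
  rw [h1, h2]
  have hb0 : 0 ≤ b := ha.le.trans hab
  refine (intervalIntegral.norm_integral_le_of_norm_le (f := fun u => w u * (u ^ m - a ^ m))
    (g := fun u => ((b - a) * m * b ^ (m - 1)) * w u) hab ?_ ?_)
  · refine Filter.Eventually.of_forall fun u hu => ?_
    have hu' : u ∈ Icc a b := ⟨hu.1.le, hu.2⟩
    have h3 : |u ^ m - a ^ m| ≤ |u - a| * m * max |u| |a| ^ (m - 1) := abs_pow_sub_pow_le ..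
    have h4 : |u - a| ≤ b - a := by
      rw [abs_of_nonneg (by linarith [hu'.1])]; linarith [hu'.2]
    have h5 : max |u| |a| ≤ b := by
      rw [abs_of_nonneg (ha.le.trans hu'.1), abs_of_pos ha]
      exact max_le hu'.2 hab
    have h6 : max |u| |a| ^ (m - 1) ≤ b ^ (m - 1) :=
      pow_le_pow_left₀ (le_max_of_le_left (abs_nonneg u)) h5 _
    rw [Real.norm_eq_abs, abs_mul, abs_of_nonneg (hpos u hu'), mul_comm]
    refine mul_le_mul_of_nonneg_right (h3.trans ?_) (hpos u hu')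
    exact mul_le_mul (mul_le_mul_of_nonneg_right h4 (Nat.cast_nonneg m)) h6
      (pow_nonneg (le_max_of_le_left (abs_nonneg u)) _)
      (mul_nonneg (by linarith) (Nat.cast_nonneg m))
  · have := (hI 0).const_mul ((b - a) * m * b ^ (m - 1))
    simpa using this

theorem mom_zero_pos {w : ℝ → ℝ} {a b : ℝ} (hab : a < b)
    (hw : ContinuousOn w (Icc a b)) (hpos : ∀ u ∈ Icc a b, 0 < w u) :
    0 < mom w a b 0 := by
  unfold mom
  have : (fun u => w u * u ^ 0) = w := by funext u; simp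
  rw [this]
  exact intervalIntegral.intervalIntegral_pos_of_pos_on
    (ContinuousOn.intervalIntegrable (by rwa [uIcc_of_le hab.le]))
    (fun u hu => hpos u ⟨hu.1.le, hu.2.le⟩) hab

theorem summable_half (c : ℝ) : Summable fun m : ℕ => c * ((m : ℝ) * (1 / 2) ^ m) :=
  (hasSum_coe_mul_geometric_of_norm_lt_one (by rw [Real.norm_eq_abs]; norm_num)).summable.mul_left c

theorem tsum_half : ∑' m : ℕ, (m : ℝ) * (1 / 2) ^ m = 2 := by
  rw [tsum_coe_mul_geometric_of_norm_lt_one (by rw [Real.norm_eq_abs]; norm_num)]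
  norm_num

/-- Bound of the coefficients in the form used below. -/
theorem coeff_le {x : ℕ → ℝ} {ρ B : ℝ} (hx : ∀ m, |x m| * ρ ^ m ≤ B) (m : ℕ)
    {t : ℝ} (ht0 : 0 ≤ t) (ht : t ≤ ρ / 2) : |x m| * t ^ m ≤ B * (1 / 2) ^ m := by
  have h1 : t ^ m ≤ (ρ / 2) ^ m := pow_le_pow_left₀ ht0 ht m
  calc |x m| * t ^ m ≤ |x m| * (ρ / 2) ^ m := mul_le_mul_of_nonneg_left h1 (abs_nonneg _)
    _ = (|x m| * ρ ^ m) * (1 / 2) ^ m := by rw [div_pow, div_pow]; ring
    _ ≤ B * (1 / 2) ^ m := mul_le_mul_of_nonneg_right (hx m) (by positivity)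

theorem summable_pt {x : ℕ → ℝ} {ρ B : ℝ} (hx : ∀ m, |x m| * ρ ^ m ≤ B)
    {t : ℝ} (ht0 : 0 ≤ t) (ht : t ≤ ρ / 2) : Summable fun m => x m * t ^ m := by
  refine Summable.of_norm_bounded (g := fun m => B * (1 / 2) ^ m)
    ((summable_geometric_of_lt_one (by norm_num) (by norm_num)).mul_left B) fun m => ?_
  rw [Real.norm_eq_abs, abs_mul, abs_of_nonneg (pow_nonneg ht0 m)]
  exact coeff_le hx m ht0 ht

/-- The functional `∫_a^b w X` in terms of coefficients. -/
noncomputable def Lf (w : ℝ → ℝ) (I : ℝ × ℝ) (x : ℕ → ℝ) : ℝ :=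
  ∑' m, x m * mom w I.1 I.2 m

theorem mom_nonneg {w : ℝ → ℝ} {a b : ℝ} (ha : 0 < a) (hab : a ≤ b)
    (hpos : ∀ u ∈ Icc a b, 0 ≤ w u) (m : ℕ) : 0 ≤ mom w a b m :=
  intervalIntegral.integral_nonneg hab fun u hu =>
    mul_nonneg (hpos u hu) (pow_nonneg (ha.le.trans hu.1) _)

theorem mom_le {w : ℝ → ℝ} {a b : ℝ} (ha : 0 < a) (hab : a ≤ b)
    (hw : ContinuousOn w (Icc a b)) (hpos : ∀ u ∈ Icc a b, 0 ≤ w u) (m : ℕ) :
    mom w a b m ≤ b ^ m * mom w a b 0 := by
  have hI : ∀ n : ℕ, IntervalIntegrable (fun u => w u * u ^ n) volume a b := fun n =>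
    ContinuousOn.intervalIntegrable (by
      rw [uIcc_of_le hab]
      exact hw.mul (continuous_pow n).continuousOn)
  unfold mom
  rw [← intervalIntegral.integral_const_mul]
  refine intervalIntegral.integral_mono_on hab (hI m) ((hI 0).const_mul _) fun u hu => ?_
  simp only [pow_zero, mul_one]
  rw [mul_comm]
  exact mul_le_mul_of_nonneg_right (pow_le_pow_left₀ (ha.le.trans hu.1) hu.2 m) (hpos u hu)

theorem summable_Lf {w : ℝ → ℝ} {a b : ℝ} (ha : 0 < a) (hab : a ≤ b)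
    (hw : ContinuousOn w (Icc a b)) (hpos : ∀ u ∈ Icc a b, 0 ≤ w u) {x : ℕ → ℝ} {ρ B : ℝ}
    (hbρ : b ≤ ρ / 2) (hx : ∀ m, |x m| * ρ ^ m ≤ B) :
    Summable fun m => x m * mom w a b m := by
  refine Summable.of_norm_bounded (g := fun m => (B * mom w a b 0) * (1 / 2) ^ m)
    ((summable_geometric_of_lt_one (by norm_num) (by norm_num)).mul_left _) fun m => ?_
  have h0 := mom_nonneg ha hab hpos m
  have h00 := mom_nonneg ha hab hpos 0
  rw [Real.norm_eq_abs, abs_mul, abs_of_nonneg h0]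
  calc |x m| * mom w a b m ≤ |x m| * (b ^ m * mom w a b 0) :=
        mul_le_mul_of_nonneg_left (mom_le ha hab hw hpos m) (abs_nonneg _)
    _ = (|x m| * b ^ m) * mom w a b 0 := by ring
    _ ≤ (B * (1 / 2) ^ m) * mom w a b 0 :=
        mul_le_mul_of_nonneg_right (coeff_le hx m (ha.le.trans hab) hbρ) h00
    _ = _ := by ring

/-- Interpolation: the coefficient `x_k` in terms of values at `s, 2 s, ..., (k+1) s`. -/
theorem interp {k : ℕ} {lam : Fin (k + 1) → ℝ}
    (hlam : ∀ m ≤ k, ∑ i : Fin (k + 1), lam i * ((i : ℝ) + 1) ^ m = if m = k then 1 else 0)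
    {x : ℕ → ℝ} {ρ B s : ℝ} (hρ : 0 < ρ) (hx : ∀ m, |x m| * ρ ^ m ≤ B) (hs : 0 < s)
    (hs1 : (k + 1) * s ≤ ρ / 2) :
    |x k| * s ^ k ≤ ∑ i : Fin (k + 1), |lam i| * |∑' m, x m * (((i : ℝ) + 1) * s) ^ m|
      + 2 * B * (∑ i : Fin (k + 1), |lam i|) * ((k + 1) / ρ) ^ (k + 1) * s ^ (k + 1) := by
  have hB : 0 ≤ B := (mul_nonneg (abs_nonneg _) (by positivity)).trans (hx 0)
  have hpt : ∀ i : Fin (k + 1), 0 ≤ ((i : ℝ) + 1) * s ∧ ((i : ℝ) + 1) * s ≤ ρ / 2 := by
    intro i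
    have h1 : ((i : ℕ) : ℝ) + 1 ≤ (k : ℝ) + 1 := by
      have : ((i : ℕ) : ℝ) ≤ k := by exact_mod_cast (Nat.lt_succ_iff.mp i.2)
      linarith
    exact ⟨by positivity, (mul_le_mul_of_nonneg_right h1 hs.le).trans hs1⟩
  have hsum : ∀ i : Fin (k + 1), Summable fun m => lam i * (x m * (((i : ℝ) + 1) * s) ^ m) :=
    fun i => (summable_pt hx (hpt i).1 (hpt i).2).mul_left _
  set Λ : ℕ → ℝ := fun m => ∑ i : Fin (k + 1), lam i * ((i : ℝ) + 1) ^ m with hΛ
  have e1 : ∑ i : Fin (k + 1), lam i * ∑' m, x m * (((i : ℝ) + 1) * s) ^ m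
      = ∑' m, x m * s ^ m * Λ m := by
    have e2 : ∀ i : Fin (k + 1), lam i * ∑' m, x m * (((i : ℝ) + 1) * s) ^ m
        = ∑' m, lam i * (x m * (((i : ℝ) + 1) * s) ^ m) := fun i => tsum_mul_left.symm
    rw [Finset.sum_congr rfl fun i _ => e2 i, ← Summable.tsum_finsetSum fun i _ => hsum i]
    refine tsum_congr fun m => ?_
    rw [hΛ]
    simp only
    rw [Finset.mul_sum]
    refine Finset.sum_congr rfl fun i _ => ?_
    rw [mul_pow]; ring
  have hS : Summable fun m => x m * s ^ m * Λ m := by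
    have h1 : Summable fun m => ∑ i : Fin (k + 1), lam i * (x m * (((i : ℝ) + 1) * s) ^ m) :=
      summable_sum fun i _ => hsum i
    refine h1.congr fun m => ?_
    rw [hΛ]
    simp only
    rw [Finset.mul_sum]
    refine Finset.sum_congr rfl fun i _ => ?_
    rw [mul_pow]; ring
  have e3 := hS.sum_add_tsum_nat_add (k + 1)
  have e4 : ∑ m ∈ Finset.range (k + 1), x m * s ^ m * Λ m = x k * s ^ k := by
    rw [Finset.sum_eq_single k]
    · rw [hΛ]; simp only; rw [hlam k le_rfl]; simp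
    · intro m hm hmk
      rw [hΛ]; simp only
      rw [hlam m (Nat.lt_succ_iff.mp (Finset.mem_range.mp hm)), if_neg hmk, mul_zero]
    · intro h; exact absurd (Finset.mem_range.mpr (Nat.lt_succ_self k)) h
  set q : ℝ := (k + 1) * s / ρ with hq
  have hq0 : 0 ≤ q := by positivity
  have hq1 : q ≤ 1 / 2 := by
    rw [hq, div_le_iff₀ hρ]; linarith
  have hΛle : ∀ m, |Λ m| ≤ (∑ i : Fin (k + 1), |lam i|) * ((k : ℝ) + 1) ^ m := by
    intro m
    rw [hΛ]; simp only
    refine (Finset.abs_sum_le_sum_abs _ _).trans ?_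
    rw [Finset.sum_mul]
    refine Finset.sum_le_sum fun i _ => ?_
    rw [abs_mul, abs_of_nonneg (by positivity : (0:ℝ) ≤ ((i : ℝ) + 1) ^ m)]
    refine mul_le_mul_of_nonneg_left (pow_le_pow_left₀ (by positivity) ?_ m) (abs_nonneg _)
    have : ((i : ℕ) : ℝ) ≤ k := by exact_mod_cast (Nat.lt_succ_iff.mp i.2)
    linarith
  have htail : ∀ m, ‖x (m + (k + 1)) * s ^ (m + (k + 1)) * Λ (m + (k + 1))‖
      ≤ (B * (∑ i : Fin (k + 1), |lam i|) * q ^ (k + 1)) * (1 / 2) ^ m := by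
    intro m
    rw [Real.norm_eq_abs, abs_mul, abs_mul, abs_of_nonneg (by positivity : (0:ℝ) ≤ s ^ _)]
    calc |x (m + (k + 1))| * s ^ (m + (k + 1)) * |Λ (m + (k + 1))|
        ≤ |x (m + (k + 1))| * s ^ (m + (k + 1))
            * ((∑ i : Fin (k + 1), |lam i|) * ((k : ℝ) + 1) ^ (m + (k + 1))) :=
          mul_le_mul_of_nonneg_left (hΛle _) (by positivity)
      _ = (|x (m + (k + 1))| * ρ ^ (m + (k + 1))) * (∑ i : Fin (k + 1), |lam i|)
            * q ^ (k + 1) * q ^ m := by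
          rw [hq, mul_assoc _ (_ ^ (k + 1)), ← pow_add, add_comm (k + 1) m, div_pow, mul_pow]
          field_simp
      _ ≤ (B * (∑ i : Fin (k + 1), |lam i|) * q ^ (k + 1)) * (1 / 2) ^ m := by
          refine mul_le_mul ?_ (pow_le_pow_left₀ hq0 hq1 m) (by positivity) ?_
          · refine mul_le_mul_of_nonneg_right ?_ (by positivity)
            exact mul_le_mul_of_nonneg_right (hx _) (Finset.sum_nonneg fun i _ => abs_nonneg _)
          · exact mul_nonneg (mul_nonneg hB (Finset.sum_nonneg fun i _ => abs_nonneg _))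
              (by positivity)
  have h5 : |∑' m, x (m + (k + 1)) * s ^ (m + (k + 1)) * Λ (m + (k + 1))|
      ≤ 2 * B * (∑ i : Fin (k + 1), |lam i|) * ((k + 1) / ρ) ^ (k + 1) * s ^ (k + 1) := by
    rw [← Real.norm_eq_abs]
    refine (tsum_of_norm_bounded
      ((hasSum_geometric_of_lt_one (by norm_num) (by norm_num)).mul_left _) htail).trans
      (le_of_eq ?_)
    rw [hq, mul_div_right_comm, mul_pow]
    norm_num
    ring
  rw [e4] at e3
  have h6 : x k * s ^ k = (∑ i : Fin (k + 1), lam i * ∑' m, x m * (((i : ℝ) + 1) * s) ^ m)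
      - ∑' m, x (m + (k + 1)) * s ^ (m + (k + 1)) * Λ (m + (k + 1)) := by
    rw [e1]; linarith
  have h7 : |x k| * s ^ k = |x k * s ^ k| := by
    rw [abs_mul, abs_of_nonneg (by positivity : (0:ℝ) ≤ s ^ k)]
  rw [h7, h6]
  refine (abs_sub _ _).trans (add_le_add ?_ h5)
  refine (Finset.abs_sum_le_sum_abs _ _).trans (le_of_eq ?_)
  exact Finset.sum_congr rfl fun i _ => abs_mul _ _

/-- The value at a point is close to the average over a short interval. -/
theorem value_close {w : ℝ → ℝ} {a b : ℝ} (ha : 0 < a) (hab : a < b)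
    (hw : ContinuousOn w (Icc a b)) (hpos : ∀ u ∈ Icc a b, 0 < w u) {x : ℕ → ℝ} {ρ B : ℝ}
    (hρ : 0 < ρ) (hbρ : b ≤ ρ / 2) (hx : ∀ m, |x m| * ρ ^ m ≤ B) :
    |∑' m, x m * a ^ m| ≤ |Lf w (a, b) x| / mom w a b 0 + 2 * B * (b - a) / a := by
  have hposle : ∀ u ∈ Icc a b, 0 ≤ w u := fun u hu => (hpos u hu).le
  have hM := mom_zero_pos hab hw hpos
  have hB : 0 ≤ B := (mul_nonneg (abs_nonneg _) (by positivity)).trans (hx 0)
  have hS1 := summable_pt hx ha.le (hab.le.trans hbρ)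
  have hS2 := summable_Lf ha hab.le hw hposle hbρ hx
  have hb : 0 < b := ha.trans hab
  have key : |Lf w (a, b) x - mom w a b 0 * ∑' m, x m * a ^ m|
      ≤ mom w a b 0 * (2 * B * (b - a) / a) := by
    have e1 : Lf w (a, b) x - mom w a b 0 * ∑' m, x m * a ^ m
        = ∑' m, x m * (mom w a b m - a ^ m * mom w a b 0) := by
      unfold Lf
      rw [← tsum_mul_left, ← (hS2.tsum_sub (hS1.mul_left (mom w a b 0)))]
      refine tsum_congr fun m => ?_
      ring
    have hterm : ∀ m, ‖x m * (mom w a b m - a ^ m * mom w a b 0)‖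
        ≤ (B * (b - a) / b * mom w a b 0) * ((m : ℝ) * (1 / 2) ^ m) := by
      intro m
      rw [Real.norm_eq_abs, abs_mul]
      rcases Nat.eq_zero_or_pos m with rfl | hm
      · simp
      · have h3 := mom_close ha hab.le hw hposle m
        have h4 : |x m| * b ^ m ≤ B * (1 / 2) ^ m := coeff_le hx m hb.le hbρ
        have h5 : b ^ (m - 1) = b ^ m / b := by
          rw [eq_div_iff hb.ne', ← pow_succ, Nat.sub_add_cancel hm]
        calc |x m| * |mom w a b m - a ^ m * mom w a b 0|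
            ≤ |x m| * ((b - a) * m * b ^ (m - 1) * mom w a b 0) :=
              mul_le_mul_of_nonneg_left h3 (abs_nonneg _)
          _ = (|x m| * b ^ m) * ((b - a) / b * m * mom w a b 0) := by rw [h5]; ring
          _ ≤ (B * (1 / 2) ^ m) * ((b - a) / b * m * mom w a b 0) := by
              refine mul_le_mul_of_nonneg_right h4 ?_
              have : 0 ≤ (b - a) / b := div_nonneg (by linarith) hb.le
              positivity
          _ = _ := by ring
    rw [e1, ← Real.norm_eq_abs]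
    refine (tsum_of_norm_bounded (summable_half _).hasSum hterm).trans ?_
    rw [tsum_mul_left, tsum_half]
    have h7 : (b - a) / b ≤ (b - a) / a := div_le_div_of_nonneg_left (by linarith) ha hab.le
    have h8 : B * ((b - a) / b) ≤ B * ((b - a) / a) := mul_le_mul_of_nonneg_left h7 hB
    calc B * (b - a) / b * mom w a b 0 * 2 = mom w a b 0 * (2 * (B * ((b - a) / b))) := by ring
      _ ≤ mom w a b 0 * (2 * (B * ((b - a) / a))) :=
          mul_le_mul_of_nonneg_left (by linarith) hM.le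
      _ = _ := by ring
  have h9 : mom w a b 0 * |∑' m, x m * a ^ m|
      ≤ |Lf w (a, b) x| + mom w a b 0 * (2 * B * (b - a) / a) := by
    have : mom w a b 0 * |∑' m, x m * a ^ m| = |mom w a b 0 * ∑' m, x m * a ^ m| := by
      rw [abs_mul, abs_of_pos hM]
    rw [this]
    have h10 := abs_sub_abs_le_abs_sub (mom w a b 0 * ∑' m, x m * a ^ m) (Lf w (a, b) x)
    rw [abs_sub_comm] at h10
    linarith
  have h11 : |∑' m, x m * a ^ m|
      ≤ (|Lf w (a, b) x| + mom w a b 0 * (2 * B * (b - a) / a)) / mom w a b 0 := by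
    rw [le_div_iff₀ hM, mul_comm]; exact h9
  refine h11.trans (le_of_eq ?_)
  field_simp

/-- One coefficient, up to `η`, from finitely many intervals. -/
theorem extract_one {w : ℝ → ℝ} {r1 ρ B η : ℝ} (hr1 : 0 < r1) (hρ : 0 < ρ) (hB : 0 ≤ B)
    (hη : 0 < η) (hw : ContinuousOn w (Ioo 0 r1)) (hpos : ∀ u ∈ Ioo 0 r1, 0 < w u) (k : ℕ) :
    ∃ S : Finset (ℝ × ℝ), ∃ C : ℝ, 0 ≤ C ∧
      (∀ I ∈ S, 0 < I.1 ∧ I.1 < I.2 ∧ I.2 < r1 ∧ I.2 ≤ ρ / 2) ∧
      ∀ x : ℕ → ℝ, (∀ m, |x m| * ρ ^ m ≤ B) → |x k| ≤ C * ∑ I ∈ S, |Lf w I x| + η := by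
  classical
  obtain ⟨lam, hlam⟩ := exists_weights k k le_rfl
  set Λ0 : ℝ := ∑ i : Fin (k + 1), |lam i| with hΛ0
  have hΛ0n : 0 ≤ Λ0 := Finset.sum_nonneg fun i _ => abs_nonneg _
  set D : ℝ := 2 * B * Λ0 * ((k + 1) / ρ) ^ (k + 1) with hD
  have hDn : 0 ≤ D := by positivity
  -- the step `s`
  set r0 : ℝ := min r1 (ρ / 2) with hr0
  have hr0p : 0 < r0 := lt_min hr1 (by positivity)
  obtain ⟨s, hs0, hs1, hs2⟩ : ∃ s : ℝ, 0 < s ∧ ((k : ℝ) + 2) * s ≤ r0 ∧ D * s ≤ η / 2 := by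
    refine ⟨min (r0 / ((k : ℝ) + 2)) (η / (2 * (D + 1))), ?_, ?_, ?_⟩
    · exact lt_min (by positivity) (by positivity)
    · calc ((k : ℝ) + 2) * min (r0 / ((k : ℝ) + 2)) (η / (2 * (D + 1)))
          ≤ ((k : ℝ) + 2) * (r0 / ((k : ℝ) + 2)) :=
            mul_le_mul_of_nonneg_left (min_le_left _ _) (by positivity)
        _ = r0 := by field_simp
    · calc D * min (r0 / ((k : ℝ) + 2)) (η / (2 * (D + 1)))
          ≤ D * (η / (2 * (D + 1))) := mul_le_mul_of_nonneg_left (min_le_right _ _) hDn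
        _ ≤ (D + 1) * (η / (2 * (D + 1))) :=
            mul_le_mul_of_nonneg_right (by linarith) (by positivity)
        _ = η / 2 := by field_simp
  -- the width `h`
  set E : ℝ := 2 * B * Λ0 / (s * s ^ k) with hE
  have hEn : 0 ≤ E := by positivity
  obtain ⟨h, hh0, hh1, hh2⟩ : ∃ h : ℝ, 0 < h ∧ h < s ∧ E * h ≤ η / 2 := by
    refine ⟨min (s / 2) (η / (2 * (E + 1))), lt_min (by positivity) (by positivity),
      (min_le_left _ _).trans_lt (by linarith), ?_⟩
    calc E * min (s / 2) (η / (2 * (E + 1)))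
        ≤ E * (η / (2 * (E + 1))) := mul_le_mul_of_nonneg_left (min_le_right _ _) hEn
      _ ≤ (E + 1) * (η / (2 * (E + 1))) :=
          mul_le_mul_of_nonneg_right (by linarith) (by positivity)
      _ = η / 2 := by field_simp
  have hnode : ∀ i : Fin (k + 1), s ≤ ((i : ℝ) + 1) * s ∧ ((i : ℝ) + 1) * s + h < r0 := by
    intro i
    have h1 : ((i : ℕ) : ℝ) ≤ k := by exact_mod_cast (Nat.lt_succ_iff.mp i.2)
    have h0 : (0 : ℝ) ≤ ((i : ℕ) : ℝ) := Nat.cast_nonneg _
    constructor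
    · nlinarith
    · nlinarith
  set J : Fin (k + 1) → ℝ × ℝ := fun i => (((i : ℝ) + 1) * s, ((i : ℝ) + 1) * s + h) with hJ
  have hJ1 : ∀ i, 0 < (J i).1 ∧ (J i).1 < (J i).2 ∧ (J i).2 < r1 ∧ (J i).2 ≤ ρ / 2 := by
    intro i
    obtain ⟨h1, h2⟩ := hnode i
    refine ⟨by simp only [hJ]; linarith, by simp only [hJ]; linarith, ?_, ?_⟩
    · exact h2.trans_le (min_le_left _ _)
    · exact (h2.le).trans (min_le_right _ _)
  have hwc : ∀ i, ContinuousOn w (Icc (J i).1 (J i).2) := fun i => hw.mono fun u hu =>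
    ⟨(hJ1 i).1.trans_le hu.1, hu.2.trans_lt (hJ1 i).2.2.1⟩
  have hwp : ∀ i, ∀ u ∈ Icc (J i).1 (J i).2, 0 < w u := fun i u hu =>
    hpos u ⟨(hJ1 i).1.trans_le hu.1, hu.2.trans_lt (hJ1 i).2.2.1⟩
  have hmp : ∀ i, 0 < mom w (J i).1 (J i).2 0 := fun i =>
    mom_zero_pos (hJ1 i).2.1 (hwc i) (hwp i)
  refine ⟨Finset.univ.image J,
    (∑ i : Fin (k + 1), |lam i| / mom w (J i).1 (J i).2 0) / s ^ k, ?_, ?_, ?_⟩
  · exact div_nonneg (Finset.sum_nonneg fun i _ => div_nonneg (abs_nonneg _) (hmp i).le)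
      (by positivity)
  · intro I hI
    obtain ⟨i, -, rfl⟩ := Finset.mem_image.mp hI
    exact hJ1 i
  · intro x hx
    have hs3 : ((k : ℝ) + 1) * s ≤ ρ / 2 := by
      have := hs1.trans (min_le_right r1 (ρ / 2))
      nlinarith
    have h1 := interp hlam hρ hx hs0 hs3
    have hv : ∀ i : Fin (k + 1), |∑' m, x m * (((i : ℝ) + 1) * s) ^ m|
        ≤ |Lf w (J i) x| / mom w (J i).1 (J i).2 0 + 2 * B * h / s := by
      intro i
      have h2 := value_close (hJ1 i).1 (hJ1 i).2.1 (hwc i) (hwp i) hρ (hJ1 i).2.2.2 hx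
      have h3 : 2 * B * ((J i).2 - (J i).1) / (J i).1 ≤ 2 * B * h / s := by
        have h4 : (J i).2 - (J i).1 = h := by simp only [hJ]; ring
        rw [h4]
        exact div_le_div_of_nonneg_left (by positivity) hs0 (by simp only [hJ]; exact (hnode i).1)
      exact h2.trans (by linarith)
    set T : ℝ := ∑ I ∈ Finset.univ.image J, |Lf w I x| with hT
    have hTi : ∀ i, |Lf w (J i) x| ≤ T := fun i =>
      Finset.single_le_sum (f := fun I => |Lf w I x|) (fun _ _ => abs_nonneg _)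
        (Finset.mem_image_of_mem J (Finset.mem_univ i))
    have h5 : ∑ i : Fin (k + 1), |lam i| * |∑' m, x m * (((i : ℝ) + 1) * s) ^ m|
        ≤ (∑ i : Fin (k + 1), |lam i| / mom w (J i).1 (J i).2 0) * T
          + Λ0 * (2 * B * h / s) := by
      rw [Finset.sum_mul, hΛ0, Finset.sum_mul, ← Finset.sum_add_distrib]
      refine Finset.sum_le_sum fun i _ => ?_
      calc |lam i| * |∑' m, x m * (((i : ℝ) + 1) * s) ^ m|
          ≤ |lam i| * (|Lf w (J i) x| / mom w (J i).1 (J i).2 0 + 2 * B * h / s) :=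
            mul_le_mul_of_nonneg_left (hv i) (abs_nonneg _)
        _ ≤ |lam i| * (T / mom w (J i).1 (J i).2 0 + 2 * B * h / s) := by
            refine mul_le_mul_of_nonneg_left (add_le_add ?_ le_rfl) (abs_nonneg _)
            exact div_le_div_of_nonneg_right (hTi i) (hmp i).le
        _ = _ := by ring
    have hsk : 0 < s ^ k := by positivity
    have h6 : |x k| ≤ ((∑ i : Fin (k + 1), |lam i| / mom w (J i).1 (J i).2 0) * T
          + Λ0 * (2 * B * h / s) + D * s ^ (k + 1)) / s ^ k := by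
      rw [le_div_iff₀ hsk]
      refine h1.trans ?_
      rw [hD]
      have := h5
      linarith
    refine h6.trans (le_of_eq_of_le ?_ (add_le_add (le_refl
      ((∑ i : Fin (k + 1), |lam i| / mom w (J i).1 (J i).2 0) / s ^ k * T))
      (add_le_add hh2 hs2) |>.trans (le_of_eq (by ring))))
    rw [hE, pow_succ]
    field_simp
    ring

/-- Pointwise form: the first `N + 1` coefficients, up to `η`, from the values at the nodes
`s, 2 s, ..., (N + 1) s`, for every small `s`. -/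
theorem extract_pts (N : ℕ) {ρ B η : ℝ} (hρ : 0 < ρ) (hB : 0 ≤ B) (hη : 0 < η) :
    ∃ Λ : ℝ, 0 ≤ Λ ∧ ∃ s0 : ℝ, 0 < s0 ∧ s0 ≤ 1 ∧ (N + 1) * s0 ≤ ρ / 2 ∧
      ∀ s : ℝ, 0 < s → s ≤ s0 → ∀ x : ℕ → ℝ, (∀ m, |x m| * ρ ^ m ≤ B) → ∀ k ≤ N,
        |x k| ≤ Λ / s ^ N * (∑ i ∈ Finset.range (N + 1), |∑' m, x m * (((i : ℝ) + 1) * s) ^ m|)
          + η := by
  choose lam hlam using fun k : ℕ => exists_weights k k le_rfl
  set L : ℕ → ℝ := fun k => ∑ i : Fin (k + 1), |lam k i| with hL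
  have hLn : ∀ k, 0 ≤ L k := fun k => Finset.sum_nonneg fun i _ => abs_nonneg _
  set Λ : ℝ := ∑ k ∈ Finset.range (N + 1), L k with hΛ
  have hΛn : 0 ≤ Λ := Finset.sum_nonneg fun k _ => hLn k
  set D : ℝ := ∑ k ∈ Finset.range (N + 1), 2 * B * L k * ((k + 1) / ρ) ^ (k + 1) with hD
  have hDn : 0 ≤ D := Finset.sum_nonneg fun k _ => by
    have := hLn k
    positivity
  refine ⟨Λ, hΛn, min 1 (min (ρ / 2 / ((N : ℝ) + 1)) (η / (D + 1))), ?_, min_le_left _ _, ?_, ?_⟩
  · exact lt_min one_pos (lt_min (by positivity) (by positivity))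
  · calc ((N : ℝ) + 1) * min 1 (min (ρ / 2 / ((N : ℝ) + 1)) (η / (D + 1)))
        ≤ ((N : ℝ) + 1) * (ρ / 2 / ((N : ℝ) + 1)) :=
          mul_le_mul_of_nonneg_left ((min_le_right _ _).trans (min_le_left _ _)) (by positivity)
      _ = ρ / 2 := by field_simp
  · intro s hs0 hs x hx k hk
    have hs1 : s ≤ 1 := hs.trans (min_le_left _ _)
    have hs2 : s ≤ ρ / 2 / ((N : ℝ) + 1) := hs.trans ((min_le_right _ _).trans (min_le_left _ _))
    have hs3 : s ≤ η / (D + 1) := hs.trans ((min_le_right _ _).trans (min_le_right _ _))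
    have hk' : ((k : ℕ) : ℝ) ≤ N := by exact_mod_cast hk
    have hks : ((k : ℝ) + 1) * s ≤ ρ / 2 := by
      calc ((k : ℝ) + 1) * s ≤ ((N : ℝ) + 1) * (ρ / 2 / ((N : ℝ) + 1)) :=
            mul_le_mul (by linarith) hs2 hs0.le (by positivity)
        _ = ρ / 2 := by field_simp
    have h1 := interp (hlam k) hρ hx hs0 hks
    set V : ℕ → ℝ := fun i => |∑' m, x m * (((i : ℝ) + 1) * s) ^ m| with hV
    set T : ℝ := ∑ i ∈ Finset.range (N + 1), V i with hT
    have hTn : 0 ≤ T := Finset.sum_nonneg fun i _ => abs_nonneg _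
    have hVi : ∀ i : Fin (k + 1), V i ≤ T := fun i =>
      Finset.single_le_sum (f := V) (fun _ _ => abs_nonneg _)
        (Finset.mem_range.mpr (by have := i.2; omega))
    have h2 : ∑ i : Fin (k + 1), |lam k i| * V i ≤ L k * T := by
      rw [hL]; simp only
      rw [Finset.sum_mul]
      exact Finset.sum_le_sum fun i _ => mul_le_mul_of_nonneg_left (hVi i) (abs_nonneg _)
    have hLk : L k ≤ Λ := Finset.single_le_sum (f := L) (fun i _ => hLn i)
      (Finset.mem_range.mpr (by omega))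
    have hDk : 2 * B * L k * ((k + 1) / ρ) ^ (k + 1) ≤ D :=
      Finset.single_le_sum (f := fun k : ℕ => 2 * B * L k * ((k + 1) / ρ) ^ (k + 1))
        (fun i _ => by have := hLn i; positivity) (Finset.mem_range.mpr (by omega))
    have hsk : 0 < s ^ k := by positivity
    have h3 : |x k| ≤ L k * T / s ^ k + 2 * B * L k * ((k + 1) / ρ) ^ (k + 1) * s := by
      have h4 : |x k| * s ^ k
          ≤ (L k * T / s ^ k + 2 * B * L k * ((k + 1) / ρ) ^ (k + 1) * s) * s ^ k := by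
        refine h1.trans ?_
        rw [add_mul, div_mul_cancel₀ _ hsk.ne', mul_assoc _ s, ← pow_succ' s k]
        exact add_le_add h2 le_rfl
      exact le_of_mul_le_mul_right h4 hsk
    refine h3.trans (add_le_add ?_ ?_)
    · have h5 : L k * T / s ^ k ≤ Λ * T / s ^ N := by
        have h6 : s ^ N ≤ s ^ k := pow_le_pow_of_le_one hs0.le hs1 hk
        exact div_le_div₀ (mul_nonneg hΛn hTn) (mul_le_mul_of_nonneg_right hLk hTn)
          (by positivity) h6
      refine h5.trans (le_of_eq ?_)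
      ring
    · calc 2 * B * L k * ((k + 1) / ρ) ^ (k + 1) * s ≤ D * (η / (D + 1)) :=
            mul_le_mul hDk hs3 hs0.le hDn
        _ ≤ (D + 1) * (η / (D + 1)) := mul_le_mul_of_nonneg_right (by linarith) (by positivity)
        _ = η := by field_simp

/-- The first `N + 1` coefficients, up to `η`, from finitely many intervals. -/
theorem extract {w : ℝ → ℝ} {r1 ρ B η : ℝ} (hr1 : 0 < r1) (hρ : 0 < ρ) (hB : 0 ≤ B)
    (hη : 0 < η) (hw : ContinuousOn w (Ioo 0 r1)) (hpos : ∀ u ∈ Ioo 0 r1, 0 < w u) (N : ℕ) :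
    ∃ S : Finset (ℝ × ℝ), ∃ C : ℝ, 0 ≤ C ∧
      (∀ I ∈ S, 0 < I.1 ∧ I.1 < I.2 ∧ I.2 < r1 ∧ I.2 ≤ ρ / 2) ∧
      ∀ x : ℕ → ℝ, (∀ m, |x m| * ρ ^ m ≤ B) → ∀ k ≤ N,
        |x k| ≤ C * ∑ I ∈ S, |Lf w I x| + η := by
  classical
  choose S C hC hS hx using fun k : ℕ => extract_one hr1 hρ hB hη hw hpos k
  refine ⟨(Finset.range (N + 1)).biUnion S, ∑ k ∈ Finset.range (N + 1), C k,
    Finset.sum_nonneg fun k _ => hC k, ?_, ?_⟩
  · intro I hI
    obtain ⟨k, -, hk⟩ := Finset.mem_biUnion.mp hI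
    exact hS k I hk
  · intro x hb k hk
    have hk' : k ∈ Finset.range (N + 1) := Finset.mem_range.mpr (by omega)
    refine (hx k x hb).trans (add_le_add ?_ le_rfl)
    have h1 : C k ≤ ∑ k ∈ Finset.range (N + 1), C k :=
      Finset.single_le_sum (f := C) (fun i _ => hC i) hk'
    have h2 : ∑ I ∈ S k, |Lf w I x| ≤ ∑ I ∈ (Finset.range (N + 1)).biUnion S, |Lf w I x| :=
      Finset.sum_le_sum_of_subset_of_nonneg (Finset.subset_biUnion_of_mem S hk')
        fun _ _ _ => abs_nonneg _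
    exact mul_le_mul h1 h2 (Finset.sum_nonneg fun _ _ => abs_nonneg _)
      (Finset.sum_nonneg fun k _ => hC k)

end Pool.Agent.H66.M7
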