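import Pool.Agent.H66.M7.Coef
import Pool.Agent.H66.M7.Alg

/-!
# The germ of `κ = (ψ' / (W - ψ))^(1/3)` at the target

`ψ(u) = -1/u + A(u)` near `u = 0`, `A` holomorphic, `A 0 = 0`, real on the reals; then
`u^(1/3) κ(u)` is an analytic function whose coefficients up to order 4 are `kk1, ..., kk4`.
-/

namespace Pool.Agent.H66.M7

open Complex Metric Asymptotics Filter Topology Set
open scoped ComplexConjugate

/-- The regular part of a map `ψ(u) = -1/u + A(u)`. -/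
structure Germ (l a0 : ℝ) (A : ℂ → ℂ) : Prop where
  diff : DifferentiableOn ℂ A (ball 0 l)
  zero : A 0 = 0
  conj' : ∀ z ∈ ball (0 : ℂ) l, A (conj z) = conj (A z)
  bound : ∀ z ∈ ball (0 : ℂ) l, ‖A z‖ ≤ a0

/-- numerator -/
noncomputable def Nm (A : ℂ → ℂ) (z : ℂ) : ℂ := 1 + z ^ 2 * deriv A z
/-- denominator -/
noncomputable def Dn (A : ℂ → ℂ) (W : ℝ) (z : ℂ) : ℂ := 1 + W * z - z * A z
/-- the cube root -/
noncomputable def Kg (A : ℂ → ℂ) (W : ℝ) (z : ℂ) : ℂ := (Nm A z / Dn A W z) ^ (((3 : ℕ) : ℂ)⁻¹)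
/-- real Taylor coefficients of the cube root -/
noncomputable def kc (A : ℂ → ℂ) (W : ℝ) (m : ℕ) : ℝ := (tc (Kg A W) m).re
/-- real Taylor coefficients of the regular part -/
noncomputable def rc (A : ℂ → ℂ) (m : ℕ) : ℝ := (tc A m).re
/-- the map on the real axis -/
noncomputable def psr (A : ℂ → ℂ) (u : ℝ) : ℝ := -1 / u + (A u).re
/-- its derivative -/
noncomputable def psd (A : ℂ → ℂ) (u : ℝ) : ℝ := 1 / u ^ 2 + (deriv A u).re
/-- the density -/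
noncomputable def kap (A : ℂ → ℂ) (W u : ℝ) : ℝ := (psd A u / (W - psr A u)) ^ (1 / 3 : ℝ)

namespace Germ

variable {l a0 : ℝ} {A : ℂ → ℂ}

theorem a0_nonneg (h : Germ l a0 A) (hl : 0 < l) : 0 ≤ a0 :=
  (norm_nonneg _).trans (h.bound 0 (mem_ball_self hl))

theorem deriv_le (h : Germ l a0 A) (hl : 0 < l) {z : ℂ} (hz : z ∈ ball (0 : ℂ) (l / 2)) :
    ‖deriv A z‖ ≤ 4 * a0 / l := by
  have h4 : 0 < l / 4 := by positivity
  have hsub : closedBall z (l / 4) ⊆ ball 0 l := by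
    intro w hw
    rw [mem_closedBall, dist_eq_norm] at hw
    rw [mem_ball_zero_iff] at hz ⊢
    have : ‖w‖ ≤ ‖w - z‖ + ‖z‖ := by simpa using norm_add_le (w - z) z
    linarith
  have h1 : DiffContOnCl ℂ A (ball z (l / 4)) :=
    (h.diff.mono (by rw [closure_ball _ h4.ne']; exact hsub)).diffContOnCl
  have h2 := Complex.norm_deriv_le_of_forall_mem_sphere_norm_le h4 h1
    (fun w hw => h.bound w (hsub (sphere_subset_closedBall hw)))
  refine h2.trans (le_of_eq ?_)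
  field_simp

/-- The radius. -/
theorem exists_rho (l a0 M : ℝ) (hl : 0 < l) (ha : 0 ≤ a0) (hM : 0 ≤ M) :
    ∃ ρ : ℝ, 0 < ρ ∧ ρ ≤ l / 2 ∧ ρ ≤ 1 ∧ ρ * (4 * a0 / l) ≤ 1 / 4 ∧ ρ * (M + a0) ≤ 1 / 4 := by
  refine ⟨min (l / 2) (min 1 (min (1 / (4 * (4 * a0 / l + 1))) (1 / (4 * (M + a0 + 1))))),
    ?_, min_le_left _ _, (min_le_right _ _).trans (min_le_left _ _), ?_, ?_⟩
  · exact lt_min (by positivity) (lt_min one_pos (lt_min (by positivity) (by positivity)))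
  · have h1 : 0 ≤ 4 * a0 / l := by positivity
    calc min (l / 2) (min 1 (min (1 / (4 * (4 * a0 / l + 1))) (1 / (4 * (M + a0 + 1)))))
          * (4 * a0 / l) ≤ 1 / (4 * (4 * a0 / l + 1)) * (4 * a0 / l + 1) :=
          mul_le_mul ((min_le_right _ _).trans ((min_le_right _ _).trans (min_le_left _ _)))
            (by linarith) h1 (by positivity)
      _ = 1 / 4 := by
          have : 4 * a0 / l + 1 ≠ 0 := by positivity
          field_simp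
  · calc min (l / 2) (min 1 (min (1 / (4 * (4 * a0 / l + 1))) (1 / (4 * (M + a0 + 1)))))
          * (M + a0) ≤ 1 / (4 * (M + a0 + 1)) * (M + a0 + 1) :=
          mul_le_mul ((min_le_right _ _).trans ((min_le_right _ _).trans (min_le_right _ _)))
            (by linarith) (by positivity) (by positivity)
      _ = 1 / 4 := by
          have : M + a0 + 1 ≠ 0 := by positivity
          field_simp

variable {M ρ W : ℝ}

theorem Nm_close (h : Germ l a0 A) (hl : 0 < l) (hρ0 : 0 < ρ) (hρl : ρ ≤ l / 2) (hρ1 : ρ ≤ 1)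
    (hρa : ρ * (4 * a0 / l) ≤ 1 / 4) {z : ℂ} (hz : z ∈ ball (0 : ℂ) ρ) :
    ‖Nm A z - 1‖ ≤ 1 / 4 := by
  have hz' := mem_ball_zero_iff.mp hz
  have h1 := h.deriv_le hl (ball_subset_ball hρl hz)
  have h2 : Nm A z - 1 = z ^ 2 * deriv A z := by unfold Nm; ring
  rw [h2, norm_mul, norm_pow]
  have h3 : ‖z‖ ^ 2 ≤ ρ := by nlinarith [norm_nonneg z]
  have h4 := h.a0_nonneg hl
  exact (mul_le_mul h3 h1 (norm_nonneg _) hρ0.le).trans hρa

theorem Dn_close (h : Germ l a0 A) (hρ0 : 0 < ρ) (hρl : ρ ≤ l / 2) (hl : 0 < l)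
    (hρM : ρ * (M + a0) ≤ 1 / 4) (hW : |W| ≤ M) {z : ℂ} (hz : z ∈ ball (0 : ℂ) ρ) :
    ‖Dn A W z - 1‖ ≤ 1 / 4 := by
  have hz' := mem_ball_zero_iff.mp hz
  have h1 := h.bound z (ball_subset_ball (by linarith) hz)
  have h2 : Dn A W z - 1 = z * (W - A z) := by unfold Dn; ring
  rw [h2, norm_mul]
  have h3 : ‖(W : ℂ) - A z‖ ≤ M + a0 := by
    refine (norm_sub_le _ _).trans (add_le_add ?_ h1)
    simpa using hW
  have h4 := h.a0_nonneg hl
  have h5 : 0 ≤ M := (abs_nonneg _).trans hW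
  exact (mul_le_mul hz'.le h3 (norm_nonneg _) hρ0.le).trans hρM

theorem Dn_ne {d : ℂ} (h : ‖d - 1‖ ≤ 1 / 4) : 3 / 4 ≤ ‖d‖ ∧ d ≠ 0 := by
  have h1 : ‖(1 : ℂ)‖ ≤ ‖d‖ + ‖d - 1‖ := by
    have := norm_sub_le d (d - 1)
    simpa using this
  rw [norm_one] at h1
  have h2 : 3 / 4 ≤ ‖d‖ := by linarith
  refine ⟨h2, fun h0 => ?_⟩
  rw [h0, norm_zero] at h2
  norm_num at h2

theorem ratio_close {n d : ℂ} (hn : ‖n - 1‖ ≤ 1 / 4) (hd : ‖d - 1‖ ≤ 1 / 4) :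
    ‖n / d - 1‖ ≤ 2 / 3 := by
  obtain ⟨h1, h2⟩ := Dn_ne hd
  have h3 : n / d - 1 = ((n - 1) - (d - 1)) / d := by field_simp; ring
  rw [h3, norm_div, div_le_iff₀ (by linarith)]
  have h4 := norm_sub_le (n - 1) (d - 1)
  nlinarith

theorem ratio_slit {x : ℂ} (hx : ‖x - 1‖ ≤ 2 / 3) : x ∈ slitPlane ∧ ‖x‖ ≤ 5 / 3 := by
  constructor
  · left
    have h1 := (abs_re_le_norm (x - 1)).trans hx
    rw [sub_re, one_re] at h1
    have := (abs_le.mp h1).1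
    linarith
  · have : ‖x‖ ≤ ‖x - 1‖ + ‖(1 : ℂ)‖ := by simpa using norm_add_le (x - 1) 1
    rw [norm_one] at this
    linarith

theorem cube {x : ℂ} : (x ^ (((3 : ℕ) : ℂ)⁻¹)) ^ 3 = x := Complex.cpow_nat_inv_pow x (by norm_num)

theorem differentiableOn_Kg (h : Germ l a0 A) (hl : 0 < l) (hρ0 : 0 < ρ) (hρl : ρ ≤ l / 2)
    (hρ1 : ρ ≤ 1) (hρa : ρ * (4 * a0 / l) ≤ 1 / 4) (hρM : ρ * (M + a0) ≤ 1 / 4) (hW : |W| ≤ M) :
    DifferentiableOn ℂ (Kg A W) (ball 0 ρ) := by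
  have hsub : ball (0 : ℂ) ρ ⊆ ball 0 l := ball_subset_ball (by linarith)
  have hN : DifferentiableOn ℂ (Nm A) (ball 0 ρ) := by
    have h1 : DifferentiableOn ℂ (deriv A) (ball 0 l) := h.diff.deriv isOpen_ball
    exact ((differentiableOn_id.pow 2).mul (h1.mono hsub)).const_add 1
  have hD : DifferentiableOn ℂ (Dn A W) (ball 0 ρ) := by
    have h1 : DifferentiableOn ℂ (fun z : ℂ => 1 + (W : ℂ) * z) (ball 0 ρ) :=
      (differentiableOn_id.const_mul _).const_add _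
    exact h1.sub (differentiableOn_id.mul (h.diff.mono hsub))
  refine (hN.div hD fun z hz => (Dn_ne (h.Dn_close hρ0 hρl hl hρM hW hz)).2).cpow_const
    fun z hz => ?_
  exact (ratio_slit (ratio_close (h.Nm_close hl hρ0 hρl hρ1 hρa hz)
    (h.Dn_close hρ0 hρl hl hρM hW hz))).1

theorem Kg_le (h : Germ l a0 A) (hl : 0 < l) (hρ0 : 0 < ρ) (hρl : ρ ≤ l / 2)
    (hρ1 : ρ ≤ 1) (hρa : ρ * (4 * a0 / l) ≤ 1 / 4) (hρM : ρ * (M + a0) ≤ 1 / 4) (hW : |W| ≤ M)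
    {z : ℂ} (hz : z ∈ ball (0 : ℂ) ρ) : ‖Kg A W z‖ ≤ 2 := by
  have h1 := (ratio_slit (ratio_close (h.Nm_close hl hρ0 hρl hρ1 hρa hz)
    (h.Dn_close hρ0 hρl hl hρM hW hz))).2
  have h2 : ‖Kg A W z‖ ^ 3 ≤ 2 ^ 3 := by
    rw [← norm_pow]
    unfold Kg
    rw [cube]
    linarith
  exact le_of_pow_le_pow_left₀ (by norm_num) (by norm_num) h2

theorem kc_le (h : Germ l a0 A) (hl : 0 < l) (hρ0 : 0 < ρ) (hρl : ρ ≤ l / 2)
    (hρ1 : ρ ≤ 1) (hρa : ρ * (4 * a0 / l) ≤ 1 / 4) (hρM : ρ * (M + a0) ≤ 1 / 4) (hW : |W| ≤ M)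
    (m : ℕ) : |kc A W m| * ρ ^ m ≤ 2 := by
  have h1 := tc_le (h.differentiableOn_Kg hl hρ0 hρl hρ1 hρa hρM hW)
    (fun z hz => h.Kg_le hl hρ0 hρl hρ1 hρa hρM hW hz) hρ0 m
  exact (mul_le_mul_of_nonneg_right (abs_re_le_norm _) (by positivity)).trans h1

/-- The expansions. -/
theorem coeffs (h : Germ l a0 A) (hl : 0 < l) (hρ0 : 0 < ρ) (hρl : ρ ≤ l / 2)
    (hρ1 : ρ ≤ 1) (hρa : ρ * (4 * a0 / l) ≤ 1 / 4) (hρM : ρ * (M + a0) ≤ 1 / 4) (hW : |W| ≤ M) :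
    kc A W 0 = 1 ∧ kc A W 1 = kk1 W ∧ kc A W 2 = kk2 W (rc A 1) ∧
      kc A W 3 = kk3 W (rc A 1) (rc A 2) ∧ kc A W 4 = kk4 W (rc A 1) (rc A 2) (rc A 3) := by
  have hF : 𝓝[≠] (0 : ℂ) ≤ 𝓝 0 := nhdsWithin_le_nhds
  have hK := h.differentiableOn_Kg hl hρ0 hρl hρ1 hρa hρM hW
  have hKa : AnalyticAt ℂ (Kg A W) 0 := hK.analyticAt (isOpen_ball.mem_nhds (mem_ball_self hρ0))
  have hAa : AnalyticAt ℂ A 0 := h.diff.analyticAt (isOpen_ball.mem_nhds (mem_ball_self hl))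
  have eK := (E5_of_analytic hKa).mono hF
  have eA := (E5_of_analytic hAa).mono hF
  have eA' := (E5_of_analytic hAa.deriv).mono hF
  have ez : E5 (𝓝[≠] (0 : ℂ)) (fun z => z) 0 1 0 0 0 :=
    (E5_poly _ 0 1 0 0 0).congr (Eventually.of_forall fun z => by simp)
  have ez2 : E5 (𝓝[≠] (0 : ℂ)) (fun z => z ^ 2) 0 0 1 0 0 :=
    (E5_poly _ 0 0 1 0 0).congr (Eventually.of_forall fun z => by simp)
  have e1 : E5 (𝓝[≠] (0 : ℂ)) (fun _ => 1) 1 0 0 0 0 :=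
    (E5_poly _ 1 0 0 0 0).congr (Eventually.of_forall fun z => by simp)
  have eWz : E5 (𝓝[≠] (0 : ℂ)) (fun z => 1 + (W : ℂ) * z) 1 W 0 0 0 :=
    (E5_poly _ 1 W 0 0 0).congr (Eventually.of_forall fun z => by simp)
  have eN := e1.add (ez2.mul hF eA')
  have eD := eWz.sub (ez.mul hF eA)
  have eK3 := (((eK.mul hF eK).mul hF eK).mul hF eD)
  have heq : (fun z => Kg A W z * Kg A W z * Kg A W z * (1 + (W : ℂ) * z - z * A z))
      =ᶠ[𝓝[≠] (0 : ℂ)] fun z => 1 + z ^ 2 * deriv A z := by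
    have : ∀ᶠ z in 𝓝[≠] (0 : ℂ), z ∈ ball (0 : ℂ) ρ :=
      hF (isOpen_ball.mem_nhds (mem_ball_self hρ0))
    filter_upwards [this] with z hz
    have h1 : Kg A W z * Kg A W z * Kg A W z = Nm A z / Dn A W z := by
      have h2 : Kg A W z ^ 3 = Nm A z / Dn A W z := cube
      rw [← h2]; ring
    rw [h1]
    have h2 := (Dn_ne (h.Dn_close hρ0 hρl hl hρM hW hz)).2
    change Nm A z / Dn A W z * Dn A W z = Nm A z
    field_simp
  obtain ⟨u0, u1, u2, u3, u4⟩ := E5.unique le_rfl (eK3.congr heq) eN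
  have t0 : tc (Kg A W) 0 = 1 := by
    rw [tc_zero]
    unfold Kg Nm Dn
    simp
  have hA0 : tc A 0 = 0 := by rw [tc_zero, h.zero]
  have hA1 : tc A 1 = (rc A 1 : ℂ) := tc_real hl h.conj' 1
  have hA2 : tc A 2 = (rc A 2 : ℂ) := tc_real hl h.conj' 2
  have hA3 : tc A 3 = (rc A 3 : ℂ) := tc_real hl h.conj' 3
  have d0 : tc (deriv A) 0 = tc A 1 := by rw [tc_deriv]; simp
  have d1 : tc (deriv A) 1 = 2 * tc A 2 := by rw [tc_deriv]; norm_num
  have d2 : tc (deriv A) 2 = 3 * tc A 3 := by rw [tc_deriv]; norm_num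
  simp only [t0, hA0, d0, d1, d2, hA1, hA2, hA3] at u1 u2 u3 u4
  obtain ⟨g1, g2, g3, g4⟩ := kk_eqs W (rc A 1) (rc A 2) (rc A 3)
  have g1' := congrArg (fun x : ℝ => (x : ℂ)) g1
  have g2' := congrArg (fun x : ℝ => (x : ℂ)) g2
  have g3' := congrArg (fun x : ℝ => (x : ℂ)) g3
  have g4' := congrArg (fun x : ℝ => (x : ℂ)) g4
  push_cast at g1' g2' g3' g4' u1 u2 u3 u4
  have k1 : tc (Kg A W) 1 = (kk1 W : ℂ) := by
    linear_combination (1 / 3 : ℂ) * u1 - (1 / 3 : ℂ) * g1'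
  rw [k1] at u2 u3 u4
  have k2 : tc (Kg A W) 2 = (kk2 W (rc A 1) : ℂ) := by
    linear_combination (1 / 3 : ℂ) * u2 - (1 / 3 : ℂ) * g2'
  rw [k2] at u3 u4
  have k3 : tc (Kg A W) 3 = (kk3 W (rc A 1) (rc A 2) : ℂ) := by
    linear_combination (1 / 3 : ℂ) * u3 - (1 / 3 : ℂ) * g3'
  rw [k3] at u4
  have k4 : tc (Kg A W) 4 = (kk4 W (rc A 1) (rc A 2) (rc A 3) : ℂ) := by
    linear_combination (1 / 3 : ℂ) * u4 - (1 / 3 : ℂ) * g4'
  refine ⟨?_, ?_, ?_, ?_, ?_⟩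
  · unfold kc; rw [t0]; simp
  · unfold kc; rw [k1]; simp
  · unfold kc; rw [k2]; simp
  · unfold kc; rw [k3]; simp
  · unfold kc; rw [k4]; simp

theorem real_val (h : Germ l a0 A) {u : ℝ} (hu : |u| < l) : A u = ((A u).re : ℂ) := by
  have h1 := h.conj' (u : ℂ) (by simpa using hu)
  rw [Complex.conj_ofReal] at h1
  exact (Complex.conj_eq_iff_re.mp h1.symm).symm

theorem real_deriv (h : Germ l a0 A) {u : ℝ} (hu : |u| < l) :
    deriv A u = ((deriv A u).re : ℂ) := by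
  have h1 := iteratedDeriv_conj h.conj' 1 (u : ℂ) (by simpa using hu)
  rw [Complex.conj_ofReal, iteratedDeriv_one] at h1
  exact (Complex.conj_eq_iff_re.mp h1.symm).symm

theorem real_Nm (h : Germ l a0 A) {u : ℝ} (hu : |u| < l) (hu0 : u ≠ 0) :
    Nm A u = ((u ^ 2 * psd A u : ℝ) : ℂ) := by
  unfold Nm psd
  rw [h.real_deriv hu]
  have : (u : ℂ) ≠ 0 := by exact_mod_cast hu0
  push_cast
  rw [Complex.ofReal_re]
  field_simp

theorem real_Dn (h : Germ l a0 A) {u : ℝ} (hu : |u| < l) (hu0 : u ≠ 0) :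
    Dn A W u = ((u * (W - psr A u) : ℝ) : ℂ) := by
  unfold Dn psr
  rw [h.real_val hu]
  have : (u : ℂ) ≠ 0 := by exact_mod_cast hu0
  push_cast
  rw [Complex.ofReal_re]
  field_simp
  ring

theorem real_axis (h : Germ l a0 A) (hl : 0 < l) (hρ0 : 0 < ρ) (hρl : ρ ≤ l / 2)
    (hρ1 : ρ ≤ 1) (hρa : ρ * (4 * a0 / l) ≤ 1 / 4) (hρM : ρ * (M + a0) ≤ 1 / 4) (hW : |W| ≤ M)
    {u : ℝ} (hu0 : 0 < u) (huρ : u < ρ) :
    0 < W - psr A u ∧ 0 < psd A u ∧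
      HasSum (fun m => kc A W m * u ^ m) (u ^ (1 / 3 : ℝ) * kap A W u) := by
  have hul : |u| < l := by rw [abs_of_pos hu0]; linarith
  have hub : (u : ℂ) ∈ ball (0 : ℂ) ρ := by
    rw [mem_ball_zero_iff]; simpa [abs_of_pos hu0] using huρ
  have hN := h.Nm_close hl hρ0 hρl hρ1 hρa hub
  have hD := h.Dn_close hρ0 hρl hl hρM hW hub
  have eN := h.real_Nm hul hu0.ne'
  have eD := h.real_Dn (W := W) hul hu0.ne'
  rw [eN, ← Complex.ofReal_one, ← Complex.ofReal_sub, Complex.norm_real, Real.norm_eq_abs] at hN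
  rw [eD, ← Complex.ofReal_one, ← Complex.ofReal_sub, Complex.norm_real, Real.norm_eq_abs] at hD
  have pN : 0 < u ^ 2 * psd A u := by linarith [(abs_le.mp hN).1]
  have pD : 0 < u * (W - psr A u) := by linarith [(abs_le.mp hD).1]
  have pN' : 0 < psd A u := (pos_iff_pos_of_mul_pos pN).mp (by positivity)
  have pD' : 0 < W - psr A u := (pos_iff_pos_of_mul_pos pD).mp hu0
  refine ⟨pD', pN', ?_⟩
  have h1 := hasSum_tc (h.differentiableOn_Kg hl hρ0 hρl hρ1 hρa hρM hW) hub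
  have h2 := Complex.hasSum_re h1
  have h3 : (Kg A W u).re = u ^ (1 / 3 : ℝ) * kap A W u := by
    unfold Kg kap
    rw [eN, eD, ← Complex.ofReal_div]
    have h4 : (((3 : ℕ) : ℂ)⁻¹) = ((1 / 3 : ℝ) : ℂ) := by push_cast; norm_num
    rw [h4, ← Complex.ofReal_cpow (by positivity), Complex.ofReal_re,
      ← Real.mul_rpow hu0.le (by positivity)]
    congr 1
    field_simp
  rw [h3] at h2
  refine h2.congr_fun ?_ |> id
  intro m
  unfold kc
  rw [← Complex.ofReal_pow, Complex.re_mul_ofReal]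

end Germ

end Pool.Agent.H66.M7
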