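import Pool.Agent.H66.M7.Prob

/-!
# Small jumps: deterministic form
-/

namespace Pool.Agent.H66.M7

open Set Metric Filter Topology

/-- If the densities of two nested domains are close at five points near the target, then the
increments of the driving function and of the capacity are small. -/
theorem small_jump {l a0 M η : ℝ} (hl : 0 < l) (ha : 0 ≤ a0) (hM : 0 ≤ M) (hη : 0 < η) :
    ∃ Cn : ℝ, 0 ≤ Cn ∧ ∃ s0 : ℝ, 0 < s0 ∧ s0 ≤ 1 ∧ 5 * s0 ≤ l / 4 ∧
      ∀ s : ℝ, 0 < s → s ≤ s0 → ∀ (A A' : ℂ → ℂ) (W W' a1 ε : ℝ),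
        Germ l a0 A → Germ l a0 A' → |W| ≤ M → |W'| ≤ M → rc A 1 = rc A' 1 + a1 →
        (∀ i : ℕ, i ≤ 4 → |kap A' W' (((i : ℝ) + 1) * s) - kap A W (((i : ℝ) + 1) * s)| ≤ ε) →
          |W' - W| ≤ Cn / s ^ 4 * ε + η ∧ a1 ≤ Cn / s ^ 4 * ε + η := by
  obtain ⟨ρ, hρ0, hρl, hρ1, hρa, hρM⟩ := Germ.exists_rho l a0 M hl ha hM
  set S : ℝ := 3 + 4 * M with hS
  have hS0 : 0 < S := by positivity
  obtain ⟨Λ, hΛ, s0, hs0, hs01, hs0ρ, H⟩ := extract_pts 4 hρ0 (by norm_num : (0:ℝ) ≤ 4)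
    (by positivity : 0 < η / S)
  refine ⟨S * (Λ * 5), by positivity, s0, hs0, hs01, ?_, ?_⟩
  · norm_num at hs0ρ; linarith
  intro s hs hss A A' W W' a1 ε hA hA' hW hW' hrel hε
  have hco := hA.coeffs hl hρ0 hρl hρ1 hρa hρM hW
  have hco' := hA'.coeffs hl hρ0 hρl hρ1 hρa hρM hW'
  have hb : ∀ m, |kc A' W' m - kc A W m| * ρ ^ m ≤ 4 := by
    intro m
    have h1 : |kc A' W' m - kc A W m| ≤ |kc A' W' m| + |kc A W m| := abs_sub _ _
    have h2 := mul_le_mul_of_nonneg_right h1 (pow_nonneg hρ0.le m)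
    have := hA.kc_le hl hρ0 hρl hρ1 hρa hρM hW m
    have := hA'.kc_le hl hρ0 hρl hρ1 hρa hρM hW' m
    nlinarith
  have hsum : ∑ i ∈ Finset.range (4 + 1),
      |∑' m, (kc A' W' m - kc A W m) * (((i : ℝ) + 1) * s) ^ m| ≤ 5 * ε := by
    have hi : ∀ i ∈ Finset.range (4 + 1),
        |∑' m, (kc A' W' m - kc A W m) * (((i : ℝ) + 1) * s) ^ m| ≤ ε := by
      intro i hi
      have hi4 : i ≤ 4 := by have := Finset.mem_range.mp hi; omega
      have hi' : (i : ℝ) ≤ 4 := by exact_mod_cast hi4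
      have hu0 : 0 < ((i : ℝ) + 1) * s := by positivity
      have hu1 : ((i : ℝ) + 1) * s ≤ ρ / 2 := by
        have h5 : (5 : ℝ) * s0 ≤ ρ / 2 := by
          have h6 := hs0ρ
          norm_num at h6
          exact h6
        have h7 : ((i : ℝ) + 1) * s ≤ 5 * s0 := mul_le_mul (by linarith) hss hs.le (by norm_num)
        exact h7.trans h5
      have hu2 : ((i : ℝ) + 1) * s < ρ := by linarith
      have hu3 : ((i : ℝ) + 1) * s ≤ 1 := by linarith
      have h1 := (hA.real_axis hl hρ0 hρl hρ1 hρa hρM hW hu0 hu2).2.2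
      have h2 := (hA'.real_axis hl hρ0 hρl hρ1 hρa hρM hW' hu0 hu2).2.2
      have h3 := h2.sub h1
      have h4 : ∑' m, (kc A' W' m - kc A W m) * (((i : ℝ) + 1) * s) ^ m
          = (((i : ℝ) + 1) * s) ^ (1 / 3 : ℝ)
            * (kap A' W' (((i : ℝ) + 1) * s) - kap A W (((i : ℝ) + 1) * s)) := by
        rw [mul_sub, ← h3.tsum_eq]
        exact tsum_congr fun m => by ring
      rw [h4, abs_mul, abs_of_nonneg (by positivity)]
      have h5 : (((i : ℝ) + 1) * s) ^ (1 / 3 : ℝ) ≤ 1 := Real.rpow_le_one hu0.le hu3 (by norm_num)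
      calc _ ≤ 1 * |kap A' W' (((i : ℝ) + 1) * s) - kap A W (((i : ℝ) + 1) * s)| :=
            mul_le_mul_of_nonneg_right h5 (abs_nonneg _)
        _ ≤ ε := by rw [one_mul]; exact hε i hi4
    refine (Finset.sum_le_sum hi).trans (le_of_eq ?_)
    rw [Finset.sum_const, Finset.card_range, nsmul_eq_mul]
    norm_num
  set δ : ℝ := Λ / s ^ 4 * (5 * ε) + η / S with hδ
  have base : ∀ m ≤ 4, |kc A' W' m - kc A W m| ≤ δ := fun m hm =>
    (H s hs hss (fun m => kc A' W' m - kc A W m) hb m hm).trans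
      (add_le_add (mul_le_mul_of_nonneg_left hsum (by positivity)) le_rfl)
  have hfin : S * δ = S * (Λ * 5) / s ^ 4 * ε + η := by
    rw [hδ]
    field_simp
  have hδ0 : 0 ≤ δ := (abs_nonneg _).trans (base 0 (by norm_num))
  rw [← hfin]
  have e1 : W' - W = -3 * (kc A' W' 1 - kc A W 1) := by
    rw [hco.2.1, hco'.2.1]; unfold kk1; ring
  have hdW : |W' - W| ≤ 3 * δ := by
    rw [e1, abs_mul]
    norm_num
    linarith [base 1 (by norm_num)]
  refine ⟨hdW.trans (by rw [hS]; nlinarith), ?_⟩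
  have e3 : kc A' W' 2 - kc A W 2 = 2 / 9 * (W' ^ 2 - W ^ 2) - 2 / 3 * a1 := by
    rw [hco.2.2.1, hco'.2.2.1, hrel]; unfold kk2; ring
  have h2 := base 2 (by norm_num)
  rw [e3] at h2
  have h3 : |W' ^ 2 - W ^ 2| ≤ 2 * M * (3 * δ) := by
    have h4 : W' ^ 2 - W ^ 2 = (W' + W) * (W' - W) := by ring
    rw [h4, abs_mul]
    have h5 : |W' + W| ≤ 2 * M := (abs_add_le _ _).trans (by linarith)
    exact mul_le_mul h5 hdW (abs_nonneg _) (by positivity)
  have h4 := (abs_le.mp h2).1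
  have h5 := (abs_le.mp h3).2
  rw [hS]
  nlinarith

end Pool.Agent.H66.M7
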