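import Pool.Agent.H66.M7.Extract
import Pool.Agent.H66.M7.Germ

/-!
# Test function form of the extraction

If the random densities `κ' = kap A' W'` and `κ = kap A W` have almost the same expectation against
every bounded `G`-measurable test function at five points near the target, then the same holds for
the quantities of orders 1, 2 and 4.
-/

namespace Pool.Agent.H66.M7

open MeasureTheory Set Metric Filter Topology

universe u

variable {Ω : Type u} [m0 : MeasurableSpace Ω] {P : Measure Ω} [IsProbabilityMeasure P]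

theorem integrable_bdd {f : Ω → ℝ} {B : ℝ} (hf : Measurable f) (hB : ∀ ω, |f ω| ≤ B) :
    Integrable f P :=
  Integrable.of_bound hf.aestronglyMeasurable B (Eventually.of_forall fun ω => by
    rw [Real.norm_eq_abs]; exact hB ω)

theorem abs_integral_le {f : Ω → ℝ} {B : ℝ} (hf : Measurable f) (hB : ∀ ω, |f ω| ≤ B) :
    |∫ ω, f ω ∂P| ≤ B := by
  have h1 : |∫ ω, f ω ∂P| ≤ ∫ ω, |f ω| ∂P := abs_integral_le_integral_abs
  have h2 : ∫ ω, |f ω| ∂P ≤ ∫ _, B ∂P :=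
    integral_mono (integrable_bdd hf hB).abs (integrable_const B) hB
  simpa using h1.trans h2

/-- Interchange of sum and integral. -/
theorem swap {k : ℕ → Ω → ℝ} {Y : Ω → ℝ} {ρ B u : ℝ} (hk : ∀ m, Measurable (k m))
    (hb : ∀ m ω, |k m ω| * ρ ^ m ≤ B) (hY : Measurable Y) (hY1 : ∀ ω, |Y ω| ≤ 1)
    (hu0 : 0 ≤ u) (hu : u ≤ ρ / 2) :
    ∑' m, (∫ ω, Y ω * k m ω ∂P) * u ^ m = ∫ ω, Y ω * ∑' m, k m ω * u ^ m ∂P := by
  have hbd : ∀ m ω, |Y ω * (k m ω * u ^ m)| ≤ B * (1 / 2) ^ m := by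
    intro m ω
    rw [abs_mul, abs_mul, abs_of_nonneg (pow_nonneg hu0 m)]
    have h1 := coeff_le (x := fun m => k m ω) (fun m => hb m ω) m hu0 hu
    calc |Y ω| * (|k m ω| * u ^ m) ≤ 1 * (|k m ω| * u ^ m) :=
          mul_le_mul_of_nonneg_right (hY1 ω) (mul_nonneg (abs_nonneg _) (pow_nonneg hu0 m))
      _ ≤ B * (1 / 2) ^ m := by rw [one_mul]; exact h1
  have hmeas : ∀ m, Measurable fun ω => Y ω * (k m ω * u ^ m) := fun m =>
    hY.mul ((hk m).mul_const _)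
  have h1 : ∀ m, Integrable (fun ω => Y ω * (k m ω * u ^ m)) P := fun m =>
    integrable_bdd (hmeas m) (hbd m)
  have h2 : Summable fun m => ∫ ω, ‖Y ω * (k m ω * u ^ m)‖ ∂P := by
    refine Summable.of_nonneg_of_le (fun m => integral_nonneg fun ω => norm_nonneg _) (fun m => ?_)
      ((summable_geometric_of_lt_one (by norm_num : (0:ℝ) ≤ 1 / 2) (by norm_num)).mul_left B)
    have h3 : ∫ ω, ‖Y ω * (k m ω * u ^ m)‖ ∂P ≤ ∫ _, B * (1 / 2) ^ m ∂P :=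
      integral_mono (h1 m).norm (integrable_const _) (hbd m)
    simpa using h3
  have h4 := hasSum_integral_of_summable_integral_norm h1 h2
  have h5 : ∀ m, ∫ ω, Y ω * (k m ω * u ^ m) ∂P = (∫ ω, Y ω * k m ω ∂P) * u ^ m := by
    intro m
    rw [← integral_mul_const]
    exact integral_congr_ae (Eventually.of_forall fun ω => by simp only; ring)
  have h6 : ∀ ω, ∑' m, Y ω * (k m ω * u ^ m) = Y ω * ∑' m, k m ω * u ^ m := fun ω =>
    tsum_mul_left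
  simp only [h6] at h4
  rw [← h4.tsum_eq]
  exact tsum_congr fun m => (h5 m).symm

/-- Abstract form: coefficients of orders `≤ N` from the values at `s, ..., (N+1) s`. -/
theorem test_coeff (N : ℕ) {ρ B η : ℝ} (hρ : 0 < ρ) (hB : 0 ≤ B) (hη : 0 < η) :
    ∃ Λ : ℝ, 0 ≤ Λ ∧ ∃ s0 : ℝ, 0 < s0 ∧ s0 ≤ 1 ∧ (N + 1) * s0 ≤ ρ / 2 ∧
      ∀ s : ℝ, 0 < s → s ≤ s0 → ∀ (Ω : Type u) (_ : MeasurableSpace Ω) (P : Measure Ω)
        (_ : IsProbabilityMeasure P) (k k' : ℕ → Ω → ℝ) (Y : Ω → ℝ) (ε : ℝ),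
        (∀ m, Measurable (k m)) → (∀ m, Measurable (k' m)) →
        (∀ m ω, |k m ω| * ρ ^ m ≤ B) → (∀ m ω, |k' m ω| * ρ ^ m ≤ B) →
        Measurable Y → (∀ ω, |Y ω| ≤ 1) →
        (∀ i ≤ N, |∫ ω, Y ω * (∑' m, k' m ω * (((i : ℝ) + 1) * s) ^ m
          - ∑' m, k m ω * (((i : ℝ) + 1) * s) ^ m) ∂P| ≤ ε) →
        ∀ m ≤ N, |∫ ω, Y ω * (k' m ω - k m ω) ∂P| ≤ Λ / s ^ N * ((N + 1) * ε) + η := by
  obtain ⟨Λ, hΛ, s0, hs0, hs01, hs0ρ, H⟩ := extract_pts N hρ (by positivity : 0 ≤ 2 * B) hη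
  refine ⟨Λ, hΛ, s0, hs0, hs01, hs0ρ, ?_⟩
  intro s hs hss Ω m0 P hP k k' Y ε hk hk' hb hb' hY hY1 hε m hm
  have hdm : ∀ m, Measurable (fun ω => k' m ω - k m ω) := fun m => (hk' m).sub (hk m)
  have hdb : ∀ m ω, |k' m ω - k m ω| * ρ ^ m ≤ 2 * B := by
    intro m ω
    have h1 : |k' m ω - k m ω| ≤ |k' m ω| + |k m ω| := abs_sub _ _
    have h2 := mul_le_mul_of_nonneg_right h1 (pow_nonneg hρ.le m)
    have := hb m ω
    have := hb' m ω
    nlinarith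
  have hx : ∀ m, |∫ ω, Y ω * (k' m ω - k m ω) ∂P| * ρ ^ m ≤ 2 * B := by
    intro m
    have h1 : |∫ ω, Y ω * (k' m ω - k m ω) ∂P| ≤ 2 * B / ρ ^ m := by
      refine abs_integral_le (hY.mul (hdm m)) fun ω => ?_
      rw [abs_mul]
      have h2 : |k' m ω - k m ω| ≤ 2 * B / ρ ^ m := by
        rw [le_div_iff₀ (by positivity)]; exact hdb m ω
      calc |Y ω| * |k' m ω - k m ω| ≤ 1 * |k' m ω - k m ω| :=
            mul_le_mul_of_nonneg_right (hY1 ω) (abs_nonneg _)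
        _ ≤ _ := by rw [one_mul]; exact h2
    rwa [le_div_iff₀ (by positivity)] at h1
  refine (H s hs hss (fun m => ∫ ω, Y ω * (k' m ω - k m ω) ∂P) hx m hm).trans
    (add_le_add ?_ le_rfl)
  refine mul_le_mul_of_nonneg_left ?_ (by positivity)
  have hi : ∀ i ∈ Finset.range (N + 1),
      |∑' m, (∫ ω, Y ω * (k' m ω - k m ω) ∂P) * (((i : ℝ) + 1) * s) ^ m| ≤ ε := by
    intro i hi
    have hiN : i ≤ N := by have := Finset.mem_range.mp hi; omega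
    have hiN' : (i : ℝ) ≤ N := by exact_mod_cast hiN
    have hu0 : 0 ≤ ((i : ℝ) + 1) * s := by positivity
    have hu : ((i : ℝ) + 1) * s ≤ ρ / 2 :=
      (mul_le_mul (by linarith) hss hs.le (by positivity)).trans hs0ρ
    rw [swap hdm hdb hY hY1 hu0 hu]
    have h3 : ∀ ω, ∑' m, (k' m ω - k m ω) * (((i : ℝ) + 1) * s) ^ m
        = ∑' m, k' m ω * (((i : ℝ) + 1) * s) ^ m - ∑' m, k m ω * (((i : ℝ) + 1) * s) ^ m := by
      intro ω
      rw [← (summable_pt (x := fun m => k' m ω) (fun m => hb' m ω) hu0 hu).tsum_sub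
        (summable_pt (x := fun m => k m ω) (fun m => hb m ω) hu0 hu)]
      exact tsum_congr fun m => by ring
    simp only [h3]
    exact hε i hiN
  refine (Finset.sum_le_sum hi).trans (le_of_eq ?_)
  rw [Finset.sum_const, Finset.card_range, nsmul_eq_mul]
  push_cast
  ring

/-- The quantity of order 4. -/
noncomputable def c4 (W dW a1 a2 a3 : ℝ) : ℝ :=
  35 / 243 * dW ^ 4 - 16 / 27 * dW ^ 2 * a1 - 2 / 3 * dW * (a2 - W * a1)
    + 14 / 9 * a1 ^ 2 - 4 / 3 * (a3 - 2 * W * a2 + W ^ 2 * a1)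

theorem exists_mult_bound (M D : ℝ) : ∃ S : ℝ, 1 ≤ S ∧ ∀ W c d : ℝ, |W| ≤ M → |c| ≤ D → |d| ≤ D →
    |6 * W| ≤ S ∧ |ss3 W| ≤ S ∧ |ss2 W c| ≤ S ∧ |ss1 W c d| ≤ S := by
  have hK : IsCompact ((Icc (-M) M ×ˢ (Icc (-D) D ×ˢ Icc (-D) D)) : Set (ℝ × ℝ × ℝ)) :=
    isCompact_Icc.prod (isCompact_Icc.prod isCompact_Icc)
  obtain ⟨C0, h0⟩ := hK.exists_bound_of_continuousOn
    (f := fun x : ℝ × ℝ × ℝ => 6 * x.1) (by fun_prop)
  obtain ⟨C3, h3⟩ := hK.exists_bound_of_continuousOn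
    (f := fun x : ℝ × ℝ × ℝ => ss3 x.1) (by unfold ss3; fun_prop)
  obtain ⟨C2, h2⟩ := hK.exists_bound_of_continuousOn
    (f := fun x : ℝ × ℝ × ℝ => ss2 x.1 x.2.1) (by unfold ss2; fun_prop)
  obtain ⟨C1, h1⟩ := hK.exists_bound_of_continuousOn
    (f := fun x : ℝ × ℝ × ℝ => ss1 x.1 x.2.1 x.2.2) (by unfold ss1; fun_prop)
  refine ⟨max 1 (max C0 (max C3 (max C2 C1))), le_max_left _ _, fun W c d hW hc hd => ?_⟩
  have hx : ((W, c, d) : ℝ × ℝ × ℝ) ∈ ((Icc (-M) M ×ˢ (Icc (-D) D ×ˢ Icc (-D) D)) :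
      Set (ℝ × ℝ × ℝ)) := ⟨abs_le.mp hW, abs_le.mp hc, abs_le.mp hd⟩
  refine ⟨(h0 _ hx).trans ?_, (h3 _ hx).trans ?_, (h2 _ hx).trans ?_, (h1 _ hx).trans ?_⟩
  · exact (le_max_left _ _).trans (le_max_right _ _)
  · exact ((le_max_left _ _).trans (le_max_right _ _)).trans (le_max_right _ _)
  · exact (((le_max_left _ _).trans (le_max_right _ _)).trans (le_max_right _ _)).trans
      (le_max_right _ _)
  · exact (((le_max_right _ _).trans (le_max_right _ _)).trans (le_max_right _ _)).trans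
      (le_max_right _ _)

theorem rc_le {l a0 : ℝ} {A : ℂ → ℂ} (h : Germ l a0 A) (hl : 0 < l) (m : ℕ) :
    |rc A m| ≤ a0 / l ^ m := by
  rw [le_div_iff₀ (by positivity)]
  exact (mul_le_mul_of_nonneg_right (Complex.abs_re_le_norm _) (by positivity)).trans
    (tc_le h.diff h.bound hl m)

theorem integral_add4 {f1 f2 f3 f4 : Ω → ℝ} (h1 : Integrable f1 P) (h2 : Integrable f2 P)
    (h3 : Integrable f3 P) (h4 : Integrable f4 P) :
    ∫ ω, (f1 ω + f2 ω + f3 ω + f4 ω) ∂P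
      = ∫ ω, f1 ω ∂P + ∫ ω, f2 ω ∂P + ∫ ω, f3 ω ∂P + ∫ ω, f4 ω ∂P := by
  have h12 : Integrable (fun ω => f1 ω + f2 ω) P := h1.add h2
  have h123 : Integrable (fun ω => f1 ω + f2 ω + f3 ω) P := h12.add h3
  rw [integral_add h123 h4, integral_add h12 h3, integral_add h1 h2]

theorem meas_kk3 {Ω : Type u} {G : MeasurableSpace Ω} {W c : Ω → ℝ} (hW : Measurable W)
    (hc : Measurable c) : Measurable fun ω => kk3 (W ω) (c ω) 0 := by
  unfold kk3; fun_prop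

theorem meas_ss3 {Ω : Type u} {G : MeasurableSpace Ω} {W : Ω → ℝ} (hW : Measurable W) :
    Measurable fun ω => ss3 (W ω) := by
  unfold ss3; fun_prop

theorem meas_ss2 {Ω : Type u} {G : MeasurableSpace Ω} {W c : Ω → ℝ} (hW : Measurable W)
    (hc : Measurable c) : Measurable fun ω => ss2 (W ω) (c ω) := by
  unfold ss2; fun_prop

theorem meas_ss1 {Ω : Type u} {G : MeasurableSpace Ω} {W c d : Ω → ℝ} (hW : Measurable W)
    (hc : Measurable c) (hd : Measurable d) : Measurable fun ω => ss1 (W ω) (c ω) (d ω) := by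
  unfold ss1; fun_prop

/-- **One step, test function form.** -/
theorem one_step {l a0 M η : ℝ} (hl : 0 < l) (ha : 0 ≤ a0) (hM : 0 ≤ M) (hη : 0 < η) :
    ∃ Cn : ℝ, 0 ≤ Cn ∧ ∃ s0 : ℝ, 0 < s0 ∧ s0 ≤ 1 ∧ 5 * s0 ≤ l / 4 ∧
      ∀ s : ℝ, 0 < s → s ≤ s0 → ∀ (Ω : Type u) (G m0 : MeasurableSpace Ω) (P : Measure Ω)
        (_ : IsProbabilityMeasure P) (_ : G ≤ m0)
        (A A' : Ω → ℂ → ℂ) (W W' a1 a2 a3 : Ω → ℝ) (ε : ℝ),
        (∀ ω, Germ l a0 (A ω)) → (∀ ω, Germ l a0 (A' ω)) →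
        (∀ ω, |W ω| ≤ M) → (∀ ω, |W' ω| ≤ M) →
        (∀ m, Measurable[G] fun ω => kc (A ω) (W ω) m) →
        (∀ m, Measurable[m0] fun ω => kc (A' ω) (W' ω) m) →
        (∀ ω, rc (A ω) 1 = rc (A' ω) 1 + a1 ω ∧ rc (A ω) 2 = rc (A' ω) 2 - a2 ω ∧
          rc (A ω) 3 = rc (A' ω) 3 + a1 ω * rc (A' ω) 1 + a3 ω) →
        (∀ i : ℕ, i ≤ 4 → ∀ Y : Ω → ℝ, Measurable[G] Y → (∀ ω, |Y ω| ≤ 1) →
          |∫ ω, Y ω * (kap (A' ω) (W' ω) (((i : ℝ) + 1) * s)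
            - kap (A ω) (W ω) (((i : ℝ) + 1) * s)) ∂P| ≤ ε) →
        ∀ Y : Ω → ℝ, Measurable[G] Y → (∀ ω, |Y ω| ≤ 1) →
          |∫ ω, Y ω * (W' ω - W ω) ∂P| ≤ Cn / s ^ 4 * ε + η ∧
          |∫ ω, Y ω * ((W' ω - W ω) ^ 2 - 3 * a1 ω) ∂P| ≤ Cn / s ^ 4 * ε + η ∧
          |∫ ω, Y ω * c4 (W ω) (W' ω - W ω) (a1 ω) (a2 ω) (a3 ω) ∂P| ≤ Cn / s ^ 4 * ε + η := by
  obtain ⟨ρ, hρ0, hρl, hρ1, hρa, hρM⟩ := Germ.exists_rho l a0 M hl ha hM
  obtain ⟨S, hS1, hS⟩ := exists_mult_bound M (max (a0 / l ^ 1) (a0 / l ^ 2))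
  have hS0 : 0 < S := by linarith
  obtain ⟨Λ, hΛ, s0, hs0, hs01, hs0ρ, H⟩ := test_coeff.{u} 4 hρ0 (by norm_num : (0:ℝ) ≤ 2)
    (by positivity : 0 < η / (8 * S))
  refine ⟨8 * S * (Λ * 5), by positivity, s0, hs0, hs01, ?_, ?_⟩
  · push_cast at hs0ρ; linarith
  intro s hs hss Ω G m0 P hP hG A A' W W' a1 a2 a3 ε hA hA' hW hW' hk hk' hrel hε
  have hk0 : ∀ m, Measurable fun ω => kc (A ω) (W ω) m := fun m => (hk m).mono hG le_rfl
  have hco := fun ω => (hA ω).coeffs hl hρ0 hρl hρ1 hρa hρM (hW ω)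
  have hco' := fun ω => (hA' ω).coeffs hl hρ0 hρl hρ1 hρa hρM (hW' ω)
  have hb : ∀ m ω, |kc (A ω) (W ω) m| * ρ ^ m ≤ 2 := fun m ω =>
    (hA ω).kc_le hl hρ0 hρl hρ1 hρa hρM (hW ω) m
  have hb' : ∀ m ω, |kc (A' ω) (W' ω) m| * ρ ^ m ≤ 2 := fun m ω =>
    (hA' ω).kc_le hl hρ0 hρl hρ1 hρa hρM (hW' ω) m
  -- measurability
  have mW : Measurable[G] W := by
    have h1 : W = fun ω => -3 * kc (A ω) (W ω) 1 := by
      funext ω; rw [(hco ω).2.1]; unfold kk1; ring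
    rw [h1]
    exact (hk 1).const_mul _
  have mc : Measurable[G] fun ω => rc (A ω) 1 := by
    have h1 : (fun ω => rc (A ω) 1) = fun ω => 3 / 2 * (kc (A ω) (W ω) 2 - 2 / 9 * W ω ^ 2) := by
      funext ω; rw [(hco ω).2.2.1]; unfold kk2; ring
    rw [h1]
    exact ((hk 2).sub ((mW.pow_const 2).const_mul _)).const_mul _
  have md : Measurable[G] fun ω => rc (A ω) 2 := by
    have h1 : (fun ω => rc (A ω) 2) = fun ω => kc (A ω) (W ω) 3
        - kk3 (W ω) (rc (A ω) 1) 0 := by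
      funext ω; rw [(hco ω).2.2.2.1]; unfold kk3; ring
    rw [h1]
    exact (hk 3).sub (meas_kk3 mW mc)
  set δ : ℝ := Λ / s ^ 4 * (((4 : ℕ) + 1) * ε) + η / (8 * S) with hδ
  -- the basic estimate
  have base : ∀ Y : Ω → ℝ, Measurable[G] Y → (∀ ω, |Y ω| ≤ 1) → ∀ m ≤ 4,
      |∫ ω, Y ω * (kc (A' ω) (W' ω) m - kc (A ω) (W ω) m) ∂P| ≤ δ := by
    intro Y hY hY1 m hm
    refine H s hs hss Ω m0 P hP _ _ Y ε hk0 hk' hb hb' (hY.mono hG le_rfl) hY1 ?_ m hm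
    intro i hi
    have hi' : (i : ℝ) ≤ 4 := by exact_mod_cast hi
    have hu0 : 0 < ((i : ℝ) + 1) * s := by positivity
    have hu1 : ((i : ℝ) + 1) * s ≤ ρ / 2 := by
      have h5 : (5 : ℝ) * s0 ≤ ρ / 2 := by
        have h6 := hs0ρ
        norm_num at h6
        exact h6
      have h7 : ((i : ℝ) + 1) * s ≤ 5 * s0 := mul_le_mul (by linarith) hss hs.le (by norm_num)
      exact h7.trans h5
    have hu2 : ((i : ℝ) + 1) * s < ρ := by linarith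
    have hu3 : ((i : ℝ) + 1) * s ≤ 1 := by linarith
    set u : ℝ := ((i : ℝ) + 1) * s with hu
    have h1 : ∀ ω, ∑' m, kc (A' ω) (W' ω) m * u ^ m - ∑' m, kc (A ω) (W ω) m * u ^ m
        = u ^ (1 / 3 : ℝ) * (kap (A' ω) (W' ω) u - kap (A ω) (W ω) u) := by
      intro ω
      rw [((hA' ω).real_axis hl hρ0 hρl hρ1 hρa hρM (hW' ω) hu0 hu2).2.2.tsum_eq,
        ((hA ω).real_axis hl hρ0 hρl hρ1 hρa hρM (hW ω) hu0 hu2).2.2.tsum_eq]
      ring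
    have h2 : ∫ ω, Y ω * (∑' m, kc (A' ω) (W' ω) m * u ^ m - ∑' m, kc (A ω) (W ω) m * u ^ m) ∂P
        = u ^ (1 / 3 : ℝ) * ∫ ω, Y ω * (kap (A' ω) (W' ω) u - kap (A ω) (W ω) u) ∂P := by
      rw [← integral_const_mul]
      refine integral_congr_ae (Eventually.of_forall fun ω => ?_)
      simp only [h1 ω]
      ring
    rw [h2, abs_mul, abs_of_nonneg (by positivity)]
    have h3 : u ^ (1 / 3 : ℝ) ≤ 1 := Real.rpow_le_one hu0.le hu3 (by norm_num)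
    calc u ^ (1 / 3 : ℝ) * |∫ ω, Y ω * (kap (A' ω) (W' ω) u - kap (A ω) (W ω) u) ∂P|
        ≤ 1 * |∫ ω, Y ω * (kap (A' ω) (W' ω) u - kap (A ω) (W ω) u) ∂P| :=
          mul_le_mul_of_nonneg_right h3 (abs_nonneg _)
      _ ≤ ε := by rw [one_mul]; exact hε i hi Y hY hY1
  have hδ0 : 0 ≤ δ := (abs_nonneg _).trans (base 0 (@measurable_zero _ _ _ G _) (by simp) 0
    (by norm_num))
  -- with a multiplier
  have mult : ∀ Y V : Ω → ℝ, Measurable[G] Y → (∀ ω, |Y ω| ≤ 1) → Measurable[G] V →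
      (∀ ω, |V ω| ≤ S) → ∀ m ≤ 4,
      |∫ ω, Y ω * (V ω * (kc (A' ω) (W' ω) m - kc (A ω) (W ω) m)) ∂P| ≤ S * δ := by
    intro Y V hY hY1 hV hV1 m hm
    have h1 := base (fun ω => Y ω * (V ω / S)) (hY.mul (hV.div_const S)) (fun ω => by
      rw [abs_mul, abs_div, abs_of_pos hS0]
      have h2 : |V ω| / S ≤ 1 := (div_le_one hS0).mpr (hV1 ω)
      calc |Y ω| * (|V ω| / S) ≤ 1 * 1 :=
            mul_le_mul (hY1 ω) h2 (by positivity) (by norm_num)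
        _ = 1 := one_mul 1) m hm
    have h2 : ∫ ω, Y ω * (V ω * (kc (A' ω) (W' ω) m - kc (A ω) (W ω) m)) ∂P
        = S * ∫ ω, Y ω * (V ω / S) * (kc (A' ω) (W' ω) m - kc (A ω) (W ω) m) ∂P := by
      rw [← integral_const_mul]
      refine integral_congr_ae (Eventually.of_forall fun ω => ?_)
      simp only
      field_simp
    rw [h2, abs_mul, abs_of_pos hS0]
    exact mul_le_mul_of_nonneg_left h1 hS0.le
  have hdb : ∀ m ω, |kc (A' ω) (W' ω) m - kc (A ω) (W ω) m| ≤ 4 / ρ ^ m := by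
    intro m ω
    rw [le_div_iff₀ (by positivity)]
    have h1 : |kc (A' ω) (W' ω) m - kc (A ω) (W ω) m|
        ≤ |kc (A' ω) (W' ω) m| + |kc (A ω) (W ω) m| := abs_sub _ _
    have h2 := mul_le_mul_of_nonneg_right h1 (pow_nonneg hρ0.le m)
    have := hb m ω
    have := hb' m ω
    nlinarith
  have hint : ∀ Y V : Ω → ℝ, Measurable[G] Y → (∀ ω, |Y ω| ≤ 1) → Measurable[G] V →
      (∀ ω, |V ω| ≤ S) → ∀ m,
      Integrable (fun ω => Y ω * (V ω * (kc (A' ω) (W' ω) m - kc (A ω) (W ω) m))) P := by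
    intro Y V hY hY1 hV hV1 m
    refine integrable_bdd (B := 1 * (S * (4 / ρ ^ m))) ((hY.mono hG le_rfl).mul
      ((hV.mono hG le_rfl).mul ((hk' m).sub (hk0 m)))) fun ω => ?_
    rw [abs_mul, abs_mul]
    exact mul_le_mul (hY1 ω) (mul_le_mul (hV1 ω) (hdb m ω) (abs_nonneg _) hS0.le)
      (by positivity) (by norm_num)
  intro Y hY hY1
  have hcc : ∀ ω, |rc (A ω) 1| ≤ max (a0 / l ^ 1) (a0 / l ^ 2) := fun ω =>
    (rc_le (hA ω) hl 1).trans (le_max_left _ _)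
  have hdd : ∀ ω, |rc (A ω) 2| ≤ max (a0 / l ^ 1) (a0 / l ^ 2) := fun ω =>
    (rc_le (hA ω) hl 2).trans (le_max_right _ _)
  have hmul := fun ω => hS (W ω) (rc (A ω) 1) (rc (A ω) 2) (hW ω) (hcc ω) (hdd ω)
  have m6 : Measurable[G] fun ω => 6 * W ω := mW.const_mul 6
  have ms3 : Measurable[G] fun ω => ss3 (W ω) := meas_ss3 mW
  have ms2 : Measurable[G] fun ω => ss2 (W ω) (rc (A ω) 1) := meas_ss2 mW mc
  have ms1 : Measurable[G] fun ω => ss1 (W ω) (rc (A ω) 1) (rc (A ω) 2) := meas_ss1 mW mc md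
  have m1 : Measurable[G] fun _ : Ω => (1 : ℝ) := @measurable_const _ _ _ G _
  have h1S : ∀ _ : Ω, |(1 : ℝ)| ≤ S := fun _ => by simpa using hS1
  have e1 : ∀ ω, W' ω - W ω = -3 * (kc (A' ω) (W' ω) 1 - kc (A ω) (W ω) 1) := by
    intro ω
    rw [(hco ω).2.1, (hco' ω).2.1]
    unfold kk1; ring
  have e2 : ∀ ω, (W' ω - W ω) ^ 2 - 3 * a1 ω
      = 9 / 2 * (kc (A' ω) (W' ω) 2 - kc (A ω) (W ω) 2)
        + 6 * W ω * (kc (A' ω) (W' ω) 1 - kc (A ω) (W ω) 1) := by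
    intro ω
    rw [(hco ω).2.1, (hco' ω).2.1, (hco ω).2.2.1, (hco' ω).2.2.1]
    have h1 := step2 (W ω) (W' ω - W ω) (rc (A' ω) 1) (a1 ω)
    rw [← (hrel ω).1] at h1
    have h2 : W ω + (W' ω - W ω) = W' ω := by ring
    rw [h2] at h1
    exact h1
  have e4 : ∀ ω, c4 (W ω) (W' ω - W ω) (a1 ω) (a2 ω) (a3 ω)
      = (kc (A' ω) (W' ω) 4 - kc (A ω) (W ω) 4)
        + ss3 (W ω) * (kc (A' ω) (W' ω) 3 - kc (A ω) (W ω) 3)
        + ss2 (W ω) (rc (A ω) 1) * (kc (A' ω) (W' ω) 2 - kc (A ω) (W ω) 2)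
        + ss1 (W ω) (rc (A ω) 1) (rc (A ω) 2) * (kc (A' ω) (W' ω) 1 - kc (A ω) (W ω) 1) := by
    intro ω
    rw [(hco ω).2.1, (hco' ω).2.1, (hco ω).2.2.1, (hco' ω).2.2.1, (hco ω).2.2.2.1,
      (hco' ω).2.2.2.1, (hco ω).2.2.2.2, (hco' ω).2.2.2.2]
    have h1 := step4 (W ω) (W' ω - W ω) (rc (A' ω) 1) (rc (A' ω) 2) (rc (A' ω) 3)
      (a1 ω) (a2 ω) (a3 ω)
    rw [← (hrel ω).1, ← (hrel ω).2.1, ← (hrel ω).2.2] at h1
    have h2 : W ω + (W' ω - W ω) = W' ω := by ring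
    rw [h2] at h1
    unfold c4
    exact h1.symm
  have hfin : 8 * S * δ = 8 * S * (Λ * 5) / s ^ 4 * ε + η := by
    rw [hδ]
    push_cast
    field_simp
    ring
  rw [← hfin]
  refine ⟨?_, ?_, ?_⟩
  · have h1 : ∫ ω, Y ω * (W' ω - W ω) ∂P
        = -3 * ∫ ω, Y ω * (kc (A' ω) (W' ω) 1 - kc (A ω) (W ω) 1) ∂P := by
      rw [← integral_const_mul]
      refine integral_congr_ae (Eventually.of_forall fun ω => ?_)
      simp only [e1 ω]; ring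
    have h2 := base Y hY hY1 1 (by norm_num)
    rw [h1, abs_mul]
    norm_num
    nlinarith
  · have h1 : ∫ ω, Y ω * ((W' ω - W ω) ^ 2 - 3 * a1 ω) ∂P
        = 9 / 2 * ∫ ω, Y ω * (1 * (kc (A' ω) (W' ω) 2 - kc (A ω) (W ω) 2)) ∂P
          + ∫ ω, Y ω * (6 * W ω * (kc (A' ω) (W' ω) 1 - kc (A ω) (W ω) 1)) ∂P := by
      rw [← integral_const_mul, ← integral_add
        ((hint Y (fun _ => 1) hY hY1 m1 h1S 2).const_mul _)
        (hint Y (fun ω => 6 * W ω) hY hY1 m6 (fun ω => (hmul ω).1) 1)]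
      refine integral_congr_ae (Eventually.of_forall fun ω => ?_)
      simp only [e2 ω]; ring
    have h2 := base Y hY hY1 2 (by norm_num)
    have h3 := mult Y (fun ω => 6 * W ω) hY hY1 m6 (fun ω => (hmul ω).1) 1 (by norm_num)
    simp only [one_mul] at h1
    rw [h1]
    refine (abs_add_le _ _).trans ?_
    rw [abs_mul]
    have h4 : |(9 / 2 : ℝ)| = 9 / 2 := by norm_num
    rw [h4]
    nlinarith
  · have h1 : ∫ ω, Y ω * c4 (W ω) (W' ω - W ω) (a1 ω) (a2 ω) (a3 ω) ∂P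
        = ∫ ω, Y ω * (1 * (kc (A' ω) (W' ω) 4 - kc (A ω) (W ω) 4)) ∂P
          + ∫ ω, Y ω * (ss3 (W ω) * (kc (A' ω) (W' ω) 3 - kc (A ω) (W ω) 3)) ∂P
          + ∫ ω, Y ω * (ss2 (W ω) (rc (A ω) 1) * (kc (A' ω) (W' ω) 2 - kc (A ω) (W ω) 2)) ∂P
          + ∫ ω, Y ω * (ss1 (W ω) (rc (A ω) 1) (rc (A ω) 2)
              * (kc (A' ω) (W' ω) 1 - kc (A ω) (W ω) 1)) ∂P := by
      have i4 := hint Y (fun _ => 1) hY hY1 m1 h1S 4
      have i3 := hint Y _ hY hY1 ms3 (fun ω => (hmul ω).2.1) 3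
      have i2 := hint Y _ hY hY1 ms2 (fun ω => (hmul ω).2.2.1) 2
      have i1 := hint Y _ hY hY1 ms1 (fun ω => (hmul ω).2.2.2) 1
      rw [← integral_add4 i4 i3 i2 i1]
      refine integral_congr_ae (Eventually.of_forall fun ω => ?_)
      simp only [e4 ω]; ring
    have h2 := base Y hY hY1 4 (by norm_num)
    have h3 := mult Y _ hY hY1 ms3 (fun ω => (hmul ω).2.1) 3 (by norm_num)
    have h4 := mult Y _ hY hY1 ms2 (fun ω => (hmul ω).2.2.1) 2 (by norm_num)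
    have h5 := mult Y _ hY hY1 ms1 (fun ω => (hmul ω).2.2.2) 1 (by norm_num)
    simp only [one_mul] at h1
    rw [h1]
    refine (abs_add_le _ _).trans ?_
    have h6 := abs_add_le (∫ ω, Y ω * (kc (A' ω) (W' ω) 4 - kc (A ω) (W ω) 4) ∂P
          + ∫ ω, Y ω * (ss3 (W ω) * (kc (A' ω) (W' ω) 3 - kc (A ω) (W ω) 3)) ∂P)
      (∫ ω, Y ω * (ss2 (W ω) (rc (A ω) 1) * (kc (A' ω) (W' ω) 2 - kc (A ω) (W ω) 2)) ∂P)
    have h7 := abs_add_le (∫ ω, Y ω * (kc (A' ω) (W' ω) 4 - kc (A ω) (W ω) 4) ∂P)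
      (∫ ω, Y ω * (ss3 (W ω) * (kc (A' ω) (W' ω) 3 - kc (A ω) (W ω) 3)) ∂P)
    nlinarith

end Pool.Agent.H66.M7
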